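import Pool.Agent.Lib.MP_c6d336_gt.LiftExp

/-!
# Radial compression of the plane to a disc and the Connell extension lemma
-/

namespace Pool.Agent.Lib.MP_c6d336_gt

open Set Filter Topology NNReal

/-- compression factor -/
noncomputable def cf (t : ℝ) : ℝ := (3 - 1 / (max t 2 - 1)) / max t 2
/-- decompression factor -/
noncomputable def df (u : ℝ) : ℝ := (1 + 1 / (3 - max u 2)) / max u 2
/-- radial compression of the plane onto the open disc of radius three -/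
noncomputable def kap (z : ℂ) : ℂ := cf ‖z‖ • z
/-- its inverse -/
noncomputable def kapInv (v : ℂ) : ℂ := df ‖v‖ • v

theorem cf_of_le {t : ℝ} (h : t ≤ 2) : cf t = 1 := by
  unfold cf; rw [max_eq_right h]; norm_num

theorem df_of_le {t : ℝ} (h : t ≤ 2) : df t = 1 := by
  unfold df; rw [max_eq_right h]; norm_num

theorem cf_mul {t : ℝ} (h : 2 ≤ t) : cf t * t = 3 - 1 / (t - 1) := by
  unfold cf; rw [max_eq_left h]
  have : t ≠ 0 := by linarith
  field_simp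

theorem df_mul {t : ℝ} (h : 2 ≤ t) : df t * t = 1 + 1 / (3 - t) := by
  unfold df; rw [max_eq_left h]
  have : t ≠ 0 := by linarith
  field_simp

theorem cf_nonneg (t : ℝ) : 0 ≤ cf t := by
  unfold cf
  have h : 2 ≤ max t 2 := le_max_right _ _
  apply div_nonneg _ (by linarith)
  have : 1 / (max t 2 - 1) ≤ 1 := by
    rw [div_le_one (by linarith)]; linarith
  linarith

theorem df_nonneg {t : ℝ} (ht : t < 3) : 0 ≤ df t := by
  unfold df
  have h : 2 ≤ max t 2 := le_max_right _ _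
  have h3 : max t 2 < 3 := max_lt ht (by norm_num)
  apply div_nonneg _ (by linarith)
  have : 0 ≤ 1 / (3 - max t 2) := by
    apply div_nonneg zero_le_one; linarith
  linarith

theorem norm_kap (z : ℂ) : ‖kap z‖ = cf ‖z‖ * ‖z‖ := by
  rw [kap, norm_smul, Real.norm_of_nonneg (cf_nonneg _)]

theorem norm_kapInv {v : ℂ} (hv : ‖v‖ < 3) : ‖kapInv v‖ = df ‖v‖ * ‖v‖ := by
  rw [kapInv, norm_smul, Real.norm_of_nonneg (df_nonneg hv)]

theorem kap_eq_self {z : ℂ} (h : ‖z‖ ≤ 2) : kap z = z := by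
  rw [kap, cf_of_le h, one_smul]

theorem kapInv_eq_self {z : ℂ} (h : ‖z‖ ≤ 2) : kapInv z = z := by
  rw [kapInv, df_of_le h, one_smul]

theorem norm_kap_lt (z : ℂ) : ‖kap z‖ < 3 := by
  rcases le_or_gt ‖z‖ 2 with h | h
  · rw [kap_eq_self h]; linarith
  · rw [norm_kap, cf_mul h.le]
    have : 0 < 1 / (‖z‖ - 1) := by apply div_pos one_pos; linarith
    linarith

theorem kapInv_kap (z : ℂ) : kapInv (kap z) = z := by
  rcases le_or_gt ‖z‖ 2 with h | h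
  · rw [kap_eq_self h, kapInv_eq_self h]
  · have h1 : ‖kap z‖ = 3 - 1 / (‖z‖ - 1) := by rw [norm_kap, cf_mul h.le]
    have h2 : 2 ≤ ‖kap z‖ := by
      rw [h1]
      have : 1 / (‖z‖ - 1) ≤ 1 := by
        rw [div_le_one (by linarith)]; linarith
      linarith
    have h3 : df ‖kap z‖ * cf ‖z‖ = 1 := by
      have h4 : df ‖kap z‖ * ‖kap z‖ = ‖z‖ := by
        rw [df_mul h2, h1]
        have : ‖z‖ - 1 ≠ 0 := by linarith
        field_simp
        ring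
      rw [norm_kap] at h4
      have hz : ‖z‖ ≠ 0 := by linarith
      have h5 : (df (cf ‖z‖ * ‖z‖) * cf ‖z‖) * ‖z‖ = 1 * ‖z‖ := by linarith
      rw [norm_kap]
      exact mul_right_cancel₀ hz h5
    rw [kapInv]
    conv_lhs => rw [kap]
    rw [smul_smul]
    rw [show cf ‖z‖ • z = kap z from rfl, h3, one_smul]

theorem kap_kapInv {v : ℂ} (hv : ‖v‖ < 3) : kap (kapInv v) = v := by
  rcases le_or_gt ‖v‖ 2 with h | h
  · rw [kapInv_eq_self h, kap_eq_self h]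
  · have h1 : ‖kapInv v‖ = 1 + 1 / (3 - ‖v‖) := by rw [norm_kapInv hv, df_mul h.le]
    have h2 : 2 ≤ ‖kapInv v‖ := by
      rw [h1]
      have : 1 ≤ 1 / (3 - ‖v‖) := by
        rw [le_div_iff₀ (by linarith)]; linarith
      linarith
    have h3 : cf ‖kapInv v‖ * df ‖v‖ = 1 := by
      have h4 : cf ‖kapInv v‖ * ‖kapInv v‖ = ‖v‖ := by
        rw [cf_mul h2, h1]
        have : 3 - ‖v‖ ≠ 0 := by linarith
        field_simp
        ring
      rw [norm_kapInv hv] at h4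
      have hz : ‖v‖ ≠ 0 := by linarith
      have h5 : (cf (df ‖v‖ * ‖v‖) * df ‖v‖) * ‖v‖ = 1 * ‖v‖ := by linarith
      rw [norm_kapInv hv]
      exact mul_right_cancel₀ hz h5
    rw [kap]
    conv_lhs => rw [kapInv]
    rw [smul_smul]
    rw [show df ‖v‖ • v = kapInv v from rfl, h3, one_smul]

theorem continuous_cf : Continuous cf := by
  unfold cf
  have h1 : ∀ t : ℝ, max t 2 - 1 ≠ 0 := fun t => by
    have : 2 ≤ max t 2 := le_max_right _ _
    linarith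
  have h2 : ∀ t : ℝ, max t 2 ≠ 0 := fun t => by
    have : 2 ≤ max t 2 := le_max_right _ _
    linarith
  refine Continuous.div (continuous_const.sub (Continuous.div continuous_const ?_ h1)) ?_ h2
  · fun_prop
  · fun_prop

theorem continuous_kap : Continuous kap := by
  unfold kap
  exact (continuous_cf.comp continuous_norm).smul continuous_id

theorem continuousOn_df : ContinuousOn df (Iio 3) := by
  unfold df
  have h1 : ∀ t ∈ Iio (3 : ℝ), 3 - max t 2 ≠ 0 := fun t ht => by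
    have : max t 2 < 3 := max_lt ht (by norm_num)
    linarith
  have h2 : ∀ t ∈ Iio (3 : ℝ), max t 2 ≠ 0 := fun t _ => by
    have : 2 ≤ max t 2 := le_max_right _ _
    linarith
  refine ContinuousOn.div (continuousOn_const.add (ContinuousOn.div continuousOn_const ?_ h1)) ?_ h2
  · fun_prop
  · fun_prop

theorem continuousOn_kapInv : ContinuousOn kapInv {v | ‖v‖ < 3} := by
  unfold kapInv
  refine ContinuousOn.smul (continuousOn_df.comp continuous_norm.continuousOn ?_) continuousOn_id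
  intro v hv
  exact hv

theorem norm_kap_sub {z : ℂ} (h : 2 ≤ ‖z‖) : ‖kap z - (3 / ‖z‖) • z‖ = 1 / (‖z‖ - 1) := by
  have hz : ‖z‖ ≠ 0 := by linarith
  have hz1 : 0 < ‖z‖ - 1 := by linarith
  have h1 : cf ‖z‖ = (3 - 1 / (‖z‖ - 1)) / ‖z‖ := by unfold cf; rw [max_eq_left h]
  rw [kap, ← sub_smul, norm_smul, h1]
  have h2 : (3 - 1 / (‖z‖ - 1)) / ‖z‖ - 3 / ‖z‖ = - (1 / (‖z‖ - 1) / ‖z‖) := by ring
  rw [h2, norm_neg, Real.norm_of_nonneg (by positivity)]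
  field_simp

theorem norm_unit_sub {z w : ℂ} (hz : 0 < ‖z‖) (hw : 0 < ‖w‖) :
    ‖(3 / ‖w‖) • w - (3 / ‖z‖) • z‖ ≤ 6 * (‖w - z‖ / ‖z‖) := by
  have h1 : (3 / ‖w‖) • w - (3 / ‖z‖) • z =
      (3 / ‖z‖) • (w - z) + (3 / ‖w‖ - 3 / ‖z‖) • w := by
    rw [smul_sub, sub_smul]; abel
  rw [h1]
  have h2 : ‖(3 / ‖z‖) • (w - z)‖ = 3 * (‖w - z‖ / ‖z‖) := by
    rw [norm_smul, Real.norm_of_nonneg (by positivity)]; ring
  have h3 : ‖(3 / ‖w‖ - 3 / ‖z‖) • w‖ ≤ 3 * (‖w - z‖ / ‖z‖) := by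
    rw [norm_smul, Real.norm_eq_abs]
    have h4 : 3 / ‖w‖ - 3 / ‖z‖ = 3 * (‖z‖ - ‖w‖) / (‖w‖ * ‖z‖) := by
      field_simp
    rw [h4, abs_div, abs_mul, abs_of_pos (show (0 : ℝ) < 3 by norm_num),
      abs_of_pos (mul_pos hw hz)]
    have h5 : |‖z‖ - ‖w‖| ≤ ‖w - z‖ := by
      rw [abs_sub_comm]; exact abs_norm_sub_norm_le w z
    calc 3 * |‖z‖ - ‖w‖| / (‖w‖ * ‖z‖) * ‖w‖ = 3 * (|‖z‖ - ‖w‖| / ‖z‖) := by
          field_simp
      _ ≤ 3 * (‖w - z‖ / ‖z‖) := by gcongr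
  calc _ ≤ ‖(3 / ‖z‖) • (w - z)‖ + ‖(3 / ‖w‖ - 3 / ‖z‖) • w‖ := norm_add_le _ _
    _ ≤ 3 * (‖w - z‖ / ‖z‖) + 3 * (‖w - z‖ / ‖z‖) := by rw [h2]; gcongr
    _ = _ := by ring

/-- asymptotically the identity -/
def AsympId (Φ : ℂ → ℂ) : Prop := ∀ ε : ℝ, 0 < ε → ∃ R : ℝ, ∀ z, R ≤ ‖z‖ → ‖Φ z - z‖ ≤ ε * ‖z‖

theorem asympId_kap {Φ : ℂ → ℂ} (h : AsympId Φ) (ε : ℝ) (hε : 0 < ε) :
    ∃ R : ℝ, ∀ z, R ≤ ‖z‖ → ‖kap (Φ z) - kap z‖ ≤ ε := by
  obtain ⟨R, hR⟩ := h (min (ε / 18) (1 / 2)) (by positivity)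
  refine ⟨max R (max 4 (2 * (1 + 3 / ε))), fun z hz => ?_⟩
  have hzR := hR z ((le_max_left _ _).trans hz)
  have hz4 : 4 ≤ ‖z‖ := (le_max_left _ _).trans ((le_max_right _ _).trans hz)
  have hzε : 2 * (1 + 3 / ε) ≤ ‖z‖ := (le_max_right _ _).trans ((le_max_right _ _).trans hz)
  have h1 : ‖Φ z - z‖ ≤ (ε / 18) * ‖z‖ := hzR.trans (by gcongr; exact min_le_left _ _)
  have h2 : ‖Φ z - z‖ ≤ (1 / 2) * ‖z‖ := hzR.trans (by gcongr; exact min_le_right _ _)
  have h3 : ‖z‖ / 2 ≤ ‖Φ z‖ := by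
    have := norm_sub_norm_le z (Φ z)
    rw [norm_sub_rev] at this
    linarith
  have h3ε : 0 < 3 / ε := by positivity
  have h4 : 2 ≤ ‖Φ z‖ := by linarith
  have h5 : 1 / (‖z‖ - 1) ≤ ε / 3 := by
    rw [div_le_iff₀ (by linarith)]
    have : ε / 3 * (3 / ε) = 1 := by field_simp
    nlinarith
  have h6 : 1 / (‖Φ z‖ - 1) ≤ ε / 3 := by
    rw [div_le_iff₀ (by linarith)]
    have : ε / 3 * (3 / ε) = 1 := by field_simp
    nlinarith
  have h7 := norm_unit_sub (z := z) (w := Φ z) (by linarith) (by linarith)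
  have h8 : 6 * (‖Φ z - z‖ / ‖z‖) ≤ ε / 3 := by
    rw [← mul_div_assoc, div_le_iff₀ (by linarith)]
    linarith
  have e1 := norm_kap_sub (z := z) (by linarith)
  have e2 := norm_kap_sub (z := Φ z) h4
  have h9 : kap (Φ z) - kap z = (kap (Φ z) - (3 / ‖Φ z‖) • Φ z) +
      ((3 / ‖Φ z‖) • Φ z - (3 / ‖z‖) • z) - (kap z - (3 / ‖z‖) • z) := by abel
  rw [h9]
  calc _ ≤ ‖(kap (Φ z) - (3 / ‖Φ z‖) • Φ z) + ((3 / ‖Φ z‖) • Φ z - (3 / ‖z‖) • z)‖ +
        ‖kap z - (3 / ‖z‖) • z‖ := norm_sub_le _ _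
    _ ≤ (‖kap (Φ z) - (3 / ‖Φ z‖) • Φ z‖ + ‖(3 / ‖Φ z‖) • Φ z - (3 / ‖z‖) • z‖) +
        ‖kap z - (3 / ‖z‖) • z‖ := by gcongr; exact norm_add_le _ _
    _ ≤ (ε / 3 + ε / 3) + ε / 3 := by
        rw [e1, e2]
        gcongr
        exact h7.trans h8
    _ = ε := by ring

theorem tendsto_norm_kapInv (v : ℂ) (R : ℝ) (hv : ‖v‖ = 3) :
    ∀ᶠ w in 𝓝 v, ‖w‖ < 3 → R ≤ ‖kapInv w‖ := by
  have hcont : ∀ᶠ w in 𝓝 v, max 2 (3 - 1 / (|R| + 1)) < ‖w‖ := by
    apply continuous_norm.continuousAt.eventually_const_lt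
    beta_reduce
    rw [hv]
    apply max_lt (by norm_num)
    have : 0 < 1 / (|R| + 1) := by positivity
    linarith
  filter_upwards [hcont] with w hw hw3
  have h2 : 2 ≤ ‖w‖ := ((le_max_left _ _).trans_lt hw).le
  have h3 : 3 - 1 / (|R| + 1) < ‖w‖ := (le_max_right _ _).trans_lt hw
  rw [norm_kapInv hw3, df_mul h2]
  have h4 : 3 - ‖w‖ < 1 / (|R| + 1) := by linarith
  have h5 : 0 < 3 - ‖w‖ := by linarith
  have h6 : |R| + 1 < 1 / (3 - ‖w‖) := by
    rw [lt_div_iff₀ h5]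
    calc (|R| + 1) * (3 - ‖w‖) < (|R| + 1) * (1 / (|R| + 1)) := by gcongr
      _ = 1 := by field_simp
  have := le_abs_self R
  linarith

open scoped Classical in
/-- compression of `Φ`, extended by the identity. -/
noncomputable def conn (Φ : ℂ → ℂ) (v : ℂ) : ℂ := if ‖v‖ < 3 then kap (Φ (kapInv v)) else v

theorem conn_of_lt (Φ : ℂ → ℂ) {v : ℂ} (hv : ‖v‖ < 3) : conn Φ v = kap (Φ (kapInv v)) := by
  simp [conn, hv]

theorem conn_of_ge (Φ : ℂ → ℂ) {v : ℂ} (hv : 3 ≤ ‖v‖) : conn Φ v = v := by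
  simp [conn, not_lt.2 hv]

theorem continuous_conn {Φ : ℂ → ℂ} (hc : Continuous Φ) (h : AsympId Φ) : Continuous (conn Φ) := by
  rw [continuous_iff_continuousAt]
  intro v
  rcases lt_trichotomy ‖v‖ 3 with hv | hv | hv
  · have hopen : IsOpen {v : ℂ | ‖v‖ < 3} := isOpen_lt continuous_norm continuous_const
    have h1 : ContinuousOn (fun v => kap (Φ (kapInv v))) {v | ‖v‖ < 3} :=
      continuous_kap.comp_continuousOn (hc.comp_continuousOn continuousOn_kapInv)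
    refine (h1.continuousAt (hopen.mem_nhds hv)).congr ?_
    filter_upwards [hopen.mem_nhds hv] with w hw
    exact (conn_of_lt Φ hw).symm
  · have key : Tendsto (fun w => conn Φ w - w) (𝓝 v) (𝓝 0) := by
      rw [Metric.tendsto_nhds]
      intro ε hε
      obtain ⟨R, hR⟩ := asympId_kap h (ε / 2) (by positivity)
      filter_upwards [tendsto_norm_kapInv v R hv] with w hw
      rw [dist_zero_right]
      rcases lt_or_ge ‖w‖ 3 with h3 | h3
      · rw [conn_of_lt Φ h3]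
        have := hR _ (hw h3)
        rw [kap_kapInv h3] at this
        linarith
      · rw [conn_of_ge Φ h3, sub_self, norm_zero]; exact hε
    have h2 : Tendsto (fun w => (conn Φ w - w) + w) (𝓝 v) (𝓝 (0 + v)) := key.add tendsto_id
    simp only [sub_add_cancel, zero_add] at h2
    rw [ContinuousAt, conn_of_ge Φ hv.ge]
    exact h2
  · have hopen : IsOpen {v : ℂ | 3 < ‖v‖} := isOpen_lt continuous_const continuous_norm
    refine continuousAt_id.congr ?_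
    filter_upwards [hopen.mem_nhds hv] with w hw
    exact (conn_of_ge Φ (le_of_lt hw)).symm

theorem conn_conn {Φ Ψ : ℂ → ℂ} (h : ∀ z, Ψ (Φ z) = z) (v : ℂ) : conn Ψ (conn Φ v) = v := by
  rcases lt_or_ge ‖v‖ 3 with hv | hv
  · rw [conn_of_lt Φ hv, conn_of_lt Ψ (norm_kap_lt _), kapInv_kap, h, kap_kapInv hv]
  · rw [conn_of_ge Φ hv, conn_of_ge Ψ hv]

theorem AsympId.symm {Φ : ℂ ≃ₜ ℂ} (h : AsympId Φ) : AsympId Φ.symm := by
  intro ε hε
  obtain ⟨R, hR⟩ := h (min (ε / 2) (1 / 2)) (by positivity)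
  have h1 : ∀ᶠ w in cocompact ℂ, R ≤ ‖Φ.symm w‖ := by
    have h2 : Tendsto Φ.symm (cocompact ℂ) (cocompact ℂ) :=
      Φ.symm.isClosedEmbedding.tendsto_cocompact
    exact (tendsto_norm_cocompact_atTop.comp h2).eventually (eventually_ge_atTop R)
  obtain ⟨R', hR'⟩ := Metric.closedBall_compl_subset_of_mem_cocompact h1 (0 : ℂ)
  refine ⟨R' + 1, fun w hw => ?_⟩
  have hw' : w ∈ (Metric.closedBall (0 : ℂ) R')ᶜ := by
    rw [mem_compl_iff, mem_closedBall_zero_iff, not_le]; linarith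
  have h3 := hR _ (hR' hw')
  rw [Φ.apply_symm_apply] at h3
  have h4 : ‖w - Φ.symm w‖ ≤ (1 / 2) * ‖Φ.symm w‖ := h3.trans (by gcongr; exact min_le_right _ _)
  have h5 : ‖w - Φ.symm w‖ ≤ (ε / 2) * ‖Φ.symm w‖ := h3.trans (by gcongr; exact min_le_left _ _)
  have h6 : ‖Φ.symm w‖ ≤ 2 * ‖w‖ := by
    have := norm_sub_norm_le (Φ.symm w) w
    rw [norm_sub_rev] at this
    linarith
  rw [norm_sub_rev]
  calc _ ≤ (ε / 2) * ‖Φ.symm w‖ := h5
    _ ≤ (ε / 2) * (2 * ‖w‖) := by gcongr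
    _ = ε * ‖w‖ := by ring

/-- Connell: a homeomorphism of the plane which is asymptotically the identity can be
compressed to a compactly supported one. -/
theorem exists_connell (Φ : ℂ ≃ₜ ℂ) (h : AsympId Φ) :
    ∃ F : ℂ ≃ₜ ℂ, (∀ v, 3 ≤ ‖v‖ → F v = v) ∧ ∀ v, ‖v‖ ≤ 2 → ‖Φ v‖ ≤ 2 → F v = Φ v := by
  refine ⟨⟨⟨conn Φ, conn Φ.symm, ?_, ?_⟩, continuous_conn Φ.continuous h,
    continuous_conn Φ.symm.continuous h.symm⟩, ?_, ?_⟩
  · intro v; exact conn_conn Φ.symm_apply_apply v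
  · intro v; exact conn_conn Φ.apply_symm_apply v
  · intro v hv
    exact conn_of_ge Φ hv
  · intro v hv hv2
    change conn Φ v = Φ v
    rw [conn_of_lt Φ (by linarith), kapInv_eq_self hv, kap_eq_self hv2]

end Pool.Agent.Lib.MP_c6d336_gt
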