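import Mathlib

/-!
# Two dilation-like homeomorphisms which agree on the boundary of a trapping region are conjugate
-/

namespace Pool.Agent.Lib.MP_c6d336_gt

open Set Filter Topology

variable {Y : Type*} [TopologicalSpace Y]

/-- `L` is dilation-like, with trapping region `D`, source `a` and sink `b`. -/
structure Dil (L : Y ≃ₜ Y) (D : Set Y) (a b : Y) : Prop where
  sub : ∀ x ∈ D, L x ∈ interior D
  fix_a : L a = a
  fix_b : L b = b
  a_notMem : a ∉ D
  b_mem : b ∈ D
  b_lim : ∀ U ∈ 𝓝 b, ∃ n : ℕ, ∀ x ∈ D, (L ^ n) x ∈ U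
  a_lim : ∀ U ∈ 𝓝 a, ∃ n : ℕ, ∀ x, x ∉ D → (L⁻¹ ^ n) x ∈ U

/-- the level of a point -/
def Lev (L : Y ≃ₜ Y) (D : Set Y) (n : ℤ) (x : Y) : Prop :=
  (L ^ (-n)) x ∈ D ∧ (L ^ (-(n + 1))) x ∉ D

variable {L L' : Y ≃ₜ Y} {D : Set Y} {a b a' b' : Y}

theorem Dil.pow_mem (h : Dil L D a b) (n : ℕ) {x : Y} (hx : x ∈ D) : (L ^ n) x ∈ D := by
  induction n with
  | zero => simpa using hx
  | succ n ih =>
    rw [pow_succ', Homeomorph.mul_apply]
    exact interior_subset (h.sub _ ih)

theorem Dil.zpow_mem (h : Dil L D a b) {m n : ℤ} (hmn : m ≤ n) {x : Y} (hx : (L ^ (-n)) x ∈ D) :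
    (L ^ (-m)) x ∈ D := by
  obtain ⟨k, hk⟩ := Int.eq_ofNat_of_zero_le (sub_nonneg.2 hmn)
  have h1 : (L ^ (-m)) x = (L ^ k) ((L ^ (-n)) x) := by
    rw [← Homeomorph.mul_apply, ← zpow_natCast, ← zpow_add]
    congr 2
    omega
  rw [h1]
  exact h.pow_mem k hx

theorem fix_zpow {x : Y} (h : L x = x) (n : ℤ) : (L ^ n) x = x := by
  have h1 : ∀ n : ℕ, (L ^ n) x = x := by
    intro n
    induction n with
    | zero => rfl
    | succ n ih => rw [pow_succ', Homeomorph.mul_apply, ih, h]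
  cases n with
  | ofNat n => rw [Int.ofNat_eq_natCast, zpow_natCast]; exact h1 n
  | negSucc n =>
    rw [zpow_negSucc, Homeomorph.inv_apply, Homeomorph.symm_apply_eq]
    exact (h1 _).symm

theorem Dil.lev_unique (h : Dil L D a b) {m n : ℤ} {x : Y} (hm : Lev L D m x) (hn : Lev L D n x) :
    m = n := by
  rcases lt_trichotomy m n with h1 | h1 | h1
  · exact absurd (h.zpow_mem (Int.add_one_le_iff.2 h1) hn.1) hm.2
  · exact h1
  · exact absurd (h.zpow_mem (Int.add_one_le_iff.2 h1) hm.1) hn.2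

theorem Dil.exists_lev [T1Space Y] (h : Dil L D a b) {x : Y} (ha : x ≠ a) (hb : x ≠ b) :
    ∃ n : ℤ, Lev L D n x := by
  obtain ⟨k, hk⟩ := h.a_lim {x}ᶜ (isOpen_compl_singleton.mem_nhds (by simpa using ha.symm))
  obtain ⟨m, hm⟩ := h.b_lim {x}ᶜ (isOpen_compl_singleton.mem_nhds (by simpa using hb.symm))
  have hk' : (L ^ (-(-(k : ℤ)))) x ∈ D := by
    by_contra hc
    rw [neg_neg, zpow_natCast] at hc
    have := hk _ hc
    rw [← Homeomorph.mul_apply, inv_pow, inv_mul_cancel] at this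
    exact this rfl
  have hm' : ∀ z : ℤ, (L ^ (-z)) x ∈ D → z ≤ m := by
    intro z hz
    by_contra hc
    push Not at hc
    have h1 := h.zpow_mem hc.le hz
    have := hm _ h1
    rw [← Homeomorph.mul_apply, ← zpow_natCast, ← zpow_add, add_neg_cancel, zpow_zero] at this
    exact this rfl
  obtain ⟨n, hn1, hn2⟩ := Int.exists_greatest_of_bdd (P := fun z => (L ^ (-z)) x ∈ D)
    ⟨m, hm'⟩ ⟨_, hk'⟩
  refine ⟨n, hn1, fun hc => ?_⟩
  have := hn2 _ hc
  omega

open scoped Classical in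
/-- the conjugating map -/
noncomputable def psi (L L' : Y ≃ₜ Y) (D : Set Y) (b a' b' : Y) (x : Y) : Y :=
  if h : ∃ n : ℤ, Lev L D n x then (L' ^ h.choose) ((L ^ (-h.choose)) x)
  else if x = b then b' else a'

theorem Dil.psi_of_lev (h : Dil L D a b) {n : ℤ} {x : Y} (hx : Lev L D n x) :
    psi L L' D b a' b' x = (L' ^ n) ((L ^ (-n)) x) := by
  have hex : ∃ n : ℤ, Lev L D n x := ⟨n, hx⟩
  have : hex.choose = n := h.lev_unique hex.choose_spec hx
  rw [psi, dif_pos hex, this]

theorem Dil.not_lev_a (h : Dil L D a b) : ¬ ∃ n : ℤ, Lev L D n a := by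
  rintro ⟨n, hn, -⟩
  rw [fix_zpow h.fix_a] at hn
  exact h.a_notMem hn

theorem Dil.not_lev_b (h : Dil L D a b) : ¬ ∃ n : ℤ, Lev L D n b := by
  rintro ⟨n, -, hn⟩
  rw [fix_zpow h.fix_b] at hn
  exact hn h.b_mem

theorem Dil.ne (h : Dil L D a b) : a ≠ b := fun hab => h.a_notMem (hab ▸ h.b_mem)

theorem Dil.psi_a (h : Dil L D a b) : psi L L' D b a' b' a = a' := by
  rw [psi, dif_neg h.not_lev_a, if_neg h.ne]

theorem Dil.psi_b (h : Dil L D a b) : psi L L' D b a' b' b = b' := by
  rw [psi, dif_neg h.not_lev_b, if_pos rfl]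

theorem lev_psi (h : Dil L D a b) (himg : ∀ x, L.symm x ∈ D ↔ L'.symm x ∈ D) {n : ℤ} {x : Y}
    (hx : Lev L D n x) : Lev L' D n (psi L L' D b a' b' x) := by
  rw [h.psi_of_lev hx]
  have h1 : (L' ^ (-n)) ((L' ^ n) ((L ^ (-n)) x)) = (L ^ (-n)) x := by
    rw [← Homeomorph.mul_apply, ← zpow_add, neg_add_cancel, zpow_zero]; rfl
  refine ⟨by rw [h1]; exact hx.1, ?_⟩
  have h2 : (L' ^ (-(n + 1))) ((L' ^ n) ((L ^ (-n)) x)) = L'.symm ((L ^ (-n)) x) := by
    rw [show -(n + 1) = -1 + -n by ring, zpow_add, Homeomorph.mul_apply, h1]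
    simp
  rw [h2, ← himg]
  have h3 : L.symm ((L ^ (-n)) x) = (L ^ (-(n + 1))) x := by
    rw [show -(n + 1) = -1 + -n by ring, zpow_add, Homeomorph.mul_apply]
    simp
  rw [h3]
  exact hx.2

theorem psi_psi [T1Space Y] (h : Dil L D a b) (h' : Dil L' D a' b')
    (himg : ∀ x, L.symm x ∈ D ↔ L'.symm x ∈ D) (x : Y) :
    psi L' L D b' a b (psi L L' D b a' b' x) = x := by
  by_cases ha : x = a
  · rw [ha, h.psi_a, h'.psi_a]
  by_cases hb : x = b
  · rw [hb, h.psi_b, h'.psi_b]
  obtain ⟨n, hn⟩ := h.exists_lev ha hb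
  rw [h'.psi_of_lev (lev_psi h himg hn), h.psi_of_lev hn, ← Homeomorph.mul_apply (L' ^ (-n)),
    ← zpow_add, neg_add_cancel, zpow_zero, Homeomorph.one_apply, ← Homeomorph.mul_apply,
    ← zpow_add, add_neg_cancel, zpow_zero, Homeomorph.one_apply]

theorem lev_apply {n : ℤ} {x : Y} (hx : Lev L D n x) : Lev L D (n + 1) (L x) := by
  have h1 : ∀ k : ℤ, (L ^ (-(k + 1))) (L x) = (L ^ (-k)) x := by
    intro k
    have : (L ^ (-(k + 1))) (L x) = (L ^ (-(k + 1)) * L ^ (1 : ℤ)) x := by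
      rw [Homeomorph.mul_apply, zpow_one]
    rw [this, ← zpow_add]
    congr 2
    ring
  exact ⟨by rw [h1]; exact hx.1, by rw [h1]; exact hx.2⟩

theorem psi_comm [T1Space Y] (h : Dil L D a b) (h' : Dil L' D a' b') (x : Y) :
    psi L L' D b a' b' (L x) = L' (psi L L' D b a' b' x) := by
  by_cases ha : x = a
  · rw [ha, h.fix_a, h.psi_a, h'.fix_a]
  by_cases hb : x = b
  · rw [hb, h.fix_b, h.psi_b, h'.fix_b]
  obtain ⟨n, hn⟩ := h.exists_lev ha hb
  rw [h.psi_of_lev (lev_apply hn), h.psi_of_lev hn]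
  have h1 : (L ^ (-(n + 1))) (L x) = (L ^ (-n)) x := by
    have : (L ^ (-(n + 1))) (L x) = (L ^ (-(n + 1)) * L ^ (1 : ℤ)) x := by
      rw [Homeomorph.mul_apply, zpow_one]
    rw [this, ← zpow_add]
    congr 2
    ring
  rw [h1, add_comm, zpow_add, Homeomorph.mul_apply, zpow_one]

theorem psi_comm_zpow [T1Space Y] (h : Dil L D a b) (h' : Dil L' D a' b') (n : ℤ) (x : Y) :
    psi L L' D b a' b' ((L ^ n) x) = (L' ^ n) (psi L L' D b a' b' x) := by
  have h1 : ∀ (n : ℕ) (x : Y), psi L L' D b a' b' ((L ^ n) x) =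
      (L' ^ n) (psi L L' D b a' b' x) := by
    intro n
    induction n with
    | zero => intro x; rfl
    | succ n ih =>
      intro x
      rw [pow_succ', Homeomorph.mul_apply, psi_comm h h', ih, pow_succ', Homeomorph.mul_apply]
  cases n with
  | ofNat n => rw [Int.ofNat_eq_natCast, zpow_natCast, zpow_natCast]; exact h1 n x
  | negSucc n =>
    rw [zpow_negSucc, zpow_negSucc, Homeomorph.inv_apply, Homeomorph.inv_apply, eq_comm,
      Homeomorph.symm_apply_eq, ← h1, Homeomorph.apply_symm_apply]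

theorem continuous_psi [T1Space Y] (hD : IsClosed D) (h : Dil L D a b) (h' : Dil L' D a' b')
    (himg : ∀ x, L.symm x ∈ D ↔ L'.symm x ∈ D) (hfr : ∀ x ∈ frontier D, L x = L' x) :
    Continuous (psi L L' D b a' b') := by
  set ψ := psi L L' D b a' b' with hψ
  rw [continuous_iff_continuousAt]
  intro x
  by_cases ha : x = a
  · subst ha
    rw [ContinuousAt, hψ, h.psi_a]
    intro U hU
    obtain ⟨n, hn⟩ := h'.a_lim U hU
    have h1 : ∀ᶠ z in 𝓝 x, (L ^ n) z ∈ Dᶜ := by
      apply (L ^ n).continuous.continuousAt.eventually_mem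
      apply hD.isOpen_compl.mem_nhds
      have := fix_zpow h.fix_a n
      rw [zpow_natCast] at this
      rw [this]; exact h.a_notMem
    change ∀ᶠ z in 𝓝 x, psi L L' D b a' b' z ∈ U
    filter_upwards [h1] with z hz
    by_cases hza : z = x
    · rw [hza]; change psi L L' D b a' b' x ∈ U; rw [h.psi_a]; exact mem_of_mem_nhds hU
    have hzb : z ≠ b := by
      intro hzb
      have := fix_zpow h.fix_b n
      rw [zpow_natCast] at this
      rw [hzb, this] at hz
      exact hz h.b_mem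
    obtain ⟨m, hm⟩ := h.exists_lev hza hzb
    have hmn : m + 1 ≤ -n := by
      by_contra hc
      push Not at hc
      have h2 : -(n : ℤ) ≤ m := by omega
      have := h.zpow_mem h2 hm.1
      rw [neg_neg, zpow_natCast] at this
      exact hz this
    have hl := lev_psi (a' := a') (b' := b') h himg hm
    change ψ z ∈ U
    have h3 : (L' ^ n) (ψ z) ∉ D := by
      intro hc
      apply hl.2
      apply h'.zpow_mem hmn
      rw [neg_neg, zpow_natCast]
      exact hc
    have := hn _ h3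
    rwa [inv_pow, ← Homeomorph.mul_apply, inv_mul_cancel, Homeomorph.one_apply] at this
  by_cases hb : x = b
  · subst hb
    rw [ContinuousAt, hψ, h.psi_b]
    intro U hU
    obtain ⟨n, hn⟩ := h'.b_lim U hU
    have h1 : ∀ᶠ z in 𝓝 x, (L ^ (-(n : ℤ))) z ∈ interior D := by
      apply (L ^ (-(n : ℤ))).continuous.continuousAt.eventually_mem
      apply isOpen_interior.mem_nhds
      rw [fix_zpow h.fix_b]
      have := h.sub x h.b_mem
      rwa [h.fix_b] at this
    change ∀ᶠ z in 𝓝 x, psi L L' D x a' b' z ∈ U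
    filter_upwards [h1] with z hz
    have hz' := interior_subset hz
    by_cases hzb : z = x
    · rw [hzb]; change psi L L' D x a' b' x ∈ U; rw [h.psi_b]; exact mem_of_mem_nhds hU
    have hza : z ≠ a := by
      intro hza
      rw [hza, fix_zpow h.fix_a] at hz'
      exact h.a_notMem hz'
    obtain ⟨m, hm⟩ := h.exists_lev hza hzb
    have hmn : (n : ℤ) ≤ m := by
      by_contra hc
      push Not at hc
      exact hm.2 (h.zpow_mem (by omega) hz')
    have hl := lev_psi (a' := a') (b' := b') h himg hm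
    change ψ z ∈ U
    have h3 : (L' ^ (-(n : ℤ))) (ψ z) ∈ D := h'.zpow_mem hmn hl.1
    have := hn _ h3
    rwa [← zpow_natCast, ← Homeomorph.mul_apply, ← zpow_add, add_neg_cancel, zpow_zero,
      Homeomorph.one_apply] at this
  obtain ⟨n, hn⟩ := h.exists_lev ha hb
  -- reduce to level zero
  have key : ∀ y : Y, y ∈ D → L.symm y ∉ D → ContinuousAt ψ y := by
    intro y hy hy'
    have lev0 : ∀ z, z ∈ D → L.symm z ∉ D → ψ z = z := by
      intro z hz hz'
      have : Lev L D 0 z := ⟨by simpa using hz, by simpa using hz'⟩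
      rw [hψ, h.psi_of_lev this]; simp
    have lev1 : ∀ z, z ∉ D → L z ∈ D → ψ z = L'.symm (L z) := by
      intro z hz hz'
      have : Lev L D (-1) z := ⟨by simpa using hz', by simpa using hz⟩
      rw [hψ, h.psi_of_lev this]; simp
    rw [ContinuousAt, lev0 y hy hy']
    intro U hU
    have e1 : ∀ᶠ z in 𝓝 y, L z ∈ interior D :=
      L.continuous.continuousAt.eventually_mem (isOpen_interior.mem_nhds (h.sub y hy))
    have e2 : ∀ᶠ z in 𝓝 y, L.symm z ∈ Dᶜ :=
      L.symm.continuous.continuousAt.eventually_mem (hD.isOpen_compl.mem_nhds hy')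
    have e3 : ∀ᶠ z in 𝓝 y, z ∉ D → L'.symm (L z) ∈ U := by
      by_cases hyf : y ∈ frontier D
      · have h3 : L'.symm (L y) = y := by rw [L'.symm_apply_eq, hfr y hyf]
        have h4 : ContinuousAt (fun z => L'.symm (L z)) y :=
          (L'.symm.continuous.comp L.continuous).continuousAt
        have h5 : ∀ᶠ z in 𝓝 y, L'.symm (L z) ∈ U := by
          apply h4
          change U ∈ 𝓝 (L'.symm (L y))
          rw [h3]; exact hU
        filter_upwards [h5] with z hz _ using hz
      · have h3 : y ∈ interior D := by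
          rw [hD.frontier_eq] at hyf
          by_contra hc
          exact hyf ⟨hy, hc⟩
        filter_upwards [isOpen_interior.mem_nhds h3] with z hz hz'
        exact absurd (interior_subset hz) hz'
    change ∀ᶠ z in 𝓝 y, ψ z ∈ U
    filter_upwards [e1, e2, e3, hU] with z h1 h2 h3 h4
    change ψ z ∈ U
    by_cases hz : z ∈ D
    · rw [lev0 z hz h2]; exact h4
    · rw [lev1 z hz (interior_subset h1)]; exact h3 hz
  have h1 : ψ = fun z => (L' ^ n) (ψ ((L ^ (-n)) z)) := by
    funext z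
    rw [hψ, ← psi_comm_zpow h h', ← Homeomorph.mul_apply, ← zpow_add, add_neg_cancel, zpow_zero,
      Homeomorph.one_apply]
  rw [h1]
  apply (L' ^ n).continuous.continuousAt.comp
  change ContinuousAt (ψ ∘ fun z => (L ^ (-n)) z) x
  apply ContinuousAt.comp (f := fun z => (L ^ (-n)) z)
  · apply key _ hn.1
    have h3 : L.symm ((L ^ (-n)) x) = (L ^ (-(n + 1))) x := by
      rw [show -(n + 1) = -1 + -n by ring, zpow_add, Homeomorph.mul_apply]
      simp
    rw [h3]
    exact hn.2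
  · exact (L ^ (-n)).continuous.continuousAt

/-- Dilation-like homeomorphisms agreeing on the frontier of a common trapping region, with the
same image of the region, are conjugate. -/
theorem exists_conj [T1Space Y] (hD : IsClosed D) (h : Dil L D a b) (h' : Dil L' D a' b')
    (himg : ∀ x, L.symm x ∈ D ↔ L'.symm x ∈ D) (hfr : ∀ x ∈ frontier D, L x = L' x) :
    ∃ ψ : Y ≃ₜ Y, L = ψ * L' * ψ⁻¹ := by
  let ψ : Y ≃ₜ Y :=
    ⟨⟨psi L' L D b' a b, psi L L' D b a' b', psi_psi h' h fun x => (himg x).symm, psi_psi h h' himg⟩,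
      continuous_psi hD h' h (fun x => (himg x).symm) (fun x hx => (hfr x hx).symm),
      continuous_psi hD h h' himg hfr⟩
  refine ⟨ψ, ?_⟩
  ext x
  simp only [Homeomorph.mul_apply, Homeomorph.inv_apply]
  change L x = psi L' L D b' a b (L' (psi L L' D b a' b' x))
  rw [psi_comm h' h, psi_psi h h' himg]

end Pool.Agent.Lib.MP_c6d336_gt
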