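import Pool.Agent.Lib.MP_c6d336_gt.Germ
import Pool.Agent.Lib.MP_c6d336_gt.Dilation

/-!
# The key lemma: products of suitable conjugates are dilations
-/

namespace Pool.Agent.Lib.MP_c6d336_gt

open Set Filter Topology NNReal OnePoint

/-- scaling of the sphere -/
noncomputable def scal (t : ℝ) (ht : 0 < t) : X ≃ₜ X :=
  ext (Homeomorph.mulLeft₀ (t : ℂ) (by exact_mod_cast ht.ne'))

@[simp] theorem scal_coe (t : ℝ) (ht : 0 < t) (z : ℂ) : scal t ht (z : X) = ((t * z : ℂ) : X) := rfl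
@[simp] theorem scal_infty (t : ℝ) (ht : 0 < t) : scal t ht ∞ = ∞ := rfl

theorem scal_inv (t : ℝ) (ht : 0 < t) : (scal t ht)⁻¹ = scal t⁻¹ (inv_pos.2 ht) := by
  rw [inv_eq_iff_mul_eq_one]
  ext x
  have : (t : ℂ) ≠ 0 := by exact_mod_cast ht.ne'
  induction x using OnePoint.rec with
  | infty => rfl
  | coe z =>
    simp only [Homeomorph.mul_apply, scal_coe, Homeomorph.one_apply]
    congr 1
    push_cast
    field_simp

/-- coordinate of a point -/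
noncomputable def toC : X → ℂ
  | ∞ => 0
  | (z : ℂ) => z

@[simp] theorem toC_coe (z : ℂ) : toC (z : X) = z := rfl

theorem continuousAt_toC {x : X} (hx : x ≠ ∞) : ContinuousAt toC x := by
  induction x using OnePoint.rec with
  | infty => exact absurd rfl hx
  | coe z =>
    rw [continuousAt_coe]
    exact continuousAt_id

theorem iterate_bound {T : ℂ → ℂ} {ρ : ℝ} {v : ℂ} (h1 : ∀ w, ‖w‖ ≤ ρ → ‖T w‖ ≤ ρ)
    (h2 : ∀ w, ‖w‖ ≤ ρ → ‖T w - v‖ ≤ (1 / 2) * ‖w - v‖) (n : ℕ) (w : ℂ) (hw : ‖w‖ ≤ ρ) :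
    ‖T^[n] w‖ ≤ ρ ∧ ‖T^[n] w - v‖ ≤ (1 / 2) ^ n * ‖w - v‖ := by
  induction n with
  | zero => simpa using hw
  | succ n ih =>
    rw [Function.iterate_succ_apply']
    refine ⟨h1 _ ih.1, (h2 _ ih.1).trans ?_⟩
    rw [pow_succ]
    nlinarith [ih.2]

theorem iterate_lim {T : ℂ → ℂ} {ρ : ℝ} {v : ℂ} (hv : ‖v‖ ≤ ρ) (h1 : ∀ w, ‖w‖ ≤ ρ → ‖T w‖ ≤ ρ)
    (h2 : ∀ w, ‖w‖ ≤ ρ → ‖T w - v‖ ≤ (1 / 2) * ‖w - v‖) {ε : ℝ} (hε : 0 < ε) :
    ∃ n : ℕ, ∀ w, ‖w‖ ≤ ρ → ‖T^[n] w - v‖ < ε := by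
  have hρ : 0 ≤ ρ := (norm_nonneg _).trans hv
  obtain ⟨n, hn⟩ := exists_pow_lt_of_lt_one (show 0 < ε / (2 * ρ + 1) by positivity)
    (show (1 / 2 : ℝ) < 1 by norm_num)
  refine ⟨n, fun w hw => ((iterate_bound h1 h2 n w hw).2).trans_lt ?_⟩
  have h3 : ‖w - v‖ ≤ 2 * ρ := by
    have := norm_sub_le w v
    linarith
  rw [lt_div_iff₀ (by positivity)] at hn
  have h4 : (0 : ℝ) < (1 / 2) ^ n := by positivity
  calc (1 / 2) ^ n * ‖w - v‖ ≤ (1 / 2) ^ n * (2 * ρ) := by gcongr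
    _ ≤ (1 / 2) ^ n * (2 * ρ + 1) := by gcongr; linarith
    _ < ε := hn

section

variable (δ : ℝ)

/-- the trapping region -/
def DD : Set X := (((↑) : ℂ → X) '' Metric.ball 0 δ)ᶜ
/-- the disc around zero -/
def EE : Set X := ((↑) : ℂ → X) '' Metric.closedBall 0 δ⁻¹
/-- the disc around infinity -/
def D1 : Set X := (((↑) : ℂ → X) '' Metric.ball 0 (δ ^ 3)⁻¹)ᶜ

variable {δ}

theorem coe_mem_DD {z : ℂ} : (z : X) ∈ DD δ ↔ δ ≤ ‖z‖ := by
  simp only [DD, mem_compl_iff, mem_image, mem_ball_zero_iff, coe_eq_coe, exists_eq_right, not_lt]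

theorem infty_mem_DD : (∞ : X) ∈ DD δ := by
  simp [DD]

theorem coe_mem_D1 {z : ℂ} : (z : X) ∈ D1 δ ↔ (δ ^ 3)⁻¹ ≤ ‖z‖ := by
  simp only [D1, mem_compl_iff, mem_image, mem_ball_zero_iff, coe_eq_coe, exists_eq_right, not_lt]

theorem infty_mem_D1 : (∞ : X) ∈ D1 δ := by
  simp [D1]

theorem coe_mem_EE {z : ℂ} : (z : X) ∈ EE δ ↔ ‖z‖ ≤ δ⁻¹ := by
  simp only [EE, mem_image, mem_closedBall_zero_iff, coe_eq_coe, exists_eq_right]

theorem infty_notMem_EE : (∞ : X) ∉ EE δ := by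
  simp [EE]

theorem isClosed_DD : IsClosed (DD δ) :=
  (isOpenMap_coe _ Metric.isOpen_ball).isClosed_compl

theorem mem_interior_DD {x : X} (hx : x ∉ ((↑) : ℂ → X) '' Metric.closedBall 0 δ) :
    x ∈ interior (DD δ) := by
  have hopen : IsOpen (((↑) : ℂ → X) '' Metric.closedBall 0 δ)ᶜ :=
    ((isCompact_closedBall (0 : ℂ) δ).image OnePoint.continuous_coe).isClosed.isOpen_compl
  refine interior_maximal ?_ hopen hx
  apply compl_subset_compl.2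
  apply image_mono
  exact Metric.ball_subset_closedBall

theorem mem_frontier_DD {x : X} (hx : x ∈ frontier (DD δ)) : ∃ z : ℂ, x = z ∧ ‖z‖ = δ := by
  rw [isClosed_DD.frontier_eq] at hx
  have h1 : x ∈ ((↑) : ℂ → X) '' Metric.closedBall 0 δ := by
    by_contra h
    exact hx.2 (mem_interior_DD h)
  obtain ⟨z, hz, rfl⟩ := h1
  refine ⟨z, rfl, le_antisymm (by simpa using hz) (coe_mem_DD.1 hx.1)⟩

theorem lt_inv_cube (h0 : 0 < δ) (h1 : δ < 1) : δ⁻¹ < (δ ^ 3)⁻¹ := by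
  rw [inv_lt_inv₀ h0 (by positivity)]
  calc δ ^ 3 < δ ^ 1 := pow_lt_pow_right_of_lt_one₀ h0 h1 (by norm_num)
    _ = δ := pow_one δ

theorem lt_inv' (h0 : 0 < δ) (h1 : δ < 1) : δ < δ⁻¹ := by
  have : 1 < δ⁻¹ := (one_lt_inv₀ h0).2 h1
  linarith

theorem D1_sub (h0 : 0 < δ) (h1 : δ < 1) {x : X} (hx : x ∈ D1 δ) : x ∈ interior (DD δ) := by
  apply mem_interior_DD
  rintro ⟨z, hz, rfl⟩
  rw [coe_mem_D1] at hx
  rw [mem_closedBall_zero_iff] at hz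
  have := lt_inv_cube h0 h1
  have := lt_inv' h0 h1
  linarith

end

/-- `B` is inversion on the disc of radius `δ`. -/
def InvOn (δ : ℝ) (B : X ≃ₜ X) : Prop := ∀ z : ℂ, ‖z‖ ≤ δ → B z = inv z

theorem InvOn.mem_EE_iff {δ : ℝ} (hδ : 0 < δ) {B : X ≃ₜ X} (hB : InvOn δ B) (x : X) :
    B x ∈ EE δ ↔ x ∈ DD δ := by
  constructor
  · intro h
    by_contra hx
    simp only [DD, mem_compl_iff, not_not] at hx
    obtain ⟨z, hz, rfl⟩ := hx
    rw [mem_ball_zero_iff] at hz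
    rw [hB z hz.le] at h
    by_cases hz0 : z = 0
    · subst hz0; rw [inv_zero'] at h; exact infty_notMem_EE h
    · rw [inv_coe hz0, coe_mem_EE, norm_inv, inv_le_inv₀ (norm_pos_iff.2 hz0) hδ] at h
      linarith
  · intro h
    by_contra hx
    have h1 : ∃ v : ℂ, inv (B x) = v ∧ ‖v‖ < δ := by
      generalize B x = y at hx ⊢
      induction y using OnePoint.rec with
      | infty => exact ⟨0, inv_infty, by simpa using hδ⟩
      | coe z =>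
        rw [coe_mem_EE, not_le] at hx
        have hz0 : z ≠ 0 := by
          intro h0
          rw [h0, norm_zero] at hx
          have : 0 < δ⁻¹ := inv_pos.2 hδ
          linarith
        refine ⟨z⁻¹, inv_coe hz0, ?_⟩
        rw [norm_inv]
        exact inv_lt_of_inv_lt₀ hδ hx
    obtain ⟨v, hv, hvδ⟩ := h1
    have h2 : B v = B x := by
      rw [hB v hvδ.le, ← hv, inv_inv']
    have h3 := B.injective h2
    rw [← h3, coe_mem_DD] at h
    linarith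

/-- the rescaled homeomorphism -/
noncomputable def resc (δ : ℝ) (hδ : 0 < δ) (A : X ≃ₜ X) : X ≃ₜ X :=
  scal (δ ^ 2)⁻¹ (by positivity) * A * scal (δ ^ 2) (by positivity)

/-- the model dilation -/
noncomputable def Lam (δ : ℝ) (hδ : 0 < δ) : X ≃ₜ X := scal (δ ^ 4)⁻¹ (by positivity)

theorem resc_coe {δ : ℝ} (hδ : 0 < δ) {A : X ≃ₜ X} (hA : InvOn δ A) {z : ℂ} (hz : ‖z‖ ≤ δ⁻¹)
    (hz0 : z ≠ 0) : resc δ hδ A z = ((((δ : ℂ) ^ 4)⁻¹ * z⁻¹ : ℂ) : X) := by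
  have hδc : (δ : ℂ) ≠ 0 := by exact_mod_cast hδ.ne'
  simp only [resc, Homeomorph.mul_apply, scal_coe]
  have h1 : ‖((δ ^ 2 : ℝ) : ℂ) * z‖ ≤ δ := by
    rw [norm_mul, Complex.norm_real, Real.norm_of_nonneg (by positivity)]
    calc δ ^ 2 * ‖z‖ ≤ δ ^ 2 * δ⁻¹ := by gcongr
      _ = δ := by field_simp
  have h2 : ((δ ^ 2 : ℝ) : ℂ) * z ≠ 0 := mul_ne_zero (by exact_mod_cast (pow_pos hδ 2).ne') hz0
  rw [hA _ h1, inv_coe h2, scal_coe]
  congr 1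
  push_cast
  field_simp

theorem resc_zero {δ : ℝ} (hδ : 0 < δ) {A : X ≃ₜ X} (hA : InvOn δ A) :
    resc δ hδ A ((0 : ℂ) : X) = ∞ := by
  simp only [resc, Homeomorph.mul_apply, scal_coe, mul_zero]
  rw [hA 0 (by simpa using hδ.le), inv_zero', scal_infty]

theorem resc_mem_D1_iff {δ : ℝ} (hδ : 0 < δ) {A : X ≃ₜ X} (hA : InvOn δ A) (x : X) :
    resc δ hδ A x ∈ D1 δ ↔ x ∈ EE δ := by
  have hδc : (δ : ℂ) ≠ 0 := by exact_mod_cast hδ.ne'
  have fwd : ∀ z : ℂ, ‖z‖ ≤ δ⁻¹ → resc δ hδ A z ∈ D1 δ := by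
    intro z hz
    by_cases hz0 : z = 0
    · subst hz0; rw [resc_zero hδ hA]; exact infty_mem_D1
    · rw [resc_coe hδ hA hz hz0, coe_mem_D1, norm_mul, norm_inv, norm_inv, norm_pow,
        Complex.norm_real, Real.norm_of_nonneg hδ.le]
      have h1 : δ ≤ ‖z‖⁻¹ := by
        rw [le_inv_comm₀ hδ (norm_pos_iff.2 hz0)]; exact hz
      calc (δ ^ 3)⁻¹ = (δ ^ 4)⁻¹ * δ := by field_simp
        _ ≤ (δ ^ 4)⁻¹ * ‖z‖⁻¹ := by gcongr
  constructor
  · intro h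
    have key : ∀ y : X, y ∈ D1 δ → ∃ z : ℂ, ‖z‖ ≤ δ⁻¹ ∧ resc δ hδ A z = y := by
      intro y hy
      induction y using OnePoint.rec with
      | infty => exact ⟨0, by simpa using hδ.le, resc_zero hδ hA⟩
      | coe w =>
        rw [coe_mem_D1] at hy
        have hw0 : w ≠ 0 := by
          intro h0
          rw [h0, norm_zero] at hy
          have : 0 < (δ ^ 3)⁻¹ := by positivity
          linarith
        refine ⟨((δ : ℂ) ^ 4)⁻¹ * w⁻¹, ?_, ?_⟩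
        · rw [norm_mul, norm_inv, norm_inv, norm_pow, Complex.norm_real,
            Real.norm_of_nonneg hδ.le]
          have h1 : ‖w‖⁻¹ ≤ δ ^ 3 := by
            rw [inv_le_comm₀ (norm_pos_iff.2 hw0) (by positivity)]; exact hy
          calc (δ ^ 4)⁻¹ * ‖w‖⁻¹ ≤ (δ ^ 4)⁻¹ * δ ^ 3 := by gcongr
            _ = δ⁻¹ := by field_simp
        · have h2 : ‖((δ : ℂ) ^ 4)⁻¹ * w⁻¹‖ ≤ δ⁻¹ := by
            rw [norm_mul, norm_inv, norm_inv, norm_pow, Complex.norm_real,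
              Real.norm_of_nonneg hδ.le]
            have h1 : ‖w‖⁻¹ ≤ δ ^ 3 := by
              rw [inv_le_comm₀ (norm_pos_iff.2 hw0) (by positivity)]; exact hy
            calc (δ ^ 4)⁻¹ * ‖w‖⁻¹ ≤ (δ ^ 4)⁻¹ * δ ^ 3 := by gcongr
              _ = δ⁻¹ := by field_simp
          rw [resc_coe hδ hA h2 (mul_ne_zero (inv_ne_zero (pow_ne_zero 4 hδc)) (inv_ne_zero hw0))]
          congr 1
          field_simp
    obtain ⟨z, hz, hzx⟩ := key _ h
    have := (resc δ hδ A).injective hzx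
    rw [← this, coe_mem_EE]; exact hz
  · rintro ⟨z, hz, rfl⟩
    rw [mem_closedBall_zero_iff] at hz
    exact fwd z hz

end Pool.Agent.Lib.MP_c6d336_gt
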