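import Pool.Agent.Lib.MP_c6d336_gt.Core

/-!
# The key lemma, second part
-/

namespace Pool.Agent.Lib.MP_c6d336_gt

open Set Filter Topology NNReal OnePoint

theorem Lam_pow_coe {δ : ℝ} (hδ : 0 < δ) (n : ℕ) (z : ℂ) :
    (Lam δ hδ ^ n) (z : X) = (((((δ ^ 4)⁻¹ : ℝ) : ℂ) ^ n * z : ℂ) : X) := by
  induction n with
  | zero => simp
  | succ n ih =>
    rw [pow_succ', Homeomorph.mul_apply, ih, Lam, scal_coe]
    congr 1
    ring

theorem Lam_inv_pow_coe {δ : ℝ} (hδ : 0 < δ) (n : ℕ) (z : ℂ) :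
    ((Lam δ hδ)⁻¹ ^ n) (z : X) = (((((δ ^ 4 : ℝ)) : ℂ) ^ n * z : ℂ) : X) := by
  have h : (Lam δ hδ)⁻¹ = scal (δ ^ 4) (by positivity) := by
    rw [Lam, scal_inv]
    congr 1
    exact inv_inv _
  rw [h]
  induction n with
  | zero => simp
  | succ n ih =>
    rw [pow_succ', Homeomorph.mul_apply, ih, scal_coe]
    congr 1
    ring

theorem Lam_symm_coe {δ : ℝ} (hδ : 0 < δ) (z : ℂ) :
    (Lam δ hδ).symm (z : X) = (((δ ^ 4 : ℝ) * z : ℂ) : X) := by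
  have := Lam_inv_pow_coe hδ 1 z
  rw [pow_one, pow_one, Homeomorph.inv_apply] at this
  exact this

theorem Lam_symm_mem_iff {δ : ℝ} (hδ : 0 < δ) (x : X) : (Lam δ hδ).symm x ∈ DD δ ↔ x ∈ D1 δ := by
  induction x using OnePoint.rec with
  | infty =>
    have : (Lam δ hδ).symm ∞ = ∞ := by rw [Homeomorph.symm_apply_eq]; rfl
    rw [this]
    exact ⟨fun _ => infty_mem_D1, fun _ => infty_mem_DD⟩
  | coe z =>
    rw [Lam_symm_coe, coe_mem_DD, coe_mem_D1, norm_mul, Complex.norm_real,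
      Real.norm_of_nonneg (by positivity), inv_le_iff_one_le_mul₀ (by positivity)]
    constructor
    · intro h
      have : δ * 1 ≤ δ * (‖z‖ * δ ^ 3) := by linarith
      exact le_of_mul_le_mul_left this hδ
    · intro h
      have : δ * 1 ≤ δ * (‖z‖ * δ ^ 3) := by gcongr
      linarith

theorem dil_Lam {δ : ℝ} (hδ : 0 < δ) (hδ1 : δ < 1) :
    Dil (Lam δ hδ) (DD δ) ((0 : ℂ) : X) ∞ := by
  have hk : 1 < (δ ^ 4)⁻¹ := (one_lt_inv₀ (by positivity)).2 (pow_lt_one₀ hδ.le hδ1 (by norm_num))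
  refine ⟨?_, ?_, rfl, ?_, infty_mem_DD, ?_, ?_⟩
  · intro x hx
    apply D1_sub hδ hδ1
    rw [← Lam_symm_mem_iff hδ, Homeomorph.symm_apply_apply]
    exact hx
  · simp [Lam]
  · rw [coe_mem_DD, norm_zero, not_le]; exact hδ
  · intro U hU
    obtain ⟨h0, R, hR, hR'⟩ := exists_of_eventually_infty (P := fun x => x ∈ U) hU
    obtain ⟨n, hn⟩ := pow_unbounded_of_one_lt (R / δ) hk
    refine ⟨n, fun x hx => ?_⟩
    induction x using OnePoint.rec with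
    | infty =>
      have : ∀ n : ℕ, (Lam δ hδ ^ n) ∞ = ∞ := by
        intro n
        induction n with
        | zero => rfl
        | succ n ih => rw [pow_succ', Homeomorph.mul_apply, ih]; rfl
      rw [this]; exact h0
    | coe z =>
      rw [coe_mem_DD] at hx
      rw [Lam_pow_coe]
      apply hR'
      rw [norm_mul, norm_pow, Complex.norm_real, Real.norm_of_nonneg (by positivity)]
      rw [div_lt_iff₀ hδ] at hn
      calc R ≤ ((δ ^ 4)⁻¹) ^ n * δ := hn.le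
        _ ≤ _ := by gcongr
  · intro U hU
    have h1 : ∀ᶠ z : ℂ in 𝓝 0, (z : X) ∈ U :=
      (nhds_coe_iff (P := fun x => x ∈ U) (a := 0)).1 hU
    obtain ⟨ε, hε, hε'⟩ := Metric.eventually_nhds_iff.1 h1
    obtain ⟨n, hn⟩ := exists_pow_lt_of_lt_one (show 0 < ε / δ by positivity)
      (show δ ^ 4 < 1 from pow_lt_one₀ hδ.le hδ1 (by norm_num))
    refine ⟨n, fun x hx => ?_⟩
    induction x using OnePoint.rec with
    | infty => exact absurd infty_mem_DD hx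
    | coe z =>
      rw [coe_mem_DD, not_le] at hx
      rw [Lam_inv_pow_coe]
      apply hε'
      rw [dist_zero_right, norm_mul, norm_pow, Complex.norm_real,
        Real.norm_of_nonneg (by positivity)]
      rw [lt_div_iff₀ hδ] at hn
      calc (δ ^ 4) ^ n * ‖z‖ ≤ (δ ^ 4) ^ n * δ := by gcongr
        _ < ε := hn

theorem core {A B : X ≃ₜ X} {δ : ℝ} (hδ : 0 < δ) (hδ1 : δ < 1) (hA : InvOn δ A) (hB : InvOn δ B)
    (g : ℂ ≃ₜ ℂ) (v₁ v₂ : ℂ) (hv₁ : ‖v₁‖ ≤ δ⁻¹) (hv₂ : ‖v₂‖ ≤ δ⁻¹)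
    (hg : ∀ z, δ⁻¹ ≤ ‖z‖ → g z = z)
    (h1 : ∀ w : ℂ, ‖w‖ ≤ δ⁻¹ →
      ‖g (toC (B (resc δ hδ A w))) - v₁‖ ≤ (1 / 2) * ‖w - v₁‖)
    (h2 : ∀ w : ℂ, ‖w‖ ≤ δ⁻¹ →
      ‖g (toC (B.symm ((resc δ hδ A).symm w))) - v₂‖ ≤ (1 / 2) * ‖w - v₂‖) :
    ∃ h ψ : X ≃ₜ X, h * A * h⁻¹ * B = ψ * Lam δ hδ * ψ⁻¹ := by
  set A₁ := resc δ hδ A with hA₁
  set γ := ext g with hγ
  set L := γ⁻¹ * A₁ * γ * B with hL
  have hδρ : δ < δ⁻¹ := lt_inv' hδ hδ1
  have hgin : ∀ z, ‖z‖ ≤ δ⁻¹ → ‖g z‖ ≤ δ⁻¹ := by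
    intro z hz
    exact maps_of_eq_off (F := g) (K := {z | ‖z‖ ≤ δ⁻¹}) (fun y hy => hg y (not_le.1 hy).le) hz
  have hgs : ∀ z, δ⁻¹ ≤ ‖z‖ → g.symm z = z := by
    intro z hz
    rw [g.symm_apply_eq, hg z hz]
  have hγE : ∀ x ∈ EE δ, γ x ∈ EE δ := by
    rintro _ ⟨z, hz, rfl⟩
    rw [hγ, ext_coe, coe_mem_EE]
    exact hgin z (by simpa using hz)
  have hγoff : ∀ x, x ∉ EE δ → γ x = x := by
    intro x hx
    induction x using OnePoint.rec with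
    | infty => rfl
    | coe z =>
      rw [coe_mem_EE, not_le] at hx
      rw [hγ, ext_coe, hg z hx.le]
  have hγsoff : ∀ x, x ∉ EE δ → γ.symm x = x := by
    intro x hx
    rw [γ.symm_apply_eq, hγoff x hx]
  have hγsE : ∀ x ∈ EE δ, γ.symm x ∈ EE δ := by
    intro x hx
    by_contra hc
    have := hγoff _ hc
    rw [γ.apply_symm_apply] at this
    rw [← this] at hc
    exact hc hx
  have hD1E : ∀ x ∈ D1 δ, x ∉ EE δ := by
    rintro x hx ⟨z, hz, rfl⟩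
    rw [coe_mem_D1] at hx
    rw [mem_closedBall_zero_iff] at hz
    have := lt_inv_cube hδ hδ1
    linarith
  have hAE : ∀ x ∈ EE δ, A₁.symm x ∉ EE δ := by
    intro x hx hc
    have := (resc_mem_D1_iff hδ hA _).2 hc
    rw [← hA₁, A₁.apply_symm_apply] at this
    exact hD1E x this hx
  have hΦ : ∀ w : ℂ, ‖w‖ ≤ δ⁻¹ → ∃ u : ℂ, B (A₁ w) = u ∧ ‖u‖ ≤ δ⁻¹ := by
    intro w hw
    have h3 : A₁ w ∈ D1 δ := (resc_mem_D1_iff hδ hA _).2 (coe_mem_EE.2 hw)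
    have h4 : B (A₁ w) ∈ EE δ := (hB.mem_EE_iff hδ _).2 (interior_subset (D1_sub hδ hδ1 h3))
    obtain ⟨u, hu, hu'⟩ := h4
    exact ⟨u, hu'.symm, by simpa using hu⟩
  have hΦ' : ∀ w : ℂ, ‖w‖ ≤ δ⁻¹ → ∃ u : ℂ, B.symm (A₁.symm w) = u ∧ ‖u‖ < δ := by
    intro w hw
    have h3 : A₁.symm w ∉ EE δ := hAE _ (coe_mem_EE.2 hw)
    have h4 : B.symm (A₁.symm w) ∉ DD δ := by
      intro hc
      rw [← hB.mem_EE_iff hδ, B.apply_symm_apply] at hc
      exact h3 hc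
    simp only [DD, mem_compl_iff, not_not] at h4
    obtain ⟨u, hu, hu'⟩ := h4
    exact ⟨u, hu'.symm, by simpa using hu⟩
  set T : ℂ → ℂ := fun w => g (toC (B (A₁ w))) with hT
  set S : ℂ → ℂ := fun w => toC (B.symm (A₁.symm w)) with hS
  set T' : ℂ → ℂ := fun w => g (S w) with hT'
  have hSw : ∀ w : ℂ, ‖w‖ ≤ δ⁻¹ → (S w : X) = B.symm (A₁.symm w) ∧ ‖S w‖ < δ := by
    intro w hw
    obtain ⟨u, hu, hu'⟩ := hΦ' w hw
    have : S w = u := by simp only [hS]; rw [hu, toC_coe]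
    rw [this]
    exact ⟨hu.symm, hu'⟩
  have hTin : ∀ w, ‖w‖ ≤ δ⁻¹ → ‖T w‖ ≤ δ⁻¹ := by
    intro w hw
    obtain ⟨u, hu, hu'⟩ := hΦ w hw
    simp only [hT]
    rw [hu, toC_coe]
    exact hgin _ hu'
  have hTin' : ∀ w, ‖w‖ ≤ δ⁻¹ → ‖T' w‖ ≤ δ⁻¹ := by
    intro w hw
    exact hgin _ ((hSw w hw).2.le.trans hδρ.le)
  -- action of `L` on the trapping region
  have hLD : ∀ x ∈ DD δ, γ (B x) ∈ EE δ ∧ L x = A₁ (γ (B x)) ∧ L x ∈ D1 δ := by
    intro x hx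
    have h3 : B x ∈ EE δ := (hB.mem_EE_iff hδ _).2 hx
    have h4 : γ (B x) ∈ EE δ := hγE _ h3
    have h5 : A₁ (γ (B x)) ∈ D1 δ := (resc_mem_D1_iff hδ hA _).2 h4
    have h6 : L x = A₁ (γ (B x)) := by
      simp only [hL, Homeomorph.mul_apply, Homeomorph.inv_apply]
      exact hγsoff _ (hD1E _ h5)
    exact ⟨h4, h6, h6 ▸ h5⟩
  have step1 : ∀ w : ℂ, ‖w‖ ≤ δ⁻¹ → L (A₁ w) = A₁ (T w) := by
    intro w hw
    have h3 : A₁ w ∈ D1 δ := (resc_mem_D1_iff hδ hA _).2 (coe_mem_EE.2 hw)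
    obtain ⟨-, h4, -⟩ := hLD _ (interior_subset (D1_sub hδ hδ1 h3))
    obtain ⟨u, hu, hu'⟩ := hΦ w hw
    rw [h4, hu, hγ, ext_coe]
    simp only [hT]
    rw [hu, toC_coe]
  have iter1 : ∀ (n : ℕ) (w : ℂ), ‖w‖ ≤ δ⁻¹ → (L ^ n) (A₁ w) = A₁ (T^[n] w) := by
    intro n w hw
    induction n with
    | zero => rfl
    | succ n ih =>
      rw [pow_succ', Homeomorph.mul_apply, ih, Function.iterate_succ_apply',
        step1 _ (iterate_bound hTin h1 n w hw).1]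
  have step2 : ∀ w : ℂ, ‖w‖ ≤ δ⁻¹ → L.symm w = (S (g w) : X) := by
    intro w hw
    have h3 : L.symm w = B.symm (γ.symm (A₁.symm (γ w))) := by
      rw [L.symm_apply_eq]
      simp [hL]
    rw [h3, hγ, ext_coe, ← hγ, hγsoff _ (hAE _ (coe_mem_EE.2 (hgin w hw))),
      (hSw _ (hgin w hw)).1]
  have iter2 : ∀ (n : ℕ) (w : ℂ), ‖w‖ ≤ δ⁻¹ → (L⁻¹ ^ (n + 1)) w = (S (T'^[n] (g w)) : X) := by
    intro n w hw
    induction n with
    | zero =>
      rw [zero_add, pow_one, Homeomorph.inv_apply, step2 w hw]; rfl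
    | succ n ih =>
      have h3 := (iterate_bound hTin' h2 n (g w) (hgin w hw)).1
      rw [pow_succ', Homeomorph.mul_apply, ih, Homeomorph.inv_apply,
        step2 _ ((hSw _ h3).2.le.trans hδρ.le), Function.iterate_succ_apply']
  have hTv : T v₁ = v₁ := by
    have := h1 v₁ hv₁
    rw [sub_self, norm_zero, mul_zero] at this
    exact sub_eq_zero.1 (norm_le_zero_iff.1 this)
  have hTv' : T' v₂ = v₂ := by
    have := h2 v₂ hv₂
    rw [sub_self, norm_zero, mul_zero] at this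
    exact sub_eq_zero.1 (norm_le_zero_iff.1 this)
  have hdil : Dil L (DD δ) (S v₂ : X) (A₁ v₁) := by
    refine ⟨fun x hx => D1_sub hδ hδ1 (hLD x hx).2.2, ?_, ?_, ?_, ?_, ?_, ?_⟩
    · rw [eq_comm, ← L.symm_apply_eq, step2 _ ((hSw _ hv₂).2.le.trans hδρ.le)]
      change ((S (T' v₂) : ℂ) : X) = _
      rw [hTv']
    · rw [step1 _ hv₁, hTv]
    · rw [coe_mem_DD, not_le]; exact (hSw _ hv₂).2
    · exact interior_subset (D1_sub hδ hδ1 ((resc_mem_D1_iff hδ hA _).2 (coe_mem_EE.2 hv₁)))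
    · intro U hU
      have hc : ContinuousAt (fun u : ℂ => A₁ (u : X)) v₁ :=
        (A₁.continuous.comp OnePoint.continuous_coe).continuousAt
      obtain ⟨ε, hε, hε'⟩ := Metric.eventually_nhds_iff.1 (hc.eventually hU)
      obtain ⟨n, hn⟩ := iterate_lim hv₁ hTin h1 hε
      refine ⟨n + 1, fun x hx => ?_⟩
      obtain ⟨h3, h4, -⟩ := hLD x hx
      obtain ⟨w, hw, hw'⟩ := h3
      rw [pow_succ, Homeomorph.mul_apply, h4, ← hw', iter1 _ _ (by simpa using hw)]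
      apply hε'
      rw [dist_eq_norm]
      exact hn w (by simpa using hw)
    · intro U hU
      have hc : ContinuousAt (fun u : ℂ => B.symm (A₁.symm (u : X))) v₂ :=
        (B.symm.continuous.comp (A₁.symm.continuous.comp OnePoint.continuous_coe)).continuousAt
      have hU' : U ∈ 𝓝 (B.symm (A₁.symm (v₂ : X))) := by rw [← (hSw _ hv₂).1]; exact hU
      obtain ⟨ε, hε, hε'⟩ := Metric.eventually_nhds_iff.1 (hc.eventually hU')
      obtain ⟨n, hn⟩ := iterate_lim hv₂ hTin' h2 hε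
      refine ⟨n + 1, fun x hx => ?_⟩
      simp only [DD, mem_compl_iff, not_not] at hx
      obtain ⟨w, hw, rfl⟩ := hx
      rw [mem_ball_zero_iff] at hw
      have hw' : ‖w‖ ≤ δ⁻¹ := hw.le.trans hδρ.le
      have h3 := (iterate_bound hTin' h2 n (g w) (hgin w hw')).1
      rw [iter2 n w hw', (hSw _ h3).1]
      apply hε'
      rw [dist_eq_norm]
      exact hn _ (hgin w hw')
  have himg : ∀ x, L.symm x ∈ DD δ ↔ (Lam δ hδ).symm x ∈ DD δ := by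
    intro x
    rw [Lam_symm_mem_iff]
    constructor
    · intro h
      have := (hLD _ h).2.2
      rwa [L.apply_symm_apply] at this
    · intro h
      have h3 : L.symm x = B.symm (γ.symm (A₁.symm (γ x))) := by
        rw [L.symm_apply_eq]
        simp [hL]
      rw [h3, hγoff x (hD1E x h), ← hB.mem_EE_iff hδ, B.apply_symm_apply]
      apply hγsE
      rw [← resc_mem_D1_iff hδ hA, ← hA₁, A₁.apply_symm_apply]
      exact h
  have hfr : ∀ x ∈ frontier (DD δ), L x = Lam δ hδ x := by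
    intro x hx
    obtain ⟨z, rfl, hz⟩ := mem_frontier_DD hx
    have hz0 : z ≠ 0 := by
      intro h0; rw [h0, norm_zero] at hz; linarith
    obtain ⟨-, h4, -⟩ := hLD z (coe_mem_DD.2 hz.ge)
    have h5 : ‖z⁻¹‖ = δ⁻¹ := by rw [norm_inv, hz]
    rw [h4, hB z hz.le, inv_coe hz0, hγ, ext_coe, hg _ h5.ge, resc_coe hδ hA h5.le
      (inv_ne_zero hz0), inv_inv, Lam, scal_coe]
    congr 1
    push_cast
    ring
  obtain ⟨ψ, hψ⟩ := exists_conj isClosed_DD hdil (dil_Lam hδ hδ1) himg hfr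
  refine ⟨γ⁻¹ * (scal (δ ^ 2) (by positivity))⁻¹, ψ, ?_⟩
  rw [← hψ, hL, hA₁, resc, ← scal_inv (δ ^ 2) (by positivity)]
  simp only [mul_inv_rev, inv_inv, mul_assoc]

end Pool.Agent.Lib.MP_c6d336_gt
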