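import Mathlib

/-!
# Definitions for the statement on the uniform conjugate-product length

For a topological space `Y`, `homeoTopology Y` is the compact-open topology on the group `Y ≃ₜ Y`
of self-homeomorphisms (with composition as multiplication), `G Y` is the path component of the
identity, and `P Y n` says that for all `A, B ∈ G Y` different from the identity, `B` is a product
of exactly `n` conjugates of `A` by self-homeomorphisms of `Y`. `S2` is the unit sphere of
Euclidean 3-space.
-/

namespace Pool.Agent.Lib.MP_c6d336_gt

open Topology

/-- The compact-open topology on the group of self-homeomorphisms of `Y`, that is, the topology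
induced from the compact-open topology of `C(Y, Y)`. -/
@[reducible]
def homeoTopology (Y : Type) [TopologicalSpace Y] : TopologicalSpace (Y ≃ₜ Y) :=
  TopologicalSpace.induced (fun h => (⟨h, h.continuous⟩ : C(Y, Y))) ContinuousMap.compactOpen

/-- The path component of the identity in the group of self-homeomorphisms of `Y`. -/
def G (Y : Type) [TopologicalSpace Y] : Set (Y ≃ₜ Y) :=
  @pathComponent (Y ≃ₜ Y) (homeoTopology Y) 1

/-- Property `P(n)`: for all non-identity `A, B ∈ G Y` there are self-homeomorphisms
`H 0, …, H (n - 1)` of `Y` such that `B` is the product, in this order, of the `n` conjugates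
`H i * A * (H i)⁻¹`. -/
def P (Y : Type) [TopologicalSpace Y] (n : ℕ) : Prop :=
  ∀ A ∈ G Y, ∀ B ∈ G Y, A ≠ 1 → B ≠ 1 →
    ∃ H : Fin n → (Y ≃ₜ Y), B = (List.ofFn fun i => H i * A * (H i)⁻¹).prod

/-- The 2-sphere: the unit sphere of Euclidean 3-space. -/
abbrev S2 : Type := Metric.sphere (0 : EuclideanSpace ℝ (Fin 3)) 1

end Pool.Agent.Lib.MP_c6d336_gt
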