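import Pool.Agent.Lib.MP_c6d336_gt.Connell

/-!
# Slow reparametrisation of lifts
-/

namespace Pool.Agent.Lib.MP_c6d336_gt

open Set Filter Topology NNReal

theorem bound_of_periodic (φ : ℂ → ℂ) (hφ : Continuous φ)
    (hper : ∀ z, φ (z + 2 * Real.pi * Complex.I) = φ z + 2 * Real.pi * Complex.I) (t : ℝ≥0) :
    ∃ b : ℝ≥0, ∀ z : ℂ, |z.re| ≤ t → ‖φ z - z‖ ≤ b := by
  have hK : IsCompact (Icc (-(t : ℝ)) t ×ℂ Icc (0 : ℝ) (2 * Real.pi)) :=
    isCompact_Icc.reProdIm isCompact_Icc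
  obtain ⟨C, hC⟩ := hK.exists_bound_of_continuousOn (f := fun z => φ z - z)
    (by fun_prop)
  refine ⟨C.toNNReal, fun z hz => ?_⟩
  have hP : Function.Periodic (fun z => φ z - z) (2 * Real.pi * Complex.I) := by
    intro z
    simp only [hper]; ring
  set n : ℤ := ⌊z.im / (2 * Real.pi)⌋ with hn
  have hpi : 0 < 2 * Real.pi := by positivity
  have h1 : φ z - z = φ (z - n • (2 * Real.pi * Complex.I)) - (z - n • (2 * Real.pi * Complex.I)) :=
    (hP.sub_zsmul_eq n).symm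
  rw [h1]
  refine (hC _ ?_).trans (Real.le_coe_toNNReal C)
  rw [Complex.mem_reProdIm]
  have hre : (z - n • (2 * Real.pi * Complex.I)).re = z.re := by simp
  have him : (z - n • (2 * Real.pi * Complex.I)).im = z.im - n * (2 * Real.pi) := by simp
  rw [hre, him]
  refine ⟨abs_le.1 hz, ?_, ?_⟩
  · have := Int.floor_le (z.im / (2 * Real.pi))
    rw [le_div_iff₀ hpi] at this
    linarith
  · have := Int.lt_floor_add_one (z.im / (2 * Real.pi))
    rw [div_lt_iff₀ hpi] at this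
    linarith

theorem abs_sub_eq_of_mul_nonneg {a b : ℝ} (h : 0 ≤ a * b) : |a - b| = abs (|a| - |b|) := by
  rcases mul_nonneg_iff.1 h with ⟨ha, hb⟩ | ⟨ha, hb⟩
  · rw [abs_of_nonneg ha, abs_of_nonneg hb]
  · rw [abs_of_nonpos ha, abs_of_nonpos hb, ← abs_neg]; congr 1; ring

theorem abs_radial (ρ : ℝ≥0 ≃o ℝ≥0) (x : ℝ) : |radial ρ x| = ρ ‖x‖₊ := norm_radial ρ x

theorem radial_sub_le (ρ : ℝ≥0 ≃o ℝ≥0) (x y : ℝ) :
    |radial ρ x - radial ρ y| ≤ ρ ‖x‖₊ + ρ ‖y‖₊ := by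
  rw [← abs_radial, ← abs_radial]
  exact abs_sub _ _

theorem radial_sub_eq (ρ : ℝ≥0 ≃o ℝ≥0) {x y : ℝ} (h : 0 ≤ x * y) :
    |radial ρ x - radial ρ y| = |(ρ ‖x‖₊ : ℝ) - ρ ‖y‖₊| := by
  rw [abs_sub_eq_of_mul_nonneg, abs_radial, abs_radial]
  rw [radial_apply, radial_apply, smul_eq_mul, smul_eq_mul]
  have : (ρ ‖x‖₊ : ℝ) / ‖x‖ * x * ((ρ ‖y‖₊ : ℝ) / ‖y‖ * y) =
    ((ρ ‖x‖₊ : ℝ) / ‖x‖ * ((ρ ‖y‖₊ : ℝ) / ‖y‖)) * (x * y) := by ring
  rw [this]
  positivity

/-- A product homeomorphism of the plane. -/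
noncomputable def prodHomeo (f g : ℝ ≃ₜ ℝ) : ℂ ≃ₜ ℂ :=
  Complex.equivRealProdCLM.toHomeomorph.trans
    ((f.prodCongr g).trans Complex.equivRealProdCLM.toHomeomorph.symm)

theorem prodHomeo_re (f g : ℝ ≃ₜ ℝ) (z : ℂ) : (prodHomeo f g z).re = f z.re := by
  simp [prodHomeo]

theorem prodHomeo_im (f g : ℝ ≃ₜ ℝ) (z : ℂ) : (prodHomeo f g z).im = g z.im := by
  simp [prodHomeo]

section Main

variable {B : ℝ≥0 → ℝ≥0}

theorem exists_index (B : ℝ≥0 → ℝ≥0) (t : ℝ≥0) :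
    ∃ n : ℕ, 2 ≤ n ∧ t ≤ fastIso B n ∧ (n : ℝ≥0) ≤ (fastIso B).symm t + 2 := by
  refine ⟨max 2 ⌈(fastIso B).symm t⌉₊, le_max_left _ _, ?_, ?_⟩
  · rw [← OrderIso.symm_apply_le]
    refine (Nat.le_ceil _).trans ?_
    exact_mod_cast le_max_right _ _
  · rcases le_total 2 ⌈(fastIso B).symm t⌉₊ with h | h
    · rw [max_eq_right h]
      have := (Nat.ceil_lt_add_one (zero_le (a := (fastIso B).symm t))).le
      refine this.trans ?_
      gcongr
      norm_num
    · rw [max_eq_left h]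
      exact le_add_of_nonneg_left (zero_le)

theorem slow_le {s t : ℝ≥0} (h : ∀ T, t ≤ T → s ≤ B T) :
    (fastIso B).symm s ≤ (fastIso B).symm t + 3 := by
  obtain ⟨n, hn2, htn, hn⟩ := exists_index B t
  rw [OrderIso.symm_apply_le]
  refine (h _ htn).trans ((le_fastIso_succ B hn2).trans ?_)
  rw [OrderIso.le_iff_le]
  calc (n : ℝ≥0) + 1 ≤ (fastIso B).symm t + 2 + 1 := by gcongr
    _ = _ := by ring

/-- the slower isomorphism -/
noncomputable def slowIso (B : ℝ≥0 → ℝ≥0) : ℝ≥0 ≃o ℝ≥0 := (fastIso B).symm.trans quadIso.symm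

theorem slowIso_apply (B : ℝ≥0 → ℝ≥0) (t : ℝ≥0) :
    slowIso B t = quadIso.symm ((fastIso B).symm t) := rfl

theorem fastIso_symm_eq_self (B : ℝ≥0 → ℝ≥0) {s : ℝ≥0} (hs : s ≤ 2) : (fastIso B).symm s = s := by
  rw [OrderIso.symm_apply_eq]; exact (fastIso_eq_self B hs).symm

theorem slowIso_eq_self (B : ℝ≥0 → ℝ≥0) {s : ℝ≥0} (hs : s ≤ 2) : slowIso B s = s := by
  rw [slowIso_apply, fastIso_symm_eq_self B hs, quadIso_symm_eq_self hs]

theorem slowIso_two_mul_le (hB : ∀ T, 2 * T ≤ B T) (t : ℝ≥0) :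
    slowIso B (2 * t) ≤ slowIso B t + 3 := by
  rw [slowIso_apply, slowIso_apply]
  refine le_trans (quadIso.symm.monotone ?_) (quadIso_symm_add_le _ 3)
  apply slow_le
  intro T hT
  exact (mul_le_mul_right hT 2).trans (hB T)

theorem slow_radial_sub_le (hB : ∀ T, 2 * T ≤ B T) (x y : ℝ) :
    |radial (slowIso B) x - radial (slowIso B) y| ≤ 3 + 2 * (slowIso B (2 * ‖x - y‖₊) : ℝ) := by
  set k := slowIso B with hk
  set T := ‖x - y‖₊ with hT
  have hk0 : 0 ≤ (k (2 * T) : ℝ) := NNReal.coe_nonneg _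
  have hTle : T ≤ 2 * T := by
    rw [two_mul]; exact le_add_of_nonneg_left (zero_le)
  have hTr : (T : ℝ) = |x - y| := rfl
  have hx2 : ‖y‖₊ ≤ T → ‖x‖₊ ≤ 2 * T := by
    intro h
    have h' : |y| ≤ |x - y| := h
    rw [← NNReal.coe_le_coe]
    change |x| ≤ 2 * |x - y|
    have := abs_sub_abs_le_abs_sub x y
    linarith
  have hy2 : ‖x‖₊ ≤ T → ‖y‖₊ ≤ 2 * T := by
    intro h
    have h' : |x| ≤ |x - y| := h
    rw [← NNReal.coe_le_coe]
    change |y| ≤ 2 * |x - y|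
    have := abs_sub_abs_le_abs_sub y x
    rw [abs_sub_comm] at this
    linarith
  have main : ∀ x y : ℝ, ‖x‖₊ ≤ 2 * T → ‖y‖₊ ≤ 2 * T →
      |radial k x - radial k y| ≤ 3 + 2 * (k (2 * T) : ℝ) := by
    intro x y hx hy
    have h1 : (k ‖x‖₊ : ℝ) ≤ k (2 * T) := by exact_mod_cast k.monotone hx
    have h2 : (k ‖y‖₊ : ℝ) ≤ k (2 * T) := by exact_mod_cast k.monotone hy
    have := radial_sub_le k x y
    linarith
  rcases le_or_gt ‖x‖₊ T with hx | hx
  · exact main x y (hx.trans hTle) (hy2 hx)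
  · rcases le_or_gt ‖y‖₊ T with hy | hy
    · exact main x y (hx2 hy) (hy.trans hTle)
    · rw [← NNReal.coe_lt_coe, hTr, coe_nnnorm, Real.norm_eq_abs] at hx hy
      have hsign : 0 ≤ x * y := by
        by_contra hneg
        push Not at hneg
        rcases mul_neg_iff.1 hneg with ⟨h1, h2⟩ | ⟨h1, h2⟩
        · rw [abs_of_pos h1, abs_of_pos (by linarith)] at hx
          linarith
        · rw [abs_of_neg h1, abs_of_neg (by linarith)] at hx
          linarith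
      have hx' : ‖x‖₊ ≤ 2 * ‖y‖₊ := by
        rw [← NNReal.coe_le_coe]; push_cast
        rw [Real.norm_eq_abs, Real.norm_eq_abs]
        have := abs_sub_abs_le_abs_sub x y
        linarith
      have hy' : ‖y‖₊ ≤ 2 * ‖x‖₊ := by
        rw [← NNReal.coe_le_coe]; push_cast
        rw [Real.norm_eq_abs, Real.norm_eq_abs]
        have := abs_sub_abs_le_abs_sub y x
        rw [abs_sub_comm] at this
        linarith
      have h1 : (k ‖x‖₊ : ℝ) ≤ k ‖y‖₊ + 3 := by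
        exact_mod_cast (k.monotone hx').trans (slowIso_two_mul_le hB _)
      have h2 : (k ‖y‖₊ : ℝ) ≤ k ‖x‖₊ + 3 := by
        exact_mod_cast (k.monotone hy').trans (slowIso_two_mul_le hB _)
      rw [radial_sub_eq k hsign]
      rw [abs_le]
      constructor <;> linarith

end Main

theorem asympId_of_sqrt {Φ : ℂ → ℂ} (C : ℝ) (h : ∀ z, ‖Φ z - z‖ ≤ C + 2 * Real.sqrt (‖z‖ + 3)) :
    AsympId Φ := by
  intro ε hε
  refine ⟨2 * (|C| + 4 / ε + 2 * ε) / ε, fun z hz => (h z).trans ?_⟩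
  have hs : Real.sqrt (‖z‖ + 3) ≤ (ε / 4) * (‖z‖ + 3) + 1 / ε := by
    have h0 : 0 ≤ ‖z‖ + 3 := by positivity
    set s := Real.sqrt (‖z‖ + 3) with hs
    have hs2 : s ^ 2 = ‖z‖ + 3 := Real.sq_sqrt h0
    rw [← hs2]
    have : 0 ≤ (ε / 2 * s - 1) ^ 2 / ε := by positivity
    have h2 : (ε / 2 * s - 1) ^ 2 / ε = ε / 4 * s ^ 2 + 1 / ε - s := by
      field_simp; ring
    linarith
  rw [div_le_iff₀ hε] at hz
  have h3 := le_abs_self C
  have h4 : 0 < 1 / ε := by positivity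
  have h5 : 4 / ε = 4 * (1 / ε) := by ring
  nlinarith

/-- The main estimate: after a slow product reparametrisation, the lift is asymptotically the
identity. -/
theorem exists_slow_conj (g φ : ℂ ≃ₜ ℂ) (hg0 : g 0 = 0)
    (hφ : ∀ z, Complex.exp (φ z) = g (Complex.exp z))
    (hper : ∀ z, φ (z + 2 * Real.pi * Complex.I) = φ z + 2 * Real.pi * Complex.I) :
    ∃ E : ℂ ≃ₜ ℂ, (∀ z : ℂ, ‖z‖ ≤ 2 → E z = z) ∧ AsympId fun z => E (φ (E.symm z)) := by
  have hper' : ∀ z, φ.symm (z + 2 * Real.pi * Complex.I) =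
      φ.symm z + 2 * Real.pi * Complex.I := by
    intro z
    rw [φ.symm_apply_eq, hper, φ.apply_symm_apply]
  choose b₁ hb₁ using bound_of_periodic φ φ.continuous hper
  choose b₂ hb₂ using bound_of_periodic φ.symm φ.symm.continuous hper'
  set B : ℝ≥0 → ℝ≥0 := fun t => 2 * t + 2 * b₁ t + 2 * b₂ t with hB
  have hB2 : ∀ T, 2 * T ≤ B T := by
    intro T
    simp only [hB]
    rw [add_assoc]
    exact le_add_of_nonneg_right (zero_le)
  set l := (fastIso B).symm with hl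
  set k := slowIso B with hk
  set E : ℂ ≃ₜ ℂ := prodHomeo (radial l) (radial k) with hE
  have hre : ∀ z : ℂ, ‖φ z - z‖ ≤ b₁ ‖z.re‖₊ := fun z => hb₁ _ z le_rfl
  -- (1)
  have h1 : ∀ z : ℂ, l ‖(φ z).re‖₊ ≤ l ‖z.re‖₊ + 3 := by
    intro z
    apply slow_le
    intro T hT
    have h := hb₁ T z (by exact_mod_cast hT)
    rw [← NNReal.coe_le_coe]
    have h2 := Complex.abs_re_le_norm (φ z - z)
    rw [Complex.sub_re] at h2
    have h3 := abs_sub_abs_le_abs_sub (φ z).re z.re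
    have h4 : |z.re| ≤ T := by exact_mod_cast hT
    simp only [hB]
    push_cast
    rw [Real.norm_eq_abs]
    have h5 : (0 : ℝ) ≤ b₂ T := NNReal.coe_nonneg _
    have h6 : (0 : ℝ) ≤ b₁ T := NNReal.coe_nonneg _
    have h7 : (0 : ℝ) ≤ T := NNReal.coe_nonneg _
    linarith
  have h2 : ∀ z : ℂ, l ‖z.re‖₊ ≤ l ‖(φ z).re‖₊ + 3 := by
    intro z
    apply slow_le
    intro T hT
    have h := hb₂ T (φ z) (by exact_mod_cast hT)
    rw [φ.symm_apply_apply] at h
    rw [← NNReal.coe_le_coe]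
    have h2 := Complex.abs_re_le_norm (z - φ z)
    rw [Complex.sub_re] at h2
    have h3 := abs_sub_abs_le_abs_sub z.re (φ z).re
    have h4 : |(φ z).re| ≤ T := by exact_mod_cast hT
    simp only [hB]
    push_cast
    rw [Real.norm_eq_abs]
    have h5 : (0 : ℝ) ≤ b₂ T := NNReal.coe_nonneg _
    have h6 : (0 : ℝ) ≤ b₁ T := NNReal.coe_nonneg _
    have h7 : (0 : ℝ) ≤ T := NNReal.coe_nonneg _
    linarith
  have h3 : ∀ z : ℂ, l (2 * ‖(φ z).im - z.im‖₊) ≤ l ‖z.re‖₊ + 3 := by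
    intro z
    apply slow_le
    intro T hT
    have h := hb₁ T z (by exact_mod_cast hT)
    rw [← NNReal.coe_le_coe]
    have h2 := Complex.abs_im_le_norm (φ z - z)
    rw [Complex.sub_im] at h2
    simp only [hB]
    push_cast
    rw [Real.norm_eq_abs]
    have h5 : (0 : ℝ) ≤ b₂ T := NNReal.coe_nonneg _
    have h7 : (0 : ℝ) ≤ T := NNReal.coe_nonneg _
    linarith
  -- signs
  obtain ⟨R₁, hR₁⟩ : ∃ R₁ : ℝ, ∀ w : ℂ, R₁ ≤ ‖w‖ → 1 ≤ ‖g w‖ := by
    have h2 : Tendsto g (cocompact ℂ) (cocompact ℂ) := g.isClosedEmbedding.tendsto_cocompact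
    have h3 := (tendsto_norm_cocompact_atTop.comp h2).eventually (eventually_ge_atTop (1 : ℝ))
    obtain ⟨R', hR'⟩ := Metric.closedBall_compl_subset_of_mem_cocompact h3 (0 : ℂ)
    refine ⟨R' + 1, fun w hw => ?_⟩
    have hw' : w ∈ (Metric.closedBall (0 : ℂ) R')ᶜ := by
      rw [mem_compl_iff, mem_closedBall_zero_iff, not_le]; linarith
    exact hR' hw'
  obtain ⟨δ, hδ, hδ'⟩ : ∃ δ : ℝ, 0 < δ ∧ ∀ w : ℂ, ‖w‖ < δ → ‖g w‖ ≤ 1 := by
    have hc : ContinuousAt (fun w => ‖g w‖) 0 := g.continuous.norm.continuousAt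
    have h := hc.eventually_lt_const (u := 1) (by simp [hg0])
    obtain ⟨δ, hδ, h'⟩ := Metric.eventually_nhds_iff.1 h
    exact ⟨δ, hδ, fun w hw => (h' (by simpa using hw)).le⟩
  obtain ⟨T₀, hT₀⟩ : ∃ T₀ : ℝ≥0, ∀ z : ℂ, (T₀ : ℝ) ≤ |z.re| → 0 ≤ (φ z).re * z.re := by
    set T₀ : ℝ := max (Real.log (max R₁ 1)) (-Real.log (δ / 2)) with hT₀
    refine ⟨T₀.toNNReal, fun z hz => ?_⟩
    have hz' : T₀ ≤ |z.re| := (Real.le_coe_toNNReal T₀).trans hz
    have hn1 : ‖Complex.exp z‖ = Real.exp z.re := Complex.norm_exp z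
    have hn2 : ‖g (Complex.exp z)‖ = Real.exp (φ z).re := by rw [← hφ, Complex.norm_exp]
    rcases le_total 0 z.re with h0 | h0
    · rw [abs_of_nonneg h0] at hz'
      have h4 : Real.log (max R₁ 1) ≤ z.re := (le_max_left _ _).trans hz'
      have h5 : R₁ ≤ ‖Complex.exp z‖ := by
        rw [hn1]
        refine (le_max_left R₁ 1).trans ?_
        rwa [Real.log_le_iff_le_exp (lt_of_lt_of_le one_pos (le_max_right _ _))] at h4
      have h6 := hR₁ _ h5
      rw [hn2] at h6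
      have h7 : 0 ≤ (φ z).re := by
        rw [← Real.exp_zero] at h6
        exact Real.exp_le_exp.1 h6
      positivity
    · rw [abs_of_nonpos h0] at hz'
      have h4 : z.re ≤ Real.log (δ / 2) := by
        have := (le_max_right _ _).trans hz'
        linarith
      have h5 : ‖Complex.exp z‖ < δ := by
        rw [hn1]
        rw [Real.le_log_iff_exp_le (by positivity)] at h4
        linarith
      have h6 := hδ' _ h5
      rw [hn2] at h6
      have h7 : (φ z).re ≤ 0 := by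
        rw [← Real.exp_zero] at h6
        exact Real.exp_le_exp.1 h6
      exact mul_nonneg_of_nonpos_of_nonpos h7 h0
  set C : ℝ := l (T₀) + 3 + l T₀ + 3 with hC
  have hx : ∀ z : ℂ, |radial l (φ z).re - radial l z.re| ≤ C := by
    intro z
    have hlT : (0 : ℝ) ≤ l T₀ := NNReal.coe_nonneg _
    have h1z : (l ‖(φ z).re‖₊ : ℝ) ≤ l ‖z.re‖₊ + 3 := by exact_mod_cast h1 z
    have h2z : (l ‖z.re‖₊ : ℝ) ≤ l ‖(φ z).re‖₊ + 3 := by exact_mod_cast h2 z
    rcases le_total (T₀ : ℝ) |z.re| with h | h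
    · rw [radial_sub_eq l (hT₀ z h), abs_le]
      constructor <;> linarith
    · have h4 : (l ‖z.re‖₊ : ℝ) ≤ l T₀ := by
        have : ‖z.re‖₊ ≤ T₀ := by rw [← NNReal.coe_le_coe]; exact h
        exact_mod_cast l.monotone this
      have := radial_sub_le l (φ z).re z.re
      linarith
  have hy : ∀ z : ℂ, |radial k (φ z).im - radial k z.im| ≤
      3 + 2 * (2 + Real.sqrt ((l ‖z.re‖₊ : ℝ) + 3)) := by
    intro z
    refine (slow_radial_sub_le hB2 _ _).trans ?_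
    gcongr
    have h4 : slowIso B (2 * ‖(φ z).im - z.im‖₊) ≤ 2 + NNReal.sqrt (l ‖z.re‖₊ + 3) := by
      rw [slowIso_apply]
      exact (quadIso.symm.monotone (h3 z)).trans (quadIso_symm_le _)
    calc (slowIso B (2 * ‖(φ z).im - z.im‖₊) : ℝ) ≤ ((2 + NNReal.sqrt (l ‖z.re‖₊ + 3) : ℝ≥0) : ℝ) :=
          by exact_mod_cast h4
      _ = _ := by push_cast; rfl
  refine ⟨E, ?_, ?_⟩
  · intro z hz
    apply Complex.ext
    · rw [hE, prodHomeo_re]
      apply radial_eq_self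
      apply fastIso_symm_eq_self
      rw [← NNReal.coe_le_coe]
      exact (Complex.abs_re_le_norm z).trans hz
    · rw [hE, prodHomeo_im]
      apply radial_eq_self
      apply slowIso_eq_self
      rw [← NNReal.coe_le_coe]
      exact (Complex.abs_im_le_norm z).trans hz
  · apply asympId_of_sqrt (C + 3 + 4)
    intro Z
    obtain ⟨z, rfl⟩ := E.surjective Z
    simp only [E.symm_apply_apply]
    have h4 := Complex.norm_le_abs_re_add_abs_im (E (φ z) - E z)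
    rw [Complex.sub_re, Complex.sub_im, hE, prodHomeo_re, prodHomeo_im, prodHomeo_re,
      prodHomeo_im] at h4
    have h5 : (l ‖z.re‖₊ : ℝ) ≤ ‖prodHomeo (radial l) (radial k) z‖ := by
      have := Complex.abs_re_le_norm (prodHomeo (radial l) (radial k) z)
      rw [prodHomeo_re, abs_radial] at this
      exact this
    have h6 : Real.sqrt ((l ‖z.re‖₊ : ℝ) + 3) ≤
        Real.sqrt (‖prodHomeo (radial l) (radial k) z‖ + 3) := by
      gcongr
    have h7 := hx z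
    have h8 := hy z
    linarith

end Pool.Agent.Lib.MP_c6d336_gt
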