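import Pool.Agent.Lib.MP_c6d336_gt.Three

/-!
# The lower bound: a stretching map which is not conjugate to its inverse
-/

namespace Pool.Agent.Lib.MP_c6d336_gt

open Set Filter Topology NNReal OnePoint

/-- isotopies of the plane moving points outwards extend to the sphere -/
theorem continuous_ext_isotopy (f : unitInterval → ℂ ≃ₜ ℂ)
    (hf : Continuous fun p : unitInterval × ℂ => f p.1 p.2) (hn : ∀ t z, ‖z‖ ≤ ‖f t z‖) :
    Continuous fun p : unitInterval × X => ext (f p.1) p.2 := by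
  rw [continuous_iff_continuousAt]
  rintro ⟨t, x⟩
  induction x using OnePoint.rec with
  | infty =>
    rw [ContinuousAt, ext_infty]
    intro U hU
    obtain ⟨h0, R, hR, hR'⟩ := exists_of_eventually_infty (P := fun x => x ∈ U) hU
    have h1 : ∀ᶠ x in 𝓝 (∞ : X), x ∈ insert ∞ (((↑) : ℂ → X) '' {z | R < ‖z‖}) :=
      eventually_nhds_infty (R := R) (Or.inl rfl) fun z hz => Or.inr ⟨z, hz, rfl⟩
    have h2 : ∀ᶠ p : unitInterval × X in 𝓝 (t, ∞),
        p.2 ∈ insert ∞ (((↑) : ℂ → X) '' {z | R < ‖z‖}) := by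
      rw [nhds_prod_eq]
      exact h1.prod_inr (𝓝 t)
    change ∀ᶠ p : unitInterval × X in 𝓝 (t, ∞), ext (f p.1) p.2 ∈ U
    filter_upwards [h2] with p hp
    rcases hp with hp | ⟨z, hz, hp⟩
    · rw [hp, ext_infty]; exact h0
    · rw [← hp, ext_coe]
      exact hR' _ ((le_of_lt hz).trans (hn _ _))
  | coe z =>
    have hemb : IsOpenEmbedding (Prod.map (id : unitInterval → unitInterval) ((↑) : ℂ → X)) :=
      IsOpenEmbedding.id.prodMap isOpenEmbedding_coe
    have h1 : ContinuousAt ((fun p : unitInterval × X => ext (f p.1) p.2) ∘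
        (Prod.map (id : unitInterval → unitInterval) ((↑) : ℂ → X))) (t, z) := by
      have : ((fun p : unitInterval × X => ext (f p.1) p.2) ∘
        (Prod.map (id : unitInterval → unitInterval) ((↑) : ℂ → X))) =
          fun p : unitInterval × ℂ => ((f p.1 p.2 : ℂ) : X) := by
        funext p; rfl
      rw [this]
      exact (OnePoint.continuous_coe.comp hf).continuousAt
    exact (hemb.continuousAt_iff).1 h1

/-- The stretching profile. -/
noncomputable def stretchFun (t : ℝ≥0) (s : ℝ≥0) : ℝ≥0 := s + t * (s * (s - 1))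

theorem stretchFun_strictMono (t : ℝ≥0) : StrictMono (stretchFun t) := by
  intro a b hab
  unfold stretchFun
  have : a - 1 ≤ b - 1 := tsub_le_tsub_right hab.le 1
  exact add_lt_add_of_lt_of_le hab (by gcongr)

theorem stretchFun_surjective (t : ℝ≥0) : Function.Surjective (stretchFun t) := by
  intro y
  have hc : Continuous (stretchFun t) := by unfold stretchFun; fun_prop
  refine mem_range_of_exists_le_of_exists_ge hc ⟨0, ?_⟩ ⟨y, ?_⟩
  · simp [stretchFun]
  · exact le_add_of_nonneg_right (zero_le)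

/-- The stretching isomorphism. -/
noncomputable def stretchIso (t : ℝ≥0) : ℝ≥0 ≃o ℝ≥0 :=
  StrictMono.orderIsoOfSurjective (stretchFun t) (stretchFun_strictMono t)
    (stretchFun_surjective t)

/-- the stretching map of the plane -/
noncomputable def stretch (t : ℝ≥0) : ℂ ≃ₜ ℂ := radial (stretchIso t)

theorem stretch_apply (t : ℝ≥0) (z : ℂ) :
    stretch t z = (1 + (t : ℝ) * max (‖z‖ - 1) 0 : ℝ) • z := by
  by_cases hz : z = 0
  · subst hz; rw [stretch, radial_zero, smul_zero]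
  rw [stretch, radial_apply]
  congr 1
  have hz' : ‖z‖ ≠ 0 := norm_ne_zero_iff.2 hz
  change ((stretchFun t ‖z‖₊ : ℝ≥0) : ℝ) / ‖z‖ = _
  unfold stretchFun
  have : ((‖z‖₊ - 1 : ℝ≥0) : ℝ) = max (‖z‖ - 1) 0 := by
    rw [NNReal.coe_sub_def]; rfl
  push_cast
  rw [this]
  field_simp

theorem norm_stretch (t : ℝ≥0) (z : ℂ) :
    ‖stretch t z‖ = (1 + (t : ℝ) * max (‖z‖ - 1) 0) * ‖z‖ := by
  rw [stretch_apply, norm_smul, Real.norm_of_nonneg]
  have : 0 ≤ max (‖z‖ - 1) 0 := le_max_right _ _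
  positivity

theorem le_norm_stretch (t : ℝ≥0) (z : ℂ) : ‖z‖ ≤ ‖stretch t z‖ := by
  rw [norm_stretch]
  have h : 0 ≤ max (‖z‖ - 1) 0 := le_max_right _ _
  have h2 : 0 ≤ (t : ℝ) * max (‖z‖ - 1) 0 := by positivity
  nlinarith [norm_nonneg z]

/-- The stretching isotopy. -/
noncomputable def stretchIso' (t : unitInterval) : ℂ ≃ₜ ℂ := stretch (Real.toNNReal t)

theorem stretchIso'_apply (t : unitInterval) (z : ℂ) :
    stretchIso' t z = (1 + (t : ℝ) * max (‖z‖ - 1) 0 : ℝ) • z := by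
  rw [stretchIso', stretch_apply, Real.coe_toNNReal _ t.2.1]

theorem continuous_stretchIso' :
    Continuous fun p : unitInterval × ℂ => stretchIso' p.1 p.2 := by
  have : (fun p : unitInterval × ℂ => stretchIso' p.1 p.2) =
      fun p : unitInterval × ℂ => (1 + (p.1 : ℝ) * max (‖p.2‖ - 1) 0 : ℝ) • p.2 := by
    funext p; exact stretchIso'_apply _ _
  rw [this]
  fun_prop

/-- The basic map `B₀`. -/
noncomputable def B0 : X ≃ₜ X := ext (stretch 1)

theorem B0_eq : B0 = ext (stretchIso' 1) := by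
  have : Real.toNNReal ((1 : unitInterval) : ℝ) = 1 := by simp
  rw [B0, stretchIso', this]

theorem B0_coe {z : ℂ} (hz : 1 ≤ ‖z‖) : B0 z = ((‖z‖ • z : ℂ) : X) := by
  rw [B0, ext_coe, stretch_apply, max_eq_left (by linarith)]
  congr 2
  push_cast; ring

theorem B0_coe_of_le {z : ℂ} (hz : ‖z‖ ≤ 1) : B0 z = z := by
  rw [B0, ext_coe, stretch_apply, max_eq_right (by linarith)]
  simp

theorem B0_symm_coe {z : ℂ} (hz : 1 ≤ ‖z‖) (hz2 : ‖z‖ ≤ 2) :
    ∃ w : ℂ, B0.symm z = w ∧ 1 ≤ ‖w‖ ∧ ‖w‖ ≤ 2 := by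
  refine ⟨(stretch 1).symm z, rfl, ?_, ?_⟩
  · by_contra h
    push Not at h
    have h1 := norm_stretch 1 ((stretch 1).symm z)
    rw [Homeomorph.apply_symm_apply, max_eq_right (by linarith)] at h1
    linarith
  · have h1 := le_norm_stretch 1 ((stretch 1).symm z)
    rw [Homeomorph.apply_symm_apply] at h1
    linarith

theorem B0_symm_iter (n : ℕ) {z : ℂ} (hz : 1 ≤ ‖z‖) (hz2 : ‖z‖ ≤ 2) :
    ∃ w : ℂ, (B0⁻¹ ^ n) z = w ∧ 1 ≤ ‖w‖ ∧ ‖w‖ ≤ 2 := by
  induction n with
  | zero => exact ⟨z, rfl, hz, hz2⟩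
  | succ n ih =>
    obtain ⟨w, hw, hw1, hw2⟩ := ih
    rw [pow_succ', Homeomorph.mul_apply, hw, Homeomorph.inv_apply]
    exact B0_symm_coe hw1 hw2

theorem B0_iter (n : ℕ) {z : ℂ} (hz : 1 ≤ ‖z‖) :
    ∃ w : ℂ, (B0 ^ n) z = w ∧ ‖z‖ ^ (n + 1) ≤ ‖w‖ := by
  induction n with
  | zero => exact ⟨z, rfl, by simp⟩
  | succ n ih =>
    obtain ⟨w, hw, hw1⟩ := ih
    have hzn : ‖z‖ ≤ ‖z‖ ^ (n + 1) := le_self_pow₀ hz (by omega)
    have h1 : ‖z‖ ≤ ‖w‖ := hzn.trans hw1
    refine ⟨‖w‖ • w, ?_, ?_⟩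
    · rw [pow_succ', Homeomorph.mul_apply, hw, B0_coe (hz.trans h1)]
    · rw [norm_smul, norm_norm, pow_succ, mul_comm]
      gcongr

theorem B0_tendsto {x : X} (hx : B0 x ≠ x) : Tendsto (fun n : ℕ => (B0 ^ n) x) atTop (𝓝 ∞) := by
  induction x using OnePoint.rec with
  | infty => exact absurd rfl hx
  | coe z =>
    have hz : 1 < ‖z‖ := by
      by_contra h
      push Not at h
      exact hx (B0_coe_of_le h)
    intro U hU
    obtain ⟨h0, R, hR, hR'⟩ := exists_of_eventually_infty (P := fun x => x ∈ U) hU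
    have h1 : Tendsto (fun n : ℕ => ‖z‖ ^ (n + 1)) atTop atTop :=
      (tendsto_pow_atTop_atTop_of_one_lt hz).comp (tendsto_add_atTop_nat 1)
    change ∀ᶠ n : ℕ in atTop, (B0 ^ n) z ∈ U
    filter_upwards [h1.eventually (eventually_ge_atTop R)] with n hn
    obtain ⟨w, hw, hw1⟩ := B0_iter n hz.le
    rw [hw]
    exact hR' w (hn.trans hw1)

theorem B0_neg (x : X) : B0 (ext (Homeomorph.neg ℂ) x) = ext (Homeomorph.neg ℂ) (B0 x) := by
  induction x using OnePoint.rec with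
  | infty => rfl
  | coe z =>
    rw [ext_coe, Homeomorph.coe_neg, B0, ext_coe, ext_coe, ext_coe, Homeomorph.coe_neg,
      stretch_apply, stretch_apply, norm_neg, smul_neg]

theorem B0_inv_pow_neg (n : ℕ) (x : X) :
    (B0⁻¹ ^ n) (ext (Homeomorph.neg ℂ) x) = ext (Homeomorph.neg ℂ) ((B0⁻¹ ^ n) x) := by
  induction n with
  | zero => rfl
  | succ n ih =>
    rw [pow_succ', Homeomorph.mul_apply, ih, Homeomorph.mul_apply, Homeomorph.inv_apply,
      Homeomorph.symm_apply_eq, B0_neg, Homeomorph.inv_apply, Homeomorph.apply_symm_apply]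

/-- `B₀` is not conjugate to its inverse. -/
theorem B0_not_conj (h : X ≃ₜ X) : h * B0 * h⁻¹ ≠ B0⁻¹ := by
  intro hc
  have hpow : ∀ n : ℕ, B0⁻¹ ^ n = h * B0 ^ n * h⁻¹ := by
    intro n
    rw [← hc, conj_pow]
  have key : ∀ y : X, B0 y ≠ y → Tendsto (fun n : ℕ => (B0⁻¹ ^ n) y) atTop (𝓝 (h ∞)) := by
    intro y hy
    have h1 : B0 (h.symm y) ≠ h.symm y := by
      intro h2
      apply hy
      have h3 : (h * B0 * h⁻¹) y = y := by
        simp only [Homeomorph.mul_apply, Homeomorph.inv_apply, h2, Homeomorph.apply_symm_apply]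
      rw [hc, Homeomorph.inv_apply, Homeomorph.symm_apply_eq] at h3
      exact h3.symm
    have h4 := (h.continuous.tendsto ∞).comp (B0_tendsto h1)
    refine h4.congr fun n => ?_
    rw [hpow]; rfl
  have h2 : B0 ((2 : ℂ) : X) ≠ ((2 : ℂ) : X) := by
    rw [B0_coe (by norm_num)]
    intro h3
    have h4 := coe_injective h3
    norm_num at h4
  have h2n : B0 (ext (Homeomorph.neg ℂ) ((2 : ℂ) : X)) ≠ ext (Homeomorph.neg ℂ) ((2 : ℂ) : X) := by
    rw [B0_neg]
    intro h3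
    exact h2 ((ext (Homeomorph.neg ℂ)).injective h3)
  have t1 := key _ h2
  have t2 := key _ h2n
  have t3 := ((ext (Homeomorph.neg ℂ)).continuous.tendsto (h ∞)).comp t1
  have t4 : Tendsto (fun n : ℕ => (B0⁻¹ ^ n) (ext (Homeomorph.neg ℂ) ((2 : ℂ) : X))) atTop
      (𝓝 (ext (Homeomorph.neg ℂ) (h ∞))) := by
    refine t3.congr fun n => ?_
    rw [B0_inv_pow_neg]; rfl
  have heq : h ∞ = ext (Homeomorph.neg ℂ) (h ∞) := tendsto_nhds_unique t2 t4
  -- the limit lies in the annulus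
  have hK : IsClosed (((↑) : ℂ → X) '' {z | 1 ≤ ‖z‖ ∧ ‖z‖ ≤ 2}) := by
    have hKc : IsCompact {z : ℂ | 1 ≤ ‖z‖ ∧ ‖z‖ ≤ 2} := by
      have : IsClosed {z : ℂ | 1 ≤ ‖z‖ ∧ ‖z‖ ≤ 2} :=
        (isClosed_le continuous_const continuous_norm).inter
          (isClosed_le continuous_norm continuous_const)
      refine (isCompact_closedBall (0 : ℂ) 2).of_isClosed_subset this ?_
      intro z hz
      rw [mem_closedBall_zero_iff]; exact hz.2
    exact (hKc.image OnePoint.continuous_coe).isClosed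
  have hmem : h ∞ ∈ (((↑) : ℂ → X) '' {z | 1 ≤ ‖z‖ ∧ ‖z‖ ≤ 2}) := by
    refine hK.mem_of_tendsto t1 (Eventually.of_forall fun n => ?_)
    obtain ⟨w, hw, hw1, hw2⟩ := B0_symm_iter n (z := 2) (by norm_num) (by norm_num)
    rw [hw]
    exact ⟨w, ⟨hw1, hw2⟩, rfl⟩
  obtain ⟨z, ⟨hz1, -⟩, hz⟩ := hmem
  rw [← hz, ext_coe, Homeomorph.coe_neg] at heq
  have h5 := coe_injective heq
  have h6 : z = 0 := by
    have : z + z = 0 := by nth_rewrite 1 [h5]; ring
    have h7 : (2 : ℂ) * z = 0 := by rw [two_mul]; exact this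
    simpa using h7
  rw [h6, norm_zero] at hz1
  linarith

theorem B0_sq_ne : B0 * B0 ≠ 1 := by
  intro h
  have h1 : (B0 * B0) ((2 : ℂ) : X) = ((2 : ℂ) : X) := by rw [h]; rfl
  rw [Homeomorph.mul_apply, B0_coe (by norm_num), B0_coe (by norm_num)] at h1
  have h4 := coe_injective h1
  norm_num at h4

/-- rotation isotopy -/
noncomputable def rotIso (t : unitInterval) : ℂ ≃ₜ ℂ :=
  Homeomorph.mulLeft₀ (Complex.exp ((Real.pi * t : ℝ) * Complex.I)) (Complex.exp_ne_zero _)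

theorem rotIso_apply (t : unitInterval) (z : ℂ) :
    rotIso t z = Complex.exp ((Real.pi * t : ℝ) * Complex.I) * z := rfl

theorem continuous_rotIso : Continuous fun p : unitInterval × ℂ => rotIso p.1 p.2 := by
  have : (fun p : unitInterval × ℂ => rotIso p.1 p.2) =
      fun p : unitInterval × ℂ => Complex.exp ((Real.pi * p.1 : ℝ) * Complex.I) * p.2 := rfl
  rw [this]
  fun_prop

theorem norm_rotIso (t : unitInterval) (z : ℂ) : ‖rotIso t z‖ = ‖z‖ := by
  rw [rotIso_apply, norm_mul, Complex.norm_exp_ofReal_mul_I, one_mul]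

end Pool.Agent.Lib.MP_c6d336_gt
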