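import Pool.Agent.Lib.MP_c6d336_gt.Defs
import Pool.Agent.Lib.MP_c6d336_gt.Lower

/-!
# Transport to the unit sphere of Euclidean 3-space
-/

namespace Pool.Agent.Lib.MP_c6d336_gt

open Set Filter Topology

/-- A homeomorphism between the Riemann sphere and the unit sphere. -/
noncomputable def sphereHomeo : X ≃ₜ S2 :=
  onePointEquivSphereOfFinrankEq (ι := Fin 3) (V := ℂ) (by simp)

/-- Transport of homeomorphisms from the Riemann sphere to the unit sphere. -/
noncomputable def toS (f : X ≃ₜ X) : S2 ≃ₜ S2 := sphereHomeo.symm.trans (f.trans sphereHomeo)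

/-- Transport of homeomorphisms from the unit sphere to the Riemann sphere. -/
noncomputable def toX (f : S2 ≃ₜ S2) : X ≃ₜ X := sphereHomeo.trans (f.trans sphereHomeo.symm)

theorem toS_toX (f : S2 ≃ₜ S2) : toS (toX f) = f := by
  ext1 x; simp [toS, toX]

theorem toX_toS (f : X ≃ₜ X) : toX (toS f) = f := by
  ext1 x; simp [toS, toX]

theorem toX_one : toX 1 = 1 := by
  ext1 x; simp [toX]

theorem toS_one : toS 1 = 1 := by
  ext1 x; simp [toS]

theorem toX_mul (f g : S2 ≃ₜ S2) : toX (f * g) = toX f * toX g := by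
  ext1 x; simp [toX]

theorem toS_mul (f g : X ≃ₜ X) : toS (f * g) = toS f * toS g := by
  ext1 x; simp [toS]

theorem toX_inv (f : S2 ≃ₜ S2) : toX f⁻¹ = (toX f)⁻¹ := by
  rw [eq_inv_iff_mul_eq_one, ← toX_mul, inv_mul_cancel, toX_one]

theorem toS_inv (f : X ≃ₜ X) : toS f⁻¹ = (toS f)⁻¹ := by
  rw [eq_inv_iff_mul_eq_one, ← toS_mul, inv_mul_cancel, toS_one]

theorem toX_injective : Function.Injective toX := fun f g h => by
  rw [← toS_toX f, h, toS_toX]

theorem toS_injective : Function.Injective toS := fun f g h => by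
  rw [← toX_toS f, h, toX_toS]

theorem toX_mem_stab {A : S2 ≃ₜ S2} (hA : A ∈ G S2) : toX A ∈ stab := by
  let _ := homeoTopology S2
  obtain ⟨γ⟩ := hA
  have hc : Continuous fun t : unitInterval => (⟨γ t, (γ t).continuous⟩ : C(S2, S2)) :=
    continuous_induced_dom.comp γ.continuous
  have hu : Continuous fun p : unitInterval × S2 => γ p.1 p.2 :=
    ContinuousMap.continuous_uncurry_of_continuous
      (⟨fun t : unitInterval => (⟨γ t, (γ t).continuous⟩ : C(S2, S2)), hc⟩ :
        C(unitInterval, C(S2, S2)))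
  have hX : Continuous fun p : unitInterval × X => toX (γ p.1) p.2 := by
    have h1 : Continuous fun p : unitInterval × X => (p.1, sphereHomeo p.2) :=
      continuous_fst.prodMk (sphereHomeo.continuous.comp continuous_snd)
    exact sphereHomeo.symm.continuous.comp (hu.comp h1)
  have := isotopy_mem (fun t => toX (γ t)) hX (by rw [γ.source, toX_one]) 1
  simp only [γ.target] at this
  exact this

theorem toS_mem_G (H : unitInterval → X ≃ₜ X)
    (hH : Continuous fun p : unitInterval × X => H p.1 p.2) (h0 : H 0 = 1) : toS (H 1) ∈ G S2 := by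
  let _ := homeoTopology S2
  have hc : Continuous fun t : unitInterval => toS (H t) := by
    refine continuous_induced_rng.2 ?_
    apply ContinuousMap.continuous_of_continuous_uncurry
    have h1 : Continuous fun p : unitInterval × S2 => (p.1, sphereHomeo.symm p.2) :=
      continuous_fst.prodMk (sphereHomeo.symm.continuous.comp continuous_snd)
    exact sphereHomeo.continuous.comp (hH.comp h1)
  exact ⟨⟨⟨fun t => toS (H t), hc⟩, by simp [h0, toS_one], rfl⟩⟩

/-- the rotation by the angle `π` -/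
theorem rot_mem_G : toS (ext (rotIso 1)) ∈ G S2 := by
  refine toS_mem_G (fun t => ext (rotIso t))
    (continuous_ext_isotopy _ continuous_rotIso fun t z => (norm_rotIso t z).ge) ?_
  ext x
  induction x using OnePoint.rec with
  | infty => rfl
  | coe z =>
    rw [ext_coe, rotIso_apply]
    simp

theorem stretch_mem_G : toS B0 ∈ G S2 := by
  rw [B0_eq]
  refine toS_mem_G (fun t => ext (stretchIso' t))
    (continuous_ext_isotopy _ continuous_stretchIso' fun t z => le_norm_stretch _ z) ?_
  ext x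
  induction x using OnePoint.rec with
  | infty => rfl
  | coe z =>
    rw [ext_coe, stretchIso'_apply]
    simp

theorem rot_sq : ext (rotIso 1) * ext (rotIso 1) = 1 := by
  ext x
  induction x using OnePoint.rec with
  | infty => rfl
  | coe z =>
    rw [Homeomorph.mul_apply, ext_coe, ext_coe, rotIso_apply, rotIso_apply]
    simp

theorem rot_ne_one : ext (rotIso 1) ≠ 1 := by
  intro h
  have h1 : ext (rotIso 1) ((1 : ℂ) : X) = ((1 : ℂ) : X) := by rw [h]; rfl
  rw [ext_coe, rotIso_apply] at h1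
  have h2 := OnePoint.coe_injective h1
  simp at h2
  norm_num at h2

theorem B0_ne_one : B0 ≠ 1 := by
  intro h
  exact B0_sq_ne (by rw [h, mul_one])

theorem P_three : P S2 3 := by
  intro A hA B hB hA1 hB1
  obtain ⟨H₁, H₂, H₃, h⟩ := three_conj (toX_mem_stab hA) (toX_mem_stab hB)
    (fun h => hA1 (toX_injective (by rw [h, toX_one])))
    (fun h => hB1 (toX_injective (by rw [h, toX_one])))
  refine ⟨![toS H₁, toS H₂, toS H₃], ?_⟩
  rw [← toS_toX B, h]
  simp [toS_mul, toS_inv, toS_toX, List.ofFn_succ, mul_assoc]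

theorem not_P_one : ¬ P S2 1 := by
  intro h
  obtain ⟨H, hH⟩ := h _ rot_mem_G _ stretch_mem_G
    (fun h => rot_ne_one (toS_injective (by rw [h, toS_one])))
    (fun h => B0_ne_one (toS_injective (by rw [h, toS_one])))
  simp only [List.ofFn_succ, List.ofFn_zero, List.prod_cons, List.prod_nil, mul_one] at hH
  have h1 : toS (B0 * B0) = 1 := by
    rw [toS_mul, hH]
    calc H 0 * toS (ext (rotIso 1)) * (H 0)⁻¹ * (H 0 * toS (ext (rotIso 1)) * (H 0)⁻¹) =
        H 0 * (toS (ext (rotIso 1)) * toS (ext (rotIso 1))) * (H 0)⁻¹ := by group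
      _ = 1 := by rw [← toS_mul, rot_sq, toS_one]; group
  exact B0_sq_ne (toS_injective (by rw [h1, toS_one]))

theorem conj_eq_inv {K : Type*} [Group K] {a b : K} (ha : a * a = 1) (hb : b * b = 1) :
    a * (a * b) * a⁻¹ = (a * b)⁻¹ := by
  have ha' : a⁻¹ = a := inv_eq_of_mul_eq_one_left ha
  have hb' : b⁻¹ = b := inv_eq_of_mul_eq_one_left hb
  rw [mul_inv_rev, ha', hb', ← mul_assoc, ha, one_mul]

theorem not_P_two : ¬ P S2 2 := by
  intro h
  obtain ⟨H, hH⟩ := h _ rot_mem_G _ stretch_mem_G
    (fun h => rot_ne_one (toS_injective (by rw [h, toS_one])))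
    (fun h => B0_ne_one (toS_injective (by rw [h, toS_one])))
  simp only [List.ofFn_succ, List.ofFn_zero, List.prod_cons, List.prod_nil, mul_one] at hH
  set R := toS (ext (rotIso 1)) with hR
  have hR2 : R * R = 1 := by rw [hR, ← toS_mul, rot_sq, toS_one]
  set A₁ := H 0 * R * (H 0)⁻¹ with hA₁
  set A₂ := H (Fin.succ 0) * R * (H (Fin.succ 0))⁻¹ with hA₂
  have h1 : A₁ * A₁ = 1 := by
    calc A₁ * A₁ = H 0 * (R * R) * (H 0)⁻¹ := by rw [hA₁]; group
      _ = 1 := by rw [hR2]; group
  have h2 : A₂ * A₂ = 1 := by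
    calc A₂ * A₂ = H (Fin.succ 0) * (R * R) * (H (Fin.succ 0))⁻¹ := by rw [hA₂]; group
      _ = 1 := by rw [hR2]; group
  have h3 : A₁ * toS B0 * A₁⁻¹ = (toS B0)⁻¹ := by
    rw [hH]
    exact conj_eq_inv h1 h2
  apply B0_not_conj (toX A₁)
  apply toS_injective
  rw [toS_mul, toS_mul, toS_inv, toS_toX, toS_inv, h3]

end Pool.Agent.Lib.MP_c6d336_gt
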