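import Pool.Agent.Lib.MP_c6d336_gt.Stable

/-!
# Realising germs of stable homeomorphisms, and the normal form
-/

namespace Pool.Agent.Lib.MP_c6d336_gt

open Set Filter Topology NNReal OnePoint

/-- `k` moves `y` to `y'` and is the identity near `x` and `x'`. -/
def Moves (x x' y y' : X) : Prop :=
  ∃ k : X ≃ₜ X, (∀ᶠ z in 𝓝 x, k z = z) ∧ (∀ᶠ z in 𝓝 x', k z = z) ∧ k y = y'

theorem moves_coe {x x' : X} {b : ℂ} (hx : (b : X) ≠ x) (hx' : (b : X) ≠ x') :
    ∀ᶠ y in 𝓝 (b : X), Moves x x' (b : X) y := by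
  have hU : IsOpen (((↑) : ℂ → X) ⁻¹' {x, x'}ᶜ) :=
    ((Set.toFinite {x, x'}).isClosed.isOpen_compl).preimage OnePoint.continuous_coe
  have hb : b ∈ (((↑) : ℂ → X) ⁻¹' {x, x'}ᶜ) := by
    simp only [mem_preimage, mem_compl_iff, mem_insert_iff, mem_singleton_iff, not_or]
    exact ⟨hx, hx'⟩
  obtain ⟨r, hr, hball⟩ := Metric.nhds_basis_closedBall.mem_iff.1 (hU.mem_nhds hb)
  refine nhds_coe_iff.2 ?_
  filter_upwards [Metric.ball_mem_nhds b hr] with a ha
  obtain ⟨f, hf1, hf2⟩ := exists_push b a r (by rwa [mem_ball_iff_norm] at ha)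
  have hfs : ∀ z, r ≤ ‖z - b‖ → f.symm z = z := by
    intro z hz
    rw [f.symm_apply_eq, hf2 z hz]
  have hopen : IsOpen (((↑) : ℂ → X) '' Metric.closedBall b r)ᶜ :=
    ((isCompact_closedBall b r).image continuous_coe).isClosed.isOpen_compl
  have hid : ∀ z : X, z ∈ (((↑) : ℂ → X) '' Metric.closedBall b r)ᶜ → ext f.symm z = z := by
    intro z hz
    induction z using OnePoint.rec with
    | infty => rfl
    | coe z =>
      rw [ext_coe, hfs]
      by_contra h
      push Not at h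
      exact hz ⟨z, by rw [mem_closedBall_iff_norm]; exact h.le, rfl⟩
  have hnot : ∀ z : X, (z = x ∨ z = x') → z ∈ (((↑) : ℂ → X) '' Metric.closedBall b r)ᶜ := by
    rintro z hz ⟨w, hw, rfl⟩
    have := hball hw
    simp only [mem_preimage, mem_compl_iff, mem_insert_iff, mem_singleton_iff] at this
    exact this hz
  refine ⟨ext f.symm, ?_, ?_, ?_⟩
  · filter_upwards [hopen.mem_nhds (hnot x (Or.inl rfl))] with z hz using hid z hz
  · filter_upwards [hopen.mem_nhds (hnot x' (Or.inr rfl))] with z hz using hid z hz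
  · rw [ext_coe, ← hf1, f.symm_apply_apply]

theorem Moves.inv_conj {x x' y y' : X} (h : Moves (inv x) (inv x') (inv y) (inv y')) :
    Moves x x' y y' := by
  obtain ⟨k, h1, h2, h3⟩ := h
  refine ⟨inv * k * inv, ?_, ?_, ?_⟩
  · have : Tendsto inv (𝓝 x) (𝓝 (inv x)) := inv.continuous.tendsto x
    filter_upwards [this.eventually h1] with z hz
    simp [hz]
  · have : Tendsto inv (𝓝 x') (𝓝 (inv x')) := inv.continuous.tendsto x'
    filter_upwards [this.eventually h2] with z hz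
    simp [hz]
  · simp [h3]

theorem moves_local {x x' y : X} (hx : y ≠ x) (hx' : y ≠ x') :
    ∀ᶠ y' in 𝓝 y, Moves x x' y y' := by
  induction y using OnePoint.rec with
  | infty =>
    have h1 : (((0 : ℂ) : X)) ≠ inv x := by
      intro h
      apply hx
      rw [← inv_inv' x, ← h, inv_zero']
    have h2 : (((0 : ℂ) : X)) ≠ inv x' := by
      intro h
      apply hx'
      rw [← inv_inv' x', ← h, inv_zero']
    have h3 := moves_coe h1 h2
    have : Tendsto inv (𝓝 (∞ : X)) (𝓝 ((0 : ℂ) : X)) := inv.continuous.tendsto ∞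
    filter_upwards [this.eventually h3] with z hz
    exact Moves.inv_conj hz
  | coe b => exact moves_coe hx hx'

theorem preconnected_compl (x x' : X) : IsPreconnected ({x, x'}ᶜ : Set X) := by
  set A : Set ℂ := ((↑) : ℂ → X) ⁻¹' {x, x'} with hA
  have hAc : A.Countable := (Set.toFinite {x, x'}).countable.preimage coe_injective
  have h1 : IsPathConnected Aᶜ :=
    hAc.isPathConnected_compl_of_one_lt_rank (by rw [Complex.rank_real_complex]; norm_num)
  have h2 : IsPreconnected (((↑) : ℂ → X) '' Aᶜ) :=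
    h1.isConnected.isPreconnected.image _ continuous_coe.continuousOn
  have h3 : Dense (((↑) : ℂ → X) '' Aᶜ) :=
    denseRange_coe.dense_image continuous_coe (hAc.dense_compl ℝ)
  refine h2.subset_closure ?_ ?_
  · rintro _ ⟨z, hz, rfl⟩
    exact hz
  · rw [h3.closure_eq]; exact subset_univ _

theorem moves {x x' y y' : X} (h1 : y ≠ x) (h2 : y ≠ x') (h3 : y' ≠ x) (h4 : y' ≠ x') :
    Moves x x' y y' := by
  have hy : y ∈ ({x, x'}ᶜ : Set X) := by simp [h1, h2]
  have hy' : y' ∈ ({x, x'}ᶜ : Set X) := by simp [h3, h4]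
  refine (preconnected_compl x x').induction₂ (fun y y' => Moves x x' y y') ?_ ?_ ?_ hy hy'
  · intro z hz
    simp only [mem_compl_iff, mem_insert_iff, mem_singleton_iff, not_or] at hz
    exact nhdsWithin_le_nhds (moves_local hz.1 hz.2)
  · rintro a b c _ _ _ ⟨k, hk1, hk2, hk3⟩ ⟨l, hl1, hl2, hl3⟩
    refine ⟨l * k, ?_, ?_, ?_⟩
    · filter_upwards [hk1, hl1] with z hz hz'
      rw [Homeomorph.mul_apply, hz, hz']
    · filter_upwards [hk2, hl2] with z hz hz'
      rw [Homeomorph.mul_apply, hz, hz']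
    · rw [Homeomorph.mul_apply, hk3, hl3]
  · rintro a b _ _ ⟨k, hk1, hk2, hk3⟩
    refine ⟨k⁻¹, ?_, ?_, ?_⟩
    · filter_upwards [hk1] with z hz
      rw [Homeomorph.inv_apply, k.symm_apply_eq, hz]
    · filter_upwards [hk2] with z hz
      rw [Homeomorph.inv_apply, k.symm_apply_eq, hz]
    · rw [Homeomorph.inv_apply, k.symm_apply_eq, hk3]

/-- weak form of realisability of germs -/
def Good (f : X ≃ₜ X) : Prop := ∀ x, ∃ F : X ≃ₜ X, ∃ y, y ≠ x ∧ y ≠ f x ∧
  (∀ᶠ z in 𝓝 x, F z = f z) ∧ (∀ᶠ z in 𝓝 y, F z = z)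

/-- strong form of realisability of germs -/
def Good' (f : X ≃ₜ X) : Prop := ∀ x y, y ≠ x → y ≠ f x → ∃ F : X ≃ₜ X,
  (∀ᶠ z in 𝓝 x, F z = f z) ∧ (∀ᶠ z in 𝓝 y, F z = z)

theorem Good.good' {f : X ≃ₜ X} (h : Good f) : Good' f := by
  intro x y hyx hyf
  obtain ⟨F, y₀, h1, h2, h3, h4⟩ := h x
  obtain ⟨k, hk1, hk2, hk3⟩ := moves h1 h2 hyx hyf
  refine ⟨k * F * k⁻¹, ?_, ?_⟩
  · have hfc : Tendsto f (𝓝 x) (𝓝 (f x)) := f.continuous.tendsto x
    filter_upwards [hk1, h3, hfc.eventually hk2] with z hz1 hz2 hz3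
    have : k.symm z = z := by rw [k.symm_apply_eq, hz1]
    simp only [Homeomorph.mul_apply, Homeomorph.inv_apply, this, hz2, hz3]
  · have hc : Tendsto k.symm (𝓝 y) (𝓝 y₀) := by
      have := k.symm.continuous.tendsto (k y₀)
      rwa [k.symm_apply_apply, hk3] at this
    filter_upwards [hc.eventually h4] with z hz
    simp only [Homeomorph.mul_apply, Homeomorph.inv_apply, hz, k.apply_symm_apply]

theorem exists_avoid (U : Set X) (hU : IsOpen U) (hne : U.Nonempty) (s : Set X) (hs : s.Finite) :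
    ∃ y ∈ U, y ∉ s := by
  obtain ⟨x, hx⟩ := hne
  have : U.Infinite := infinite_of_mem_nhds x (hU.mem_nhds hx)
  obtain ⟨y, hy, hy'⟩ := this.exists_notMem_finite hs
  exact ⟨y, hy, hy'⟩

theorem good_of_local {f : X ≃ₜ X} (hf : f ∈ localSet) : Good f := by
  obtain ⟨x₀, hx₀⟩ := hf
  obtain ⟨U, hU, hUo, hxU⟩ := eventually_nhds_iff.1 hx₀
  intro x
  obtain ⟨y, hyU, hy⟩ := exists_avoid U hUo ⟨x₀, hxU⟩ {x, f x} (Set.toFinite _)
  simp only [mem_insert_iff, mem_singleton_iff, not_or] at hy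
  refine ⟨f, y, hy.1, hy.2, Eventually.of_forall fun _ => rfl, ?_⟩
  filter_upwards [hUo.mem_nhds hyU] with z hz using hU z hz

theorem good'_mul {f g : X ≃ₜ X} (hf : Good' f) (hg : Good' g) : Good' (f * g) := by
  apply Good.good'
  intro x
  obtain ⟨y, -, hy⟩ := exists_avoid univ isOpen_univ ⟨x, trivial⟩ {x, g x, f (g x)} (Set.toFinite _)
  simp only [mem_insert_iff, mem_singleton_iff, not_or] at hy
  obtain ⟨G, hG1, hG2⟩ := hg x y hy.1 hy.2.1
  obtain ⟨F, hF1, hF2⟩ := hf (g x) y hy.2.1 hy.2.2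
  refine ⟨F * G, y, hy.1, hy.2.2, ?_, ?_⟩
  · have hgc : Tendsto g (𝓝 x) (𝓝 (g x)) := g.continuous.tendsto x
    filter_upwards [hG1, hgc.eventually hF1] with z hz1 hz2
    rw [Homeomorph.mul_apply, hz1, hz2, Homeomorph.mul_apply]
  · filter_upwards [hG2, hF2] with z hz1 hz2
    rw [Homeomorph.mul_apply, hz1, hz2]

theorem good'_inv {f : X ≃ₜ X} (hf : Good' f) : Good' f⁻¹ := by
  intro x y hyx hyf
  rw [Homeomorph.inv_apply] at hyf
  obtain ⟨F, hF1, hF2⟩ := hf (f.symm x) y hyf (by rwa [f.apply_symm_apply])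
  refine ⟨F⁻¹, ?_, ?_⟩
  · have := eqNear_symm hF1
    rwa [f.apply_symm_apply] at this
  · filter_upwards [hF2] with z hz
    rw [Homeomorph.inv_apply, F.symm_apply_eq, hz]

theorem good'_of_mem_stab {f : X ≃ₜ X} (hf : f ∈ stab) : Good' f := by
  rw [stab_eq] at hf
  induction hf using Subgroup.closure_induction with
  | mem f hf => exact (good_of_local hf).good'
  | one =>
    intro x y _ _
    exact ⟨1, Eventually.of_forall fun _ => rfl, Eventually.of_forall fun _ => rfl⟩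
  | mul f g _ _ hf hg => exact good'_mul hf hg
  | inv f _ hf => exact good'_inv hf

/-- Realisation of germs at the origin. -/
theorem exists_germ {f : X ≃ₜ X} (hf : f ∈ stab) (h0 : f ((0 : ℂ) : X) = ((0 : ℂ) : X)) :
    ∃ F : X ≃ₜ X, (∀ᶠ z in 𝓝 ((0 : ℂ) : X), F z = f z) ∧ ∀ᶠ z in 𝓝 (∞ : X), F z = z :=
  good'_of_mem_stab hf _ _ (infty_ne_coe 0) (by rw [h0]; exact infty_ne_coe 0)

theorem exists_two_point {p q : X} (h : q ≠ p) :
    ∃ k : X ≃ₜ X, k p = ((0 : ℂ) : X) ∧ k q = ∞ := by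
  obtain ⟨k₁, hk₁⟩ : ∃ k : X ≃ₜ X, k p = ((0 : ℂ) : X) := by
    induction p using OnePoint.rec with
    | infty => exact ⟨inv, rfl⟩
    | coe a => exact ⟨ext (Homeomorph.addRight (-a)), by simp⟩
  have h1 : k₁ q ≠ ((0 : ℂ) : X) := by
    intro h2
    rw [← hk₁] at h2
    exact h (k₁.injective h2)
  obtain ⟨k₂, h2, -, h3⟩ := moves h1 h1 (infty_ne_coe 0) (infty_ne_coe 0)
  exact ⟨k₂ * k₁, by rw [Homeomorph.mul_apply, hk₁, h2.self_of_nhds],
    by rw [Homeomorph.mul_apply, h3]⟩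

/-- Normal form: a non-trivial stable homeomorphism is conjugate to one which is the inversion
near the origin. -/
theorem normal_form {A : X ≃ₜ X} (hA : A ∈ stab) {p : X} (hp : A p ≠ p) :
    ∃ h : X ≃ₜ X, h p = ((0 : ℂ) : X) ∧ h (A p) = ∞ ∧
      ∀ᶠ z in 𝓝 ((0 : ℂ) : X), (h * A * h⁻¹) z = inv z := by
  obtain ⟨h₁, h1, h2⟩ := exists_two_point hp
  set A₁ : X ≃ₜ X := h₁ * A * h₁⁻¹ with hA₁
  have hA₁mem : A₁ ∈ stab := conj_mem_stab hA h₁
  have hA₁0 : A₁ ((0 : ℂ) : X) = ∞ := by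
    simp only [hA₁, Homeomorph.mul_apply, Homeomorph.inv_apply]
    rw [← h1, h₁.symm_apply_apply, h2]
  set f : X ≃ₜ X := inv * A₁ with hf
  have hfmem : f ∈ stab := stab.mul_mem inv_mem_stab hA₁mem
  have hf0 : f ((0 : ℂ) : X) = ((0 : ℂ) : X) := by
    simp only [hf, Homeomorph.mul_apply, hA₁0, inv_infty]
  obtain ⟨F, hF1, hF2⟩ := exists_germ hfmem hf0
  have hFi : F ∞ = ∞ := hF2.self_of_nhds
  have hF0 : F ((0 : ℂ) : X) = ((0 : ℂ) : X) := by rw [hF1.self_of_nhds, hf0]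
  set ψ : X ≃ₜ X := inv * F⁻¹ * inv with hψ
  refine ⟨ψ * h₁, ?_, ?_, ?_⟩
  · rw [Homeomorph.mul_apply, h1]
    simp only [hψ, Homeomorph.mul_apply, Homeomorph.inv_apply, inv_zero']
    rw [show F.symm ∞ = ∞ by rw [F.symm_apply_eq, hFi], inv_infty]
  · rw [Homeomorph.mul_apply, h2]
    simp only [hψ, Homeomorph.mul_apply, Homeomorph.inv_apply, inv_infty]
    rw [show F.symm ((0 : ℂ) : X) = ((0 : ℂ) : X) by rw [F.symm_apply_eq, hF0], inv_zero']
  · have e1 : Tendsto inv (𝓝 ((0 : ℂ) : X)) (𝓝 ∞) := by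
      have := inv.continuous.tendsto ((0 : ℂ) : X)
      rwa [inv_zero'] at this
    filter_upwards [hF1, e1.eventually hF2] with z hz1 hz2
    have e2 : (ψ * h₁)⁻¹ z = h₁.symm z := by
      rw [mul_inv_rev, Homeomorph.mul_apply, Homeomorph.inv_apply, Homeomorph.inv_apply]
      congr 1
      rw [ψ.symm_apply_eq]
      simp only [hψ, Homeomorph.mul_apply, Homeomorph.inv_apply]
      rw [show F.symm (inv z) = inv z by rw [F.symm_apply_eq, hz2], inv_inv']
    have e3 : (ψ * h₁ * A * (ψ * h₁)⁻¹) z = ψ (A₁ z) := by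
      simp only [Homeomorph.mul_apply]
      rw [e2]
      rfl
    rw [e3]
    simp only [hψ, Homeomorph.mul_apply, Homeomorph.inv_apply]
    rw [show inv (A₁ z) = f z from rfl, ← hz1, F.symm_apply_apply]

end Pool.Agent.Lib.MP_c6d336_gt
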