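import Pool.Agent.Lib.MP_c6d336_gt.Slow

/-!
# Lifting homeomorphisms of the punctured plane through the exponential
-/

namespace Pool.Agent.Lib.MP_c6d336_gt

open Set Filter Topology NNReal

/-- uniqueness of lifts through `exp`. -/
theorem lift_unique {A : Type*} [TopologicalSpace A] [PreconnectedSpace A] {F G : A → ℂ}
    (hF : Continuous F) (hG : Continuous G) (h : ∀ a, Complex.exp (F a) = Complex.exp (G a))
    (a : A) (ha : F a = G a) : F = G := by
  refine Complex.isCoveringMap_exp.eq_of_comp_eq hF hG ?_ a ha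
  funext x
  exact Subtype.ext (h x)

/-- existence of lifts through `exp`. -/
theorem exists_lift {f : ℂ → ℂ} (hf : Continuous f) (h0 : ∀ z, f z ≠ 0) (z₀ e₀ : ℂ)
    (he : Complex.exp e₀ = f z₀) :
    ∃ F : ℂ → ℂ, Continuous F ∧ F z₀ = e₀ ∧ ∀ z, Complex.exp (F z) = f z := by
  obtain ⟨F, ⟨hF0, hF⟩, -⟩ := Complex.isCoveringMapOn_exp.existsUnique_continuousMap_lifts
    (⟨f, hf⟩ : C(ℂ, ℂ)) (a₀ := z₀) (e₀ := e₀) he (fun a => h0 a)
  exact ⟨F, F.continuous, hF0, fun z => congrFun hF z⟩

theorem exp_add_two_pi_I (z : ℂ) : Complex.exp (z + 2 * Real.pi * Complex.I) = Complex.exp z :=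
  Complex.exp_periodic z

/-- The lift of a homeomorphism of the plane fixing the origin and close to the identity on the
unit circle. -/
theorem exists_homeo_lift (g : ℂ ≃ₜ ℂ) (hg0 : g 0 = 0)
    (hg : ∀ w : ℂ, ‖w‖ = 1 → ‖g w - w‖ < 1 / 4) :
    ∃ φ : ℂ ≃ₜ ℂ, (∀ z, Complex.exp (φ z) = g (Complex.exp z)) ∧
      (∀ z, φ (z + 2 * Real.pi * Complex.I) = φ z + 2 * Real.pi * Complex.I) ∧ ‖φ 0‖ < 1 := by
  have hgne : ∀ z, g (Complex.exp z) ≠ 0 := by
    intro z h
    rw [← hg0] at h
    exact Complex.exp_ne_zero z (g.injective h)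
  have hgs0 : g.symm 0 = 0 := by rw [g.symm_apply_eq, hg0]
  have hgsne : ∀ z, g.symm (Complex.exp z) ≠ 0 := by
    intro z h
    rw [← hgs0] at h
    exact Complex.exp_ne_zero z (g.symm.injective h)
  have hg1 : g 1 ≠ 0 := by
    have := hgne 0
    rwa [Complex.exp_zero] at this
  have hgc : Continuous fun z => g (Complex.exp z) := g.continuous.comp Complex.continuous_exp
  have hgsc : Continuous fun z => g.symm (Complex.exp z) :=
    g.symm.continuous.comp Complex.continuous_exp
  obtain ⟨φ, hφc, hφ0, hφ⟩ := exists_lift hgc hgne 0 (Complex.log (g 1))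
    (by rw [Complex.exp_log hg1, Complex.exp_zero])
  obtain ⟨ψ, hψc, hψ0, hψ⟩ := exists_lift hgsc hgsne (φ 0) 0
    (by rw [hφ, Complex.exp_zero, g.symm_apply_apply])
  have h1 : (ψ ∘ φ) = id := by
    refine lift_unique (hψc.comp hφc) continuous_id (fun z => ?_) 0 ?_
    · simp only [Function.comp_apply, id]
      rw [hψ, hφ, g.symm_apply_apply]
    · simp only [Function.comp_apply, id]
      exact hψ0
  have h2 : (φ ∘ ψ) = id := by
    refine lift_unique (hφc.comp hψc) continuous_id (fun z => ?_) (φ 0) ?_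
    · simp only [Function.comp_apply, id]
      rw [hφ, hψ, g.apply_symm_apply]
    · simp only [Function.comp_apply, id]
      rw [hψ0]
  let Φ : ℂ ≃ₜ ℂ :=
    ⟨⟨φ, ψ, fun z => congrFun h1 z, fun z => congrFun h2 z⟩, hφc, hψc⟩
  -- the logarithmic displacement along the circle
  have hcirc : ∀ θ : ℝ, ‖Complex.exp (φ (θ * Complex.I) - θ * Complex.I) - 1‖ < 1 / 4 := by
    intro θ
    have hn : ‖Complex.exp (θ * Complex.I)‖ = 1 := Complex.norm_exp_ofReal_mul_I θ
    have := hg _ hn
    rw [Complex.exp_sub, hφ]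
    have hne : Complex.exp (θ * Complex.I) ≠ 0 := Complex.exp_ne_zero _
    have h3 : g (Complex.exp (θ * Complex.I)) / Complex.exp (θ * Complex.I) - 1 =
        (g (Complex.exp (θ * Complex.I)) - Complex.exp (θ * Complex.I)) /
          Complex.exp (θ * Complex.I) := by
      field_simp
    rw [h3, norm_div, hn, div_one]
    exact this
  have hslit : ∀ θ : ℝ, Complex.exp (φ (θ * Complex.I) - θ * Complex.I) ∈ Complex.slitPlane := by
    intro θ
    have h4 := hcirc θ
    left
    have h5 := Complex.abs_re_le_norm (Complex.exp (φ (θ * Complex.I) - θ * Complex.I) - 1)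
    rw [Complex.sub_re, Complex.one_re] at h5
    have h6 := (abs_le.1 (h5.trans h4.le)).1
    linarith
  have hη : (fun θ : ℝ => φ (θ * Complex.I) - θ * Complex.I) =
      fun θ : ℝ => Complex.log (Complex.exp (φ (θ * Complex.I) - θ * Complex.I)) := by
    refine lift_unique (by fun_prop) ?_ (fun θ => ?_) (0 : ℝ) ?_
    · rw [continuous_iff_continuousAt]
      intro θ
      exact ContinuousAt.clog (by fun_prop) (hslit θ)
    · rw [Complex.exp_log (Complex.exp_ne_zero _)]
    · simp only [Complex.ofReal_zero, zero_mul, sub_zero]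
      rw [hφ, Complex.exp_zero, hφ0]
  have hη2 : φ (2 * Real.pi * Complex.I) = φ 0 + 2 * Real.pi * Complex.I := by
    have h7 := congrFun hη (2 * Real.pi)
    have h8 := congrFun hη 0
    simp only [Complex.ofReal_mul, Complex.ofReal_ofNat, Complex.ofReal_zero, zero_mul,
      sub_zero] at h7 h8
    have h9 : Complex.exp (φ (2 * Real.pi * Complex.I) - 2 * Real.pi * Complex.I) =
        Complex.exp (φ 0) := by
      rw [Complex.exp_sub, hφ, hφ, Complex.exp_two_pi_mul_I, Complex.exp_zero, div_one]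
    rw [h9, ← h8] at h7
    rw [← h7]; ring
  refine ⟨Φ, hφ, ?_, ?_⟩
  · have h10 : (fun z => φ (z + 2 * Real.pi * Complex.I) - 2 * Real.pi * Complex.I) = φ := by
      refine lift_unique (by fun_prop) hφc (fun z => ?_) 0 ?_
      · rw [Complex.exp_sub, hφ, hφ, exp_add_two_pi_I, Complex.exp_two_pi_mul_I, div_one]
      · simp only [zero_add]
        rw [hη2]; ring
    intro z
    have := congrFun h10 z
    change φ (z + 2 * Real.pi * Complex.I) = φ z + 2 * Real.pi * Complex.I
    rw [← this]; ring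
  · change ‖φ 0‖ < 1
    rw [hφ0]
    have h11 := hg 1 (by simp)
    have h12 := Complex.norm_log_one_add_half_le_self (z := g 1 - 1) (by linarith)
    rw [add_sub_cancel] at h12
    linarith

end Pool.Agent.Lib.MP_c6d336_gt
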