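import Pool.Agent.Lib.MP_c6d336_gt.Estimate

/-!
# Local realisation of plane homeomorphisms
-/

namespace Pool.Agent.Lib.MP_c6d336_gt

open Set Filter Topology NNReal

/-- A homeomorphism of the plane fixing the origin and close to the identity on the unit circle
agrees near `1` with a homeomorphism which is the identity near `0`. -/
theorem exists_local_homeo (g : ℂ ≃ₜ ℂ) (hg0 : g 0 = 0)
    (hg : ∀ w : ℂ, ‖w‖ = 1 → ‖g w - w‖ < 1 / 4) :
    ∃ s : ℂ ≃ₜ ℂ, (∀ᶠ w in 𝓝 (1 : ℂ), s w = g w) ∧ ∀ᶠ w in 𝓝 (0 : ℂ), s w = w := by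
  obtain ⟨φ, hφ, hper, hφ0⟩ := exists_homeo_lift g hg0 hg
  obtain ⟨E, hE, hA⟩ := exists_slow_conj g φ hg0 hφ hper
  set Φ : ℂ ≃ₜ ℂ := E.symm.trans (φ.trans E) with hΦ
  obtain ⟨F, hF3, hF2⟩ := exists_connell Φ hA
  have hK : IsCompact (Metric.closedBall (0 : ℂ) 3) := isCompact_closedBall _ _
  have hKs : Metric.closedBall (0 : ℂ) 3 ⊆ Complex.expOpenPartialHomeomorph.source := by
    intro z hz
    rw [mem_closedBall_zero_iff] at hz
    have h1 := (Complex.abs_im_le_norm z).trans hz
    have h2 := abs_le.1 h1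
    have h3 := Real.pi_gt_three
    exact ⟨by linarith, by linarith⟩
  obtain ⟨s, hs1, hs2⟩ := exists_pushforward Complex.expOpenPartialHomeomorph F hK hKs
    (fun y hy => hF3 y (by
      rw [mem_closedBall_zero_iff, not_le] at hy; exact hy.le))
  refine ⟨s, ?_, ?_⟩
  · have hlog : ContinuousAt Complex.log 1 := continuousAt_clog (by simp)
    have h1 : ∀ᶠ w in 𝓝 (1 : ℂ), ‖Complex.log w‖ < 2 := by
      apply hlog.norm.eventually_lt_const
      simp
    have h2 : ∀ᶠ w in 𝓝 (1 : ℂ), ‖φ (Complex.log w)‖ < 2 := by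
      have : ContinuousAt (fun w => ‖φ (Complex.log w)‖) 1 :=
        (ContinuousAt.comp (f := Complex.log) (g := φ) φ.continuous.continuousAt hlog).norm
      apply this.eventually_lt_const
      simp only [Complex.log_one]
      linarith
    have h3 : ∀ᶠ w in 𝓝 (1 : ℂ), w ∈ Complex.slitPlane :=
      Complex.isOpen_slitPlane.mem_nhds (by simp)
    filter_upwards [h1, h2, h3] with w hw1 hw2 hw3
    have hw0 : w ≠ 0 := Complex.slitPlane_ne_zero hw3
    have hsrc : Complex.log w ∈ Complex.expOpenPartialHomeomorph.source :=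
      hKs (by rw [mem_closedBall_zero_iff]; linarith)
    have h4 : E.symm (Complex.log w) = Complex.log w := by
      rw [E.symm_apply_eq]; exact (hE _ hw1.le).symm
    have h5 : Φ (Complex.log w) = φ (Complex.log w) := by
      simp only [hΦ, Homeomorph.trans_apply, h4]
      exact hE _ hw2.le
    have h6 : F (Complex.log w) = φ (Complex.log w) := by
      rw [hF2 _ hw1.le (by rw [h5]; exact hw2.le), h5]
    have h7 := hs1 _ hsrc
    have h8 : (Complex.expOpenPartialHomeomorph : ℂ → ℂ) (Complex.log w) = w :=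
      Complex.exp_log hw0
    rw [h8, h6] at h7
    rw [h7]
    change Complex.exp (φ (Complex.log w)) = g w
    rw [hφ, Complex.exp_log hw0]
  · have hcl : IsClosed (Complex.expOpenPartialHomeomorph '' Metric.closedBall (0 : ℂ) 3) :=
      (hK.image_of_continuousOn
        (Complex.expOpenPartialHomeomorph.continuousOn.mono hKs)).isClosed
    have h0 : (0 : ℂ) ∉ Complex.expOpenPartialHomeomorph '' Metric.closedBall (0 : ℂ) 3 := by
      rintro ⟨y, -, hy⟩
      exact Complex.exp_ne_zero y hy
    filter_upwards [hcl.isOpen_compl.mem_nhds h0] with w hw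
    exact hs2 w hw

end Pool.Agent.Lib.MP_c6d336_gt
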