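import Pool.Agent.Lib.MP_c6d336_gt.Local

/-!
# The Riemann sphere `OnePoint ℂ`: inversion, extension, restriction
-/

namespace Pool.Agent.Lib.MP_c6d336_gt

open Set Filter Topology NNReal OnePoint

/-- The Riemann sphere. -/
abbrev X : Type := OnePoint ℂ

open scoped Classical in
/-- The inversion as a function. -/
noncomputable def invFun' : X → X
  | ∞ => ((0 : ℂ) : X)
  | (z : ℂ) => if z = 0 then ∞ else ((z⁻¹ : ℂ) : X)

theorem invFun'_infty : invFun' ∞ = ((0 : ℂ) : X) := rfl

theorem invFun'_coe {z : ℂ} (hz : z ≠ 0) : invFun' (z : X) = ((z⁻¹ : ℂ) : X) := by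
  change (if z = 0 then (∞ : X) else ((z⁻¹ : ℂ) : X)) = _
  rw [if_neg hz]

theorem invFun'_zero : invFun' ((0 : ℂ) : X) = ∞ := by
  change (if (0 : ℂ) = 0 then (∞ : X) else _) = _
  rw [if_pos rfl]

theorem invFun'_invFun' (x : X) : invFun' (invFun' x) = x := by
  induction x using OnePoint.rec with
  | infty => rw [invFun'_infty, invFun'_zero]
  | coe z =>
    by_cases hz : z = 0
    · subst hz; rw [invFun'_zero, invFun'_infty]
    · rw [invFun'_coe hz, invFun'_coe (inv_ne_zero hz), inv_inv]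

theorem coclosedCompact_eq : coclosedCompact ℂ = Bornology.cobounded ℂ := by
  rw [coclosedCompact_eq_cocompact, Metric.cobounded_eq_cocompact]

theorem tendsto_coe_cobounded : Tendsto ((↑) : ℂ → X) (Bornology.cobounded ℂ) (𝓝 ∞) := by
  rw [← coclosedCompact_eq]; exact tendsto_coe_infty

theorem continuous_invFun' : Continuous invFun' := by
  rw [OnePoint.continuous_iff]
  constructor
  · rw [invFun'_infty, coclosedCompact_eq]
    have h1 : Tendsto (fun z : ℂ => ((z⁻¹ : ℂ) : X)) (Bornology.cobounded ℂ) (𝓝 ((0 : ℂ) : X)) :=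
      (continuous_coe.tendsto (0 : ℂ)).comp tendsto_inv₀_cobounded
    refine h1.congr' ?_
    have : ∀ᶠ z : ℂ in Bornology.cobounded ℂ, z ≠ 0 := by
      have h2 := (tendsto_norm_cobounded_atTop (E := ℂ)).eventually (eventually_gt_atTop 0)
      filter_upwards [h2] with z hz
      exact norm_pos_iff.1 hz
    filter_upwards [this] with z hz
    exact (invFun'_coe hz).symm
  · rw [continuous_iff_continuousAt]
    intro z
    by_cases hz : z = 0
    · subst hz
      rw [ContinuousAt, invFun'_zero, ← nhdsNE_sup_pure, tendsto_sup]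
      constructor
      · have h1 : Tendsto (fun z : ℂ => ((z⁻¹ : ℂ) : X)) (𝓝[≠] 0) (𝓝 ∞) :=
          tendsto_coe_cobounded.comp tendsto_inv₀_nhdsNE_zero
        refine h1.congr' ?_
        filter_upwards [self_mem_nhdsWithin] with z hz
        exact (invFun'_coe hz).symm
      · rw [tendsto_pure_left]
        intro s hs
        rw [invFun'_zero]
        exact mem_of_mem_nhds hs
    · have h1 : ContinuousAt (fun z : ℂ => ((z⁻¹ : ℂ) : X)) z :=
        continuous_coe.continuousAt.comp (continuousAt_inv₀ hz)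
      refine h1.congr ?_
      filter_upwards [isOpen_ne.mem_nhds hz] with w hw
      exact (invFun'_coe hw).symm

/-- The inversion of the Riemann sphere. -/
noncomputable def inv : X ≃ₜ X where
  toFun := invFun'
  invFun := invFun'
  left_inv := invFun'_invFun'
  right_inv := invFun'_invFun'
  continuous_toFun := continuous_invFun'
  continuous_invFun := continuous_invFun'

@[simp] theorem inv_infty : inv ∞ = ((0 : ℂ) : X) := rfl
@[simp] theorem inv_zero' : inv ((0 : ℂ) : X) = ∞ := invFun'_zero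
theorem inv_coe {z : ℂ} (hz : z ≠ 0) : inv (z : X) = ((z⁻¹ : ℂ) : X) := invFun'_coe hz
@[simp] theorem inv_inv' (x : X) : inv (inv x) = x := invFun'_invFun' x
theorem inv_mul_inv : inv * inv = 1 := by
  ext x; simp
theorem inv_symm : inv.symm = inv := rfl

/-- Extension of homeomorphisms of the plane to the sphere. -/
noncomputable def ext (f : ℂ ≃ₜ ℂ) : X ≃ₜ X := f.onePointCongr

@[simp] theorem ext_coe (f : ℂ ≃ₜ ℂ) (z : ℂ) : ext f (z : X) = (f z : X) := rfl
@[simp] theorem ext_infty (f : ℂ ≃ₜ ℂ) : ext f ∞ = ∞ := rfl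
@[simp] theorem ext_symm_coe (f : ℂ ≃ₜ ℂ) (z : ℂ) : (ext f).symm (z : X) = (f.symm z : X) := rfl
@[simp] theorem ext_symm_infty (f : ℂ ≃ₜ ℂ) : (ext f).symm ∞ = ∞ := rfl

/-- Restriction of a homeomorphism of the sphere fixing infinity. -/
theorem exists_restrict (f : X ≃ₜ X) (hf : f ∞ = ∞) : ∃ g : ℂ ≃ₜ ℂ, f = ext g := by
  have key : ∀ f : X ≃ₜ X, f ∞ = ∞ → ∀ z : ℂ, ∃ w : ℂ, f z = (w : X) := by
    intro f hf z
    have : f z ≠ ∞ := by
      intro h
      rw [← hf] at h
      exact coe_ne_infty z (f.injective h)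
    obtain ⟨w, hw⟩ := ne_infty_iff_exists.1 this
    exact ⟨w, hw.symm⟩
  have hf' : f.symm ∞ = ∞ := by rw [f.symm_apply_eq, hf]
  choose g hg using key f hf
  choose g' hg' using key f.symm hf'
  have cont : ∀ (f : X ≃ₜ X) (g : ℂ → ℂ), (∀ z : ℂ, f z = (g z : X)) → Continuous g := by
    intro f g hg
    rw [isOpenEmbedding_coe.isInducing.continuous_iff]
    have : ((↑) : ℂ → X) ∘ g = fun z : ℂ => f (z : X) := by
      funext z; exact (hg z).symm
    rw [this]
    exact f.continuous.comp continuous_coe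
  refine ⟨⟨⟨g, g', ?_, ?_⟩, cont f g hg, cont f.symm g' hg'⟩, ?_⟩
  · intro z
    apply coe_injective
    rw [← hg', ← hg, f.symm_apply_apply]
  · intro z
    apply coe_injective
    rw [← hg, ← hg', f.apply_symm_apply]
  · ext x
    induction x using OnePoint.rec with
    | infty => exact hf
    | coe z => exact hg z

/-- Small sets around a finite point. -/
theorem nhds_coe_iff {P : X → Prop} {a : ℂ} :
    (∀ᶠ x in 𝓝 (a : X), P x) ↔ ∀ᶠ z : ℂ in 𝓝 a, P (z : X) := by
  rw [nhds_coe_eq, eventually_map]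

theorem eventually_nhds_infty {P : X → Prop} (h0 : P ∞) {R : ℝ} (h : ∀ z : ℂ, R < ‖z‖ → P z) :
    ∀ᶠ x in 𝓝 (∞ : X), P x := by
  rw [nhds_infty_eq, eventually_sup]
  constructor
  · rw [eventually_map, coclosedCompact_eq]
    have := (tendsto_norm_cobounded_atTop (E := ℂ)).eventually (eventually_gt_atTop R)
    filter_upwards [this] with z hz
    exact h z hz
  · simpa using h0

theorem exists_of_eventually_infty {P : X → Prop} (h : ∀ᶠ x in 𝓝 (∞ : X), P x) :
    P ∞ ∧ ∃ R : ℝ, 0 < R ∧ ∀ z : ℂ, R ≤ ‖z‖ → P z := by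
  refine ⟨h.self_of_nhds, ?_⟩
  have h1 := tendsto_coe_cobounded.eventually h
  have h2 : {z : ℂ | P z} ∈ cocompact ℂ := by rw [← Metric.cobounded_eq_cocompact]; exact h1
  obtain ⟨R', hR'⟩ := Metric.closedBall_compl_subset_of_mem_cocompact h2 (0 : ℂ)
  refine ⟨max R' 0 + 1, by positivity, fun z hz => hR' ?_⟩
  rw [mem_compl_iff, mem_closedBall_zero_iff, not_le]
  have := le_max_left R' 0
  linarith

theorem eqNear_symm {Y : Type*} [TopologicalSpace Y] {F f : Y ≃ₜ Y} {x : Y}
    (h : ∀ᶠ z in 𝓝 x, F z = f z) : ∀ᶠ w in 𝓝 (f x), F.symm w = f.symm w := by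
  have h1 : Tendsto f.symm (𝓝 (f x)) (𝓝 x) := by
    have := f.symm.continuous.tendsto (f x)
    rwa [f.symm_apply_apply] at this
  filter_upwards [h1.eventually h] with w hw
  rw [f.apply_symm_apply] at hw
  rw [F.symm_apply_eq]; exact hw.symm

end Pool.Agent.Lib.MP_c6d336_gt
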