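import Pool.Agent.Lib.MP_c6d336_gt.Tools

/-!
# Slow and fast order isomorphisms of the half line, and the contraction lemma
-/

namespace Pool.Agent.Lib.MP_c6d336_gt

open Set Filter Topology NNReal

section FastIso

/-- The increments. -/
noncomputable def incr (B : ℝ≥0 → ℝ≥0) (n : ℕ) (a : ℝ≥0) : ℝ≥0 := if n < 2 then 1 else 1 + B a

/-- The fast growing sequence. -/
noncomputable def fastSeq (B : ℝ≥0 → ℝ≥0) : ℕ → ℝ≥0
  | 0 => 0
  | n + 1 => fastSeq B n + incr B n (fastSeq B n)

theorem one_le_incr (B : ℝ≥0 → ℝ≥0) (n : ℕ) (a : ℝ≥0) : 1 ≤ incr B n a := by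
  unfold incr; split_ifs <;> simp

theorem fastSeq_succ (B : ℝ≥0 → ℝ≥0) (n : ℕ) :
    fastSeq B (n + 1) = fastSeq B n + incr B n (fastSeq B n) := rfl

theorem fastSeq_strictMono (B : ℝ≥0 → ℝ≥0) : StrictMono (fastSeq B) := by
  refine strictMono_nat_of_lt_succ fun n => ?_
  rw [fastSeq_succ]
  exact lt_add_of_pos_right _ (lt_of_lt_of_le one_pos (one_le_incr B n _))

theorem natCast_le_fastSeq (B : ℝ≥0 → ℝ≥0) (n : ℕ) : (n : ℝ≥0) ≤ fastSeq B n := by
  induction n with
  | zero => simp [fastSeq]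
  | succ n ih =>
    rw [fastSeq_succ]; push_cast
    exact add_le_add ih (one_le_incr B n _)

/-- The piecewise linear function. -/
noncomputable def fastFun (B : ℝ≥0 → ℝ≥0) (s : ℝ≥0) : ℝ≥0 :=
  fastSeq B ⌊s⌋₊ + (s - ⌊s⌋₊) * incr B ⌊s⌋₊ (fastSeq B ⌊s⌋₊)

theorem fastFun_lt (B : ℝ≥0 → ℝ≥0) (s : ℝ≥0) : fastFun B s < fastSeq B (⌊s⌋₊ + 1) := by
  rw [fastSeq_succ, fastFun]
  have h1 : s - ⌊s⌋₊ < 1 := by
    have h := Nat.lt_floor_add_one s
    rw [← NNReal.coe_lt_coe, NNReal.coe_sub (Nat.floor_le (zero_le)), sub_lt_iff_lt_add']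
    exact_mod_cast h
  have h2 : 0 < incr B ⌊s⌋₊ (fastSeq B ⌊s⌋₊) := lt_of_lt_of_le one_pos (one_le_incr B _ _)
  gcongr
  calc _ < 1 * incr B ⌊s⌋₊ (fastSeq B ⌊s⌋₊) := by gcongr
    _ = _ := one_mul _

theorem fastSeq_le (B : ℝ≥0 → ℝ≥0) (s : ℝ≥0) : fastSeq B ⌊s⌋₊ ≤ fastFun B s := by
  rw [fastFun]; exact le_add_of_nonneg_right (zero_le)

theorem fastFun_strictMono (B : ℝ≥0 → ℝ≥0) : StrictMono (fastFun B) := by
  intro s t hst
  rcases (Nat.floor_mono hst.le).lt_or_eq with h | h
  · exact (fastFun_lt B s).trans_le (((fastSeq_strictMono B).monotone h).trans (fastSeq_le B t))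
  · have h2 : 0 < incr B ⌊s⌋₊ (fastSeq B ⌊s⌋₊) := lt_of_lt_of_le one_pos (one_le_incr B _ _)
    unfold fastFun
    rw [← h]
    gcongr
    rw [← NNReal.coe_lt_coe, NNReal.coe_sub (Nat.floor_le (zero_le)),
      NNReal.coe_sub ((Nat.floor_le (zero_le)).trans hst.le)]
    have := NNReal.coe_lt_coe.2 hst
    linarith

theorem fastFun_natCast (B : ℝ≥0 → ℝ≥0) (n : ℕ) : fastFun B n = fastSeq B n := by
  simp [fastFun]

theorem fastFun_surjective (B : ℝ≥0 → ℝ≥0) : Function.Surjective (fastFun B) := by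
  intro t
  have hex : ∃ n : ℕ, t < fastSeq B (n + 1) := by
    obtain ⟨n, hn⟩ := exists_nat_gt t
    exact ⟨n, hn.trans_le ((natCast_le_fastSeq B n).trans
      ((fastSeq_strictMono B).monotone (Nat.le_succ n)))⟩
  classical
  set n := Nat.find hex with hn
  have h1 : t < fastSeq B (n + 1) := Nat.find_spec hex
  have h2 : fastSeq B n ≤ t := by
    rcases Nat.eq_zero_or_pos n with h0 | h0
    · rw [h0]; simp [fastSeq]
    · obtain ⟨k, hk⟩ := Nat.exists_eq_succ_of_ne_zero h0.ne'
      have := Nat.find_min hex (m := k) (by omega)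
      rw [hk]
      exact not_lt.1 this
  set d := incr B n (fastSeq B n) with hd
  have hd0 : 0 < d := lt_of_lt_of_le one_pos (one_le_incr B _ _)
  have hlt : (t - fastSeq B n) / d < 1 := by
    rw [div_lt_one hd0, ← NNReal.coe_lt_coe, NNReal.coe_sub h2, sub_lt_iff_lt_add']
    rw [fastSeq_succ] at h1
    exact_mod_cast h1
  refine ⟨n + (t - fastSeq B n) / d, ?_⟩
  have hfl : ⌊(n : ℝ≥0) + (t - fastSeq B n) / d⌋₊ = n := by
    rw [Nat.floor_eq_iff (zero_le)]
    refine ⟨le_add_of_nonneg_right (zero_le), ?_⟩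
    gcongr
  rw [fastFun, hfl, add_tsub_cancel_left, ← hd, div_mul_cancel₀ _ hd0.ne',
    add_tsub_cancel_of_le h2]

/-- The fast order isomorphism. -/
noncomputable def fastIso (B : ℝ≥0 → ℝ≥0) : ℝ≥0 ≃o ℝ≥0 :=
  StrictMono.orderIsoOfSurjective (fastFun B) (fastFun_strictMono B) (fastFun_surjective B)

theorem fastIso_apply (B : ℝ≥0 → ℝ≥0) (s : ℝ≥0) : fastIso B s = fastFun B s := rfl

theorem fastIso_eq_self (B : ℝ≥0 → ℝ≥0) {s : ℝ≥0} (hs : s ≤ 2) : fastIso B s = s := by
  rw [fastIso_apply]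
  have h1 : fastSeq B 1 = 1 := by simp [fastSeq, incr]
  have h2 : fastSeq B 2 = 2 := by
    rw [show (2 : ℕ) = 1 + 1 from rfl, fastSeq_succ, h1]; simp [incr]; norm_num
  rcases hs.lt_or_eq with h | h
  · have hf : ⌊s⌋₊ < 2 := by
      rw [Nat.floor_lt (zero_le)]; exact_mod_cast h
    unfold fastFun
    interval_cases hfs : ⌊s⌋₊
    · simp [fastSeq, incr]
    · have : (1 : ℝ≥0) ≤ s := by
        have := Nat.floor_le (zero_le (a := s))
        rw [hfs] at this; exact_mod_cast this
      rw [h1]; simp only [incr]; simp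
      exact add_tsub_cancel_of_le this
  · rw [h]
    have := fastFun_natCast B 2
    rw [h2] at this
    exact_mod_cast this

theorem le_fastIso_succ (B : ℝ≥0 → ℝ≥0) {n : ℕ} (hn : 2 ≤ n) :
    B (fastIso B n) ≤ fastIso B (n + 1) := by
  have h : fastIso B ((n : ℝ≥0) + 1) = fastSeq B (n + 1) := by
    rw [fastIso_apply, ← fastFun_natCast B (n + 1)]; push_cast; rfl
  rw [h, fastIso_apply, fastFun_natCast, fastSeq_succ, incr, if_neg (by omega)]
  calc B (fastSeq B n) ≤ 1 + B (fastSeq B n) := le_add_of_nonneg_left (zero_le)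
    _ ≤ _ := le_add_of_nonneg_left (zero_le)

end FastIso

section QuadIso

/-- The convex function `u + (u - 2)₊ ^ 2`. -/
noncomputable def quadFun (u : ℝ≥0) : ℝ≥0 := u + (u - 2) ^ 2

theorem quadFun_strictMono : StrictMono quadFun := by
  intro s t hst
  unfold quadFun
  have : s - 2 ≤ t - 2 := tsub_le_tsub_right hst.le 2
  exact add_lt_add_of_lt_of_le hst (pow_le_pow_left₀ (zero_le) this 2)

theorem quadFun_surjective : Function.Surjective quadFun := by
  intro t
  have hc : Continuous quadFun := by unfold quadFun; fun_prop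
  refine mem_range_of_exists_le_of_exists_ge hc ⟨0, ?_⟩ ⟨t, ?_⟩
  · simp [quadFun]
  · exact le_add_of_nonneg_right (zero_le)

/-- The order isomorphism `u + (u - 2)₊ ^ 2`. -/
noncomputable def quadIso : ℝ≥0 ≃o ℝ≥0 :=
  StrictMono.orderIsoOfSurjective quadFun quadFun_strictMono quadFun_surjective

theorem quadIso_apply (u : ℝ≥0) : quadIso u = u + (u - 2) ^ 2 := rfl

theorem quadIso_symm_eq_self {s : ℝ≥0} (hs : s ≤ 2) : quadIso.symm s = s := by
  rw [OrderIso.symm_apply_eq, quadIso_apply]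
  simp [tsub_eq_zero_of_le hs]

theorem quadIso_symm_le (s : ℝ≥0) : quadIso.symm s ≤ 2 + NNReal.sqrt s := by
  have h : s = quadIso (quadIso.symm s) := (quadIso.apply_symm_apply s).symm
  set u := quadIso.symm s with hu
  rw [h, quadIso_apply]
  have h1 : u - 2 ≤ NNReal.sqrt (u + (u - 2) ^ 2) := by
    rw [NNReal.le_sqrt_iff_sq_le]
    exact le_add_of_nonneg_left (zero_le)
  calc u ≤ 2 + (u - 2) := le_add_tsub
    _ ≤ _ := by gcongr

theorem quadIso_symm_add_le (s c : ℝ≥0) : quadIso.symm (s + c) ≤ quadIso.symm s + c := by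
  rw [OrderIso.symm_apply_le, quadIso_apply]
  have h : s = quadIso (quadIso.symm s) := (quadIso.apply_symm_apply s).symm
  set u := quadIso.symm s with hu
  rw [h, quadIso_apply]
  have : (u - 2) ^ 2 ≤ (u + c - 2) ^ 2 := by
    gcongr
    exact le_add_of_nonneg_right (zero_le)
  calc u + (u - 2) ^ 2 + c = u + c + (u - 2) ^ 2 := by ring
    _ ≤ _ := by gcongr

end QuadIso

section Contraction

/-- Existence of a radial profile below a given positive monotone function near `0` and equal to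
the identity far away. -/
theorem exists_profile (m : ℝ → ℝ) (hm : Monotone m) (hpos : ∀ s, 0 < s → 0 < m s) {r R : ℝ}
    (hr : 0 < r) (hrR : r < R) :
    ∃ ρ : ℝ≥0 ≃o ℝ≥0, (∀ s : ℝ≥0, 0 < s → (s : ℝ) ≤ r → (ρ s : ℝ) ≤ m s) ∧
      ∀ s : ℝ≥0, R ≤ s → ρ s = s := by
  set w : ℝ → ℝ := fun s => min (m s) 1 with hw
  have hwm : Monotone w := hm.min monotone_const
  have hwi : ∀ a b, IntervalIntegrable w MeasureTheory.volume a b := fun a b =>
    hwm.intervalIntegrable
  have hwpos : ∀ s, 0 < s → 0 < w s := fun s hs => lt_min (hpos s hs) one_pos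
  set c : ℝ := min 1 (1 / r) with hc
  have hcpos : 0 < c := lt_min one_pos (by positivity)
  have hc1 : c ≤ 1 := min_le_left _ _
  have hcr : c * r ≤ 1 := by
    calc c * r ≤ (1 / r) * r := by gcongr; exact min_le_right _ _
      _ = 1 := by field_simp
  set P : ℝ → ℝ := fun s => c * ∫ x in (0 : ℝ)..s, w x with hP
  have hPc : Continuous P := continuous_const.mul (intervalIntegral.continuous_primitive hwi 0)
  have hP0 : P 0 = 0 := by simp [hP]
  have hPlt : ∀ s t, 0 ≤ s → s < t → P s < P t := by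
    intro s t hs hst
    have h1 : (∫ x in (0 : ℝ)..t, w x) = (∫ x in (0 : ℝ)..s, w x) + ∫ x in s..t, w x :=
      (intervalIntegral.integral_add_adjacent_intervals (hwi _ _) (hwi _ _)).symm
    have h2 : 0 < ∫ x in s..t, w x :=
      intervalIntegral.intervalIntegral_pos_of_pos_on (hwi _ _)
        (fun x hx => hwpos x (hs.trans_lt hx.1)) hst
    simp only [hP, h1]
    nlinarith
  have hint : ∀ s, 0 ≤ s → ∀ M, (w s ≤ M) → ∫ x in (0 : ℝ)..s, w x ≤ s * M := by
    intro s hs M hM
    have : ∫ x in (0 : ℝ)..s, w x ≤ ∫ _x in (0 : ℝ)..s, M := by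
      apply intervalIntegral.integral_mono_on hs (hwi _ _) intervalIntegrable_const
      intro x hx
      exact (hwm hx.2).trans hM
    simpa using this
  have hPle : ∀ s, 0 ≤ s → P s ≤ s := by
    intro s hs
    have := hint s hs 1 (min_le_right _ _)
    simp only [hP]
    rw [mul_one] at this
    calc c * ∫ x in (0 : ℝ)..s, w x ≤ c * s := by gcongr
      _ ≤ 1 * s := by gcongr
      _ = s := one_mul s
  have hPm : ∀ s, 0 < s → s ≤ r → P s ≤ m s := by
    intro s hs hsr
    have h1 := hint s hs.le (m s) (min_le_left _ _)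
    have h2 := hpos s hs
    simp only [hP]
    calc c * ∫ x in (0 : ℝ)..s, w x ≤ c * (s * m s) := by gcongr
      _ = (c * s) * m s := by ring
      _ ≤ (c * r) * m s := by gcongr
      _ ≤ 1 * m s := by gcongr
      _ = m s := one_mul _
  set k : ℝ := R / (R - r) with hk
  have hRr : 0 < R - r := sub_pos.2 hrR
  have hkpos : 0 < k := div_pos (hr.trans hrR) hRr
  set α : ℝ → ℝ := fun s => min s ((max (s - r) 0) * k) with hα
  have hαc : Continuous α := by simp only [hα]; fun_prop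
  have hαr : ∀ s, 0 ≤ s → s ≤ r → α s = 0 := by
    intro s hs hsr
    simp only [hα]
    rw [max_eq_right (by linarith), zero_mul, min_eq_right hs]
  have hαR : ∀ s, R ≤ s → α s = s := by
    intro s hs
    simp only [hα]
    rw [max_eq_left (by linarith)]
    apply min_eq_left
    rw [hk, ← mul_div_assoc, le_div_iff₀ hRr]
    nlinarith
  have hαlt : ∀ s t, r ≤ s → s < t → α s < α t := by
    intro s t hs hst
    simp only [hα]
    rw [max_eq_left (by linarith), max_eq_left (by linarith)]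
    refine lt_min ((min_le_left _ _).trans_lt hst) ((min_le_right _ _).trans_lt ?_)
    gcongr
  set f : ℝ → ℝ := fun s => max (P s) (α s) with hf
  have hfc : Continuous f := hPc.max hαc
  have hf0 : f 0 = 0 := by simp only [hf]; rw [hP0, hαr 0 le_rfl hr.le, max_self]
  have hflt : ∀ s t, 0 ≤ s → s < t → f s < f t := by
    intro s t hs hst
    simp only [hf]
    refine max_lt ((hPlt s t hs hst).trans_le (le_max_left _ _)) ?_
    rcases le_or_gt s r with h | h
    · rw [hαr s hs h]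
      have : 0 < P t := by rw [← hP0]; exact hPlt 0 t le_rfl (hs.trans_lt hst)
      exact this.trans_le (le_max_left _ _)
    · exact (hαlt s t h.le hst).trans_le (le_max_right _ _)
  have hfnn : ∀ s, 0 ≤ s → 0 ≤ f s := by
    intro s hs
    rcases hs.eq_or_lt with h | h
    · rw [← h, hf0]
    · rw [← hf0]; exact (hflt 0 s le_rfl h).le
  have hfR : ∀ s, R ≤ s → f s = s := by
    intro s hs
    simp only [hf]
    rw [hαR s hs]
    exact max_eq_right (hPle s (by linarith))
  let F : ℝ≥0 → ℝ≥0 := fun s => ⟨f s, hfnn s s.2⟩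
  have hFc : Continuous F := by
    apply Continuous.subtype_mk
    exact hfc.comp NNReal.continuous_coe
  have hFm : StrictMono F := by
    intro s t hst
    rw [← NNReal.coe_lt_coe]
    exact hflt s t s.2 (NNReal.coe_lt_coe.2 hst)
  have hFs : Function.Surjective F := by
    intro t
    refine mem_range_of_exists_le_of_exists_ge hFc ⟨0, ?_⟩ ⟨max t R.toNNReal, ?_⟩
    · rw [← NNReal.coe_le_coe]
      change f 0 ≤ t
      rw [hf0]; exact t.2
    · rw [← NNReal.coe_le_coe]
      change (t : ℝ) ≤ f _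
      rw [hfR]
      · exact_mod_cast le_max_left _ _
      · calc R ≤ (R.toNNReal : ℝ) := Real.le_coe_toNNReal R
          _ ≤ _ := by exact_mod_cast le_max_right _ _
  refine ⟨StrictMono.orderIsoOfSurjective F hFm hFs, ?_, ?_⟩
  · intro s hs hsr
    change f s ≤ m s
    simp only [hf]
    rw [hαr s s.2 hsr]
    exact max_le (hPm s hs hsr) (hpos s hs).le
  · intro s hs
    ext
    change f s = s
    exact hfR s hs

/-- The single contraction lemma. -/
theorem exists_contraction {S : Set ℂ} {Φ : ℂ → ℂ} {v : ℂ} (hv : v ∈ S) {r R : ℝ} (hrR : r < R)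
    (hcont : ContinuousWithinAt Φ S v) (hΦ : ∀ x ∈ S, ‖Φ x - v‖ ≤ r) :
    ∃ γ : ℂ ≃ₜ ℂ, (∀ y, R ≤ ‖y - v‖ → γ y = y) ∧ ∀ x ∈ S, ‖γ (Φ x) - v‖ ≤ (1 / 2) * ‖x - v‖ := by
  have hr0 : 0 ≤ r := (norm_nonneg _).trans (hΦ v hv)
  obtain ⟨r', hr', hr'R⟩ := exists_between hrR
  have hr'0 : 0 < r' := hr0.trans_lt hr'
  obtain ⟨γ₁, hγv, hγoff⟩ := exists_push v (Φ v) r' ((hΦ v hv).trans_lt hr')
  have hγin : ∀ y, ‖y - v‖ < r' → ‖γ₁ y - v‖ < r' := by
    intro y hy
    have := maps_of_eq_off (F := γ₁) (K := {y | ‖y - v‖ < r'})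
      (fun y hy => hγoff y (not_lt.1 hy)) hy
    exact this
  set d : ℂ → ℝ := fun x => ‖γ₁ (Φ x) - v‖ with hd
  have hdlt : ∀ x ∈ S, d x < r' := fun x hx => hγin _ ((hΦ x hx).trans_lt hr')
  set T : ℝ → Set ℝ := fun s => {1} ∪ {t | ∃ x ∈ S, s ≤ d x ∧ t = (1 / 2) * ‖x - v‖} with hT
  have hTbdd : ∀ s, BddBelow (T s) := by
    intro s
    refine ⟨0, ?_⟩
    rintro t (ht | ⟨x, _, _, rfl⟩)
    · rw [ht]; exact zero_le_one
    · positivity
  have hTne : ∀ s, (T s).Nonempty := fun s => ⟨1, Or.inl rfl⟩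
  set m : ℝ → ℝ := fun s => sInf (T s) with hm
  have hmono : Monotone m := by
    intro s t hst
    apply csInf_le_csInf (hTbdd s) (hTne t)
    rintro u (hu | ⟨x, hx, hxd, rfl⟩)
    · exact Or.inl hu
    · exact Or.inr ⟨x, hx, hst.trans hxd, rfl⟩
  have hpos : ∀ s, 0 < s → 0 < m s := by
    intro s hs
    have hdc : ContinuousWithinAt d S v := by
      simp only [hd]
      exact ((γ₁.continuous.continuousAt.comp_continuousWithinAt hcont).sub
        continuousWithinAt_const).norm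
    have hdv : d v = 0 := by simp [hd, hγv]
    have h1 : ∀ᶠ x in 𝓝[S] v, d x < s := by
      have := hdc.eventually_lt_const (u := s) (by rw [hdv]; exact hs)
      exact this
    rw [eventually_nhdsWithin_iff, Metric.eventually_nhds_iff] at h1
    obtain ⟨δ, hδ, h2⟩ := h1
    have : min 1 (δ / 2) ≤ m s := by
      apply le_csInf (hTne s)
      rintro u (hu | ⟨x, hx, hxd, rfl⟩)
      · rw [hu]; exact min_le_left _ _
      · by_contra hlt
        push Not at hlt
        have h3 : dist x v < δ := by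
          rw [dist_eq_norm]
          have := hlt.trans_le (min_le_right 1 (δ / 2))
          linarith
        exact absurd (h2 h3 hx) (not_lt.2 hxd)
    exact (lt_min one_pos (by positivity)).trans_le this
  obtain ⟨ρ, hρm, hρR⟩ := exists_profile m hmono hpos hr'0 hr'R
  refine ⟨γ₁.trans ((Homeomorph.addRight (-v)).trans
    ((radial ρ).trans (Homeomorph.addRight v))), ?_, ?_⟩
  · intro y hy
    have h1 : γ₁ y = y := hγoff y (hr'R.le.trans hy)
    have h2 : radial ρ (y + -v) = y + -v := by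
      apply radial_eq_self
      apply hρR
      rw [coe_nnnorm, ← sub_eq_add_neg]; exact hy
    simp only [Homeomorph.trans_apply, Homeomorph.coe_addRight, h1, h2]
    ring
  · intro x hx
    have : (γ₁.trans ((Homeomorph.addRight (-v)).trans
        ((radial ρ).trans (Homeomorph.addRight v)))) (Φ x) - v = radial ρ (γ₁ (Φ x) - v) := by
      simp only [Homeomorph.trans_apply, Homeomorph.coe_addRight, sub_eq_add_neg]
      ring
    rw [this, norm_radial]
    rcases eq_or_ne (γ₁ (Φ x) - v) 0 with h0 | h0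
    · rw [h0]; simp [orderIso_zero]
    · have h1 : 0 < ‖γ₁ (Φ x) - v‖₊ := nnnorm_pos.2 h0
      refine (hρm _ h1 (hdlt x hx).le).trans ?_
      apply csInf_le (hTbdd _)
      exact Or.inr ⟨x, hx, le_rfl, rfl⟩

end Contraction

end Pool.Agent.Lib.MP_c6d336_gt
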