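import Pool.Agent.Lib.MP_c6d336_gt.Riemann

/-!
# Stable homeomorphisms of the Riemann sphere
-/

namespace Pool.Agent.Lib.MP_c6d336_gt

open Set Filter Topology NNReal OnePoint

/-- Homeomorphisms which are the identity near some point. -/
def localSet : Set (X ≃ₜ X) := {f | ∃ x, ∀ᶠ y in 𝓝 x, f y = y}

/-- The group of stable homeomorphisms. -/
noncomputable def stab : Subgroup (X ≃ₜ X) := Subgroup.normalClosure localSet

instance : stab.Normal := Subgroup.normalClosure_normal

theorem mem_stab_of_local {f : X ≃ₜ X} (x : X) (h : ∀ᶠ y in 𝓝 x, f y = y) : f ∈ stab :=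
  Subgroup.subset_normalClosure ⟨x, h⟩

theorem conj_mem_stab {f : X ≃ₜ X} (hf : f ∈ stab) (g : X ≃ₜ X) : g * f * g⁻¹ ∈ stab :=
  Subgroup.Normal.conj_mem inferInstance f hf g

theorem localSet_conj {f : X ≃ₜ X} (hf : f ∈ localSet) (g : X ≃ₜ X) : g * f * g⁻¹ ∈ localSet := by
  obtain ⟨x, hx⟩ := hf
  refine ⟨g x, ?_⟩
  have h1 : Tendsto g.symm (𝓝 (g x)) (𝓝 x) := by
    have := g.symm.continuous.tendsto (g x)
    rwa [g.symm_apply_apply] at this
  filter_upwards [h1.eventually hx] with w hw
  change g (f (g.symm w)) = w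
  rw [hw, g.apply_symm_apply]

theorem stab_eq : stab = Subgroup.closure localSet := by
  unfold stab Subgroup.normalClosure
  congr 1
  apply Subset.antisymm
  · intro f hf
    rw [Group.mem_conjugatesOfSet_iff] at hf
    obtain ⟨a, ha, hc⟩ := hf
    rw [isConj_iff] at hc
    obtain ⟨c, rfl⟩ := hc
    exact localSet_conj ha c
  · exact Group.subset_conjugatesOfSet

/-- push map on the sphere near the origin -/
theorem exists_push_zero {a : ℂ} (ha : ‖a‖ < 1 / 2) :
    ∃ F : X ≃ₜ X, F ∈ stab ∧ F a = ((0 : ℂ) : X) ∧ F ∞ = ∞ ∧ ∀ z : ℂ, 1 / 2 ≤ ‖z‖ → F z = z := by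
  obtain ⟨f, hf1, hf2⟩ := exists_push 0 a (1 / 2) (by rwa [sub_zero])
  refine ⟨ext f, ?_, by rw [ext_coe, hf1], rfl, fun z hz => ?_⟩
  · apply mem_stab_of_local ∞
    refine eventually_nhds_infty (R := 1 / 2) rfl fun z hz => ?_
    rw [ext_coe, hf2 z (by rw [sub_zero]; exact hz.le)]
  · rw [ext_coe, hf2 z (by rwa [sub_zero])]

theorem small_mem (g : X ≃ₜ X) (h0 : ∃ a : ℂ, g ((0 : ℂ) : X) = a ∧ ‖a‖ < 1 / 2)
    (hi : ∃ b : ℂ, inv (g ∞) = b ∧ ‖b‖ < 1 / 2)
    (h1 : ∀ w : ℂ, ‖w‖ = 1 → ∃ a : ℂ, g w = a ∧ ‖a - w‖ < 1 / 4) : g ∈ stab := by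
  obtain ⟨a, ha, ha'⟩ := h0
  obtain ⟨b, hb, hb'⟩ := hi
  obtain ⟨F₀, hF₀, hF₀a, hF₀i, hF₀off⟩ := exists_push_zero ha'
  obtain ⟨F₁, hF₁, hF₁b, hF₁i, hF₁off⟩ := exists_push_zero hb'
  -- the push near infinity
  set G : X ≃ₜ X := inv * F₁ * inv with hG
  have hGmem : G ∈ stab := by
    have := conj_mem_stab hF₁ inv
    have h2 : (inv : X ≃ₜ X)⁻¹ = inv := rfl
    rwa [h2] at this
  have hGi : G (g ∞) = ∞ := by
    simp only [hG, Homeomorph.mul_apply, hb, hF₁b, inv_zero']
  have hGz : ∀ z : ℂ, ‖z‖ ≤ 2 → G z = z := by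
    intro z hz
    simp only [hG, Homeomorph.mul_apply]
    by_cases hz0 : z = 0
    · subst hz0; rw [inv_zero', hF₁i, inv_infty]
    · rw [inv_coe hz0, hF₁off, ← inv_coe hz0, inv_inv']
      rw [norm_inv, le_inv_comm₀ (by norm_num) (norm_pos_iff.2 hz0)]
      norm_num
      exact hz
  set k : X ≃ₜ X := F₀ * G * g with hk
  have hki : k ∞ = ∞ := by
    simp only [hk, Homeomorph.mul_apply, hGi, hF₀i]
  have hk0 : k ((0 : ℂ) : X) = ((0 : ℂ) : X) := by
    simp only [hk, Homeomorph.mul_apply, ha]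
    rw [hGz a (by linarith), hF₀a]
  obtain ⟨f, hf⟩ := exists_restrict k hki
  have hf0 : f 0 = 0 := by
    apply coe_injective
    rw [← ext_coe, ← hf, hk0]
  have hf1 : ∀ w : ℂ, ‖w‖ = 1 → ‖f w - w‖ < 1 / 4 := by
    intro w hw
    obtain ⟨c, hc, hc'⟩ := h1 w hw
    have hcn : 3 / 4 < ‖c‖ := by
      have := norm_sub_norm_le w c
      rw [norm_sub_rev] at this
      linarith
    have hcn' : ‖c‖ < 5 / 4 := by
      have := norm_sub_norm_le c w
      linarith
    have : f w = c := by
      apply coe_injective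
      rw [← ext_coe, ← hf]
      simp only [hk, Homeomorph.mul_apply, hc]
      rw [hGz c (by linarith), hF₀off c (by linarith)]
    rw [this]; exact hc'
  obtain ⟨s, hs1, hs0⟩ := exists_local_homeo f hf0 hf1
  have hsmem : ext s ∈ stab := by
    apply mem_stab_of_local ((0 : ℂ) : X)
    refine (nhds_coe_iff (a := 0)).2 ?_
    filter_upwards [hs0] with w hw
    rw [ext_coe, hw]
  have hsk : (ext s)⁻¹ * k ∈ stab := by
    apply mem_stab_of_local ((1 : ℂ) : X)
    refine (nhds_coe_iff (a := 1)).2 ?_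
    filter_upwards [hs1] with w hw
    rw [hf]
    simp only [Homeomorph.mul_apply, Homeomorph.inv_apply, ext_coe, ext_symm_coe]
    rw [← hw, s.symm_apply_apply]
  have hkmem : k ∈ stab := by
    have := stab.mul_mem hsmem hsk
    rwa [mul_inv_cancel_left] at this
  have : g = (F₀ * G)⁻¹ * k := by rw [hk, inv_mul_cancel_left]
  rw [this]
  exact stab.mul_mem (stab.inv_mem (stab.mul_mem hF₀ hGmem)) hkmem

/-- Isotopies starting at the identity stay in the stable group. -/
theorem isotopy_mem (H : unitInterval → X ≃ₜ X)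
    (hH : Continuous fun p : unitInterval × X => H p.1 p.2) (h0 : H 0 = 1) (t : unitInterval) :
    H t ∈ stab := by
  have key : ∀ s t : unitInterval, H t * (H s)⁻¹ ∈ stab := by
    intro s t
    refine isPreconnected_univ.induction₂ (fun s t => H t * (H s)⁻¹ ∈ stab) ?_ ?_ ?_
      (mem_univ s) (mem_univ t)
    · intro s _
      rw [nhdsWithin_univ]
      have hc : ∀ y : X, Continuous fun t => (H t * (H s)⁻¹) y := by
        intro y
        exact hH.comp (Continuous.prodMk continuous_id continuous_const)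
      have hs : H s * (H s)⁻¹ = 1 := mul_inv_cancel _
      have hU : IsOpen (((↑) : ℂ → X) '' {a : ℂ | ‖a‖ < 1 / 2}) :=
        isOpenMap_coe _ (isOpen_lt continuous_norm continuous_const)
      have e1 : ∀ᶠ t in 𝓝 s, (H t * (H s)⁻¹) ((0 : ℂ) : X) ∈ (((↑) : ℂ → X) '' {a : ℂ | ‖a‖ < 1 / 2}) := by
        apply (hc _).continuousAt.eventually_mem
        apply hU.mem_nhds
        rw [hs]
        exact ⟨0, by simp, rfl⟩
      have e2 : ∀ᶠ t in 𝓝 s, inv ((H t * (H s)⁻¹) ∞) ∈ (((↑) : ℂ → X) '' {a : ℂ | ‖a‖ < 1 / 2}) := by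
        apply (inv.continuous.comp (hc _)).continuousAt.eventually_mem
        apply hU.mem_nhds
        simp only [Function.comp_apply]
        rw [hs]
        exact ⟨0, by simp, rfl⟩
      have e3 : ∀ᶠ t in 𝓝 s, ∀ w ∈ Metric.sphere (0 : ℂ) 1,
          ∃ a : ℂ, (H t * (H s)⁻¹) w = a ∧ ‖a - w‖ < 1 / 4 := by
        apply (isCompact_sphere (0 : ℂ) 1).eventually_forall_of_forall_eventually
        intro w _
        have hW : IsOpen ((Prod.map ((↑) : ℂ → X) (id : ℂ → ℂ)) '' {p : ℂ × ℂ | ‖p.1 - p.2‖ < 1 / 4}) := by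
          apply (isOpenMap_coe.prodMap IsOpenMap.id)
          exact isOpen_lt (by fun_prop) continuous_const
        have hcc : Continuous fun p : unitInterval × ℂ =>
            ((H p.1 * (H s)⁻¹) (p.2 : X), p.2) := by
          refine Continuous.prodMk ?_ continuous_snd
          have : Continuous fun p : unitInterval × ℂ => (p.1, (H s).symm (p.2 : X)) :=
            continuous_fst.prodMk ((H s).symm.continuous.comp (continuous_coe.comp continuous_snd))
          exact hH.comp this
        have := hcc.continuousAt.eventually_mem (x := (s, w)) (hW.mem_nhds (by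
          rw [hs]
          exact ⟨(w, w), by simp, rfl⟩))
        filter_upwards [this] with p hp
        obtain ⟨⟨a, b⟩, hab, heq⟩ := hp
        simp only [Prod.map_apply, id, Prod.mk.injEq] at heq
        refine ⟨a, heq.1.symm, ?_⟩
        rw [← heq.2]; exact hab
      filter_upwards [e1, e2, e3] with t h1 h2 h3
      obtain ⟨a, ha, ha'⟩ := h1
      obtain ⟨b, hb, hb'⟩ := h2
      exact small_mem _ ⟨a, ha'.symm, ha⟩ ⟨b, hb'.symm, hb⟩
        (fun w hw => h3 w (by rwa [mem_sphere_zero_iff_norm]))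
    · intro x y z _ _ _ hxy hyz
      have := stab.mul_mem hyz hxy
      rwa [mul_assoc, inv_mul_cancel_left] at this
    · intro x y _ _ hxy
      have := stab.inv_mem hxy
      rwa [mul_inv_rev, inv_inv] at this
  have := key 0 t
  rwa [h0, inv_one, mul_one] at this

/-! ### Rotations and the inversion are stable -/

/-- twisting homeomorphism -/
noncomputable def twist (c : ℝ → ℂ) (hc : Continuous c) (hn : ∀ t, ‖c t‖ = 1) : ℂ ≃ₜ ℂ where
  toFun z := c ‖z‖ * z
  invFun z := (c ‖z‖)⁻¹ * z
  left_inv z := by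
    have h0 : c ‖z‖ ≠ 0 := by
      intro h; have := hn ‖z‖; rw [h, norm_zero] at this; exact zero_ne_one this
    beta_reduce
    rw [norm_mul, hn, one_mul, inv_mul_cancel_left₀ h0]
  right_inv z := by
    have h0 : c ‖z‖ ≠ 0 := by
      intro h; have := hn ‖z‖; rw [h, norm_zero] at this; exact zero_ne_one this
    beta_reduce
    rw [norm_mul, norm_inv, hn, inv_one, one_mul, mul_inv_cancel_left₀ h0]
  continuous_toFun := by fun_prop
  continuous_invFun := by
    refine Continuous.mul (Continuous.inv₀ (by fun_prop) fun z => ?_) continuous_id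
    intro h; have := hn ‖z‖; rw [h, norm_zero] at this; exact zero_ne_one this

theorem neg_mem_stab : ext (Homeomorph.neg ℂ) ∈ stab := by
  set c : ℝ → ℂ := fun t => Complex.exp ((Real.pi * max 0 (min 1 (t - 1)) : ℝ) * Complex.I) with hc
  have hcc : Continuous c := by simp only [hc]; fun_prop
  have hn : ∀ t, ‖c t‖ = 1 := fun t => Complex.norm_exp_ofReal_mul_I _
  set T := twist c hcc hn with hT
  have hTz : ∀ z, T z = c ‖z‖ * z := fun z => rfl
  have h1 : ext T ∈ stab := by
    apply mem_stab_of_local ((0 : ℂ) : X)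
    refine (nhds_coe_iff (a := 0)).2 ?_
    have : ∀ᶠ z : ℂ in 𝓝 0, ‖z‖ < 1 := by
      apply continuous_norm.continuousAt.eventually_lt_const; simp
    filter_upwards [this] with z hz
    rw [ext_coe, hTz]
    have : c ‖z‖ = 1 := by
      simp only [hc]
      rw [min_eq_right (by linarith), max_eq_left (by linarith)]
      simp
    rw [this, one_mul]
  have h2 : (ext T)⁻¹ * ext (Homeomorph.neg ℂ) ∈ stab := by
    apply mem_stab_of_local ∞
    refine eventually_nhds_infty (R := 2) rfl fun z hz => ?_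
    simp only [Homeomorph.mul_apply, Homeomorph.inv_apply, ext_coe]
    rw [(ext T).symm_apply_eq, ext_coe, hTz]
    have : c ‖z‖ = -1 := by
      simp only [hc]
      rw [min_eq_left (by linarith), max_eq_right (by linarith)]
      simp
    rw [this]; simp
  have := stab.mul_mem h1 h2
  rwa [mul_inv_cancel_left] at this

theorem inv_mem_stab : inv ∈ stab := by
  set m : X ≃ₜ X := ext (Homeomorph.addRight 1) * ext (Homeomorph.mulLeft₀ (-2 : ℂ) (by norm_num)) *
    inv * ext (Homeomorph.addRight 1) with hm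
  have hinf : m ∞ = ((1 : ℂ) : X) := by
    simp [hm]
  have hneg1 : m ((-1 : ℂ) : X) = ∞ := by
    simp [hm]
  have hz : ∀ z : ℂ, z ≠ -1 → m z = (((z - 1) / (z + 1) : ℂ) : X) := by
    intro z hz
    have hz1 : z + 1 ≠ 0 := fun h => hz (eq_neg_of_add_eq_zero_left h)
    simp only [hm, Homeomorph.mul_apply, ext_coe, Homeomorph.coe_addRight]
    rw [inv_coe hz1, ext_coe, ext_coe]
    congr 1
    simp only [Homeomorph.coe_mulLeft₀, Homeomorph.coe_addRight]
    field_simp
    ring
  have key : m * inv = ext (Homeomorph.neg ℂ) * m := by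
    ext x
    simp only [Homeomorph.mul_apply]
    induction x using OnePoint.rec with
    | infty =>
      rw [inv_infty, hinf, hz 0 (by norm_num), ext_coe]
      norm_num
    | coe z =>
      by_cases h0 : z = 0
      · subst h0
        rw [inv_zero', hinf, hz 0 (by norm_num), ext_coe]
        norm_num
      · by_cases h1 : z = -1
        · subst h1
          rw [inv_coe h0, hneg1, ext_infty, show (-1 : ℂ)⁻¹ = -1 by norm_num, hneg1]
        · have h2 : z⁻¹ ≠ -1 := by
            intro h
            apply h1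
            rw [← inv_inv z, h]; norm_num
          have h3 : z + 1 ≠ 0 := fun h => h1 (eq_neg_of_add_eq_zero_left h)
          rw [inv_coe h0, hz _ h2, hz _ h1, ext_coe]
          congr 1
          simp only [Homeomorph.coe_neg]
          have h4 : z⁻¹ + 1 ≠ 0 := by
            have : z⁻¹ + 1 = (z + 1) / z := by field_simp; ring
            rw [this]; exact div_ne_zero h3 h0
          have h5 : 1 + z ≠ 0 := by rwa [add_comm]
          field_simp
          ring
  have h1 : inv = m⁻¹ * ext (Homeomorph.neg ℂ) * m⁻¹⁻¹ := by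
    rw [inv_inv, mul_assoc, ← key, inv_mul_cancel_left]
  rw [h1]
  exact conj_mem_stab neg_mem_stab _

end Pool.Agent.Lib.MP_c6d336_gt
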