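import Pool.Agent.Lib.MP_c6d336_gt.Core2

/-!
# Every non-trivial stable homeomorphism is a product of three conjugates of any other
-/

namespace Pool.Agent.Lib.MP_c6d336_gt

open Set Filter Topology NNReal OnePoint

theorem bwd {A B : X ≃ₜ X} {δ : ℝ} (hδ : 0 < δ) (hδ1 : δ < 1) (hA : InvOn δ A) (hB : InvOn δ B)
    (w : ℂ) (hw : ‖w‖ ≤ δ⁻¹) : ∃ u : ℂ, B.symm ((resc δ hδ A).symm w) = u ∧ ‖u‖ < δ := by
  have h3 : (resc δ hδ A).symm w ∉ EE δ := by
    intro hc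
    have h4 := (resc_mem_D1_iff hδ hA _).2 hc
    rw [Homeomorph.apply_symm_apply, coe_mem_D1] at h4
    have := lt_inv_cube hδ hδ1
    linarith
  have h4 : B.symm ((resc δ hδ A).symm w) ∉ DD δ := by
    intro hc
    rw [← hB.mem_EE_iff hδ, B.apply_symm_apply] at hc
    exact h3 hc
  simp only [DD, mem_compl_iff, not_not] at h4
  obtain ⟨u, hu, hu'⟩ := h4
  exact ⟨u, hu'.symm, by simpa using hu⟩

theorem exists_g2 {A B : X ≃ₜ X} {δ : ℝ} (hδ : 0 < δ) (hδ1 : δ < 1) (hA : InvOn δ A)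
    (hB : InvOn δ B) :
    ∃ γ : ℂ ≃ₜ ℂ, (∀ y : ℂ, 2 * δ ≤ ‖y‖ → γ y = y) ∧ ∀ w : ℂ, ‖w‖ ≤ δ⁻¹ →
      ‖γ (toC (B.symm ((resc δ hδ A).symm w)))‖ ≤ (1 / 2) * ‖w‖ := by
  have hδi : 0 ≤ δ⁻¹ := inv_nonneg.2 hδ.le
  have hcont : ContinuousWithinAt (fun w : ℂ => toC (B.symm ((resc δ hδ A).symm w)))
      (Metric.closedBall 0 δ⁻¹) 0 := by
    apply ContinuousAt.continuousWithinAt
    obtain ⟨u, hu, -⟩ := bwd hδ hδ1 hA hB 0 (by simpa using hδi)
    have hc : ContinuousAt (fun w : ℂ => B.symm ((resc δ hδ A).symm (w : X))) 0 :=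
      (B.symm.continuous.comp
        ((resc δ hδ A).symm.continuous.comp OnePoint.continuous_coe)).continuousAt
    refine ContinuousAt.comp (g := toC) ?_ hc
    apply continuousAt_toC
    rw [hu]; exact coe_ne_infty u
  have hbd : ∀ w ∈ Metric.closedBall (0 : ℂ) δ⁻¹,
      ‖toC (B.symm ((resc δ hδ A).symm w)) - 0‖ ≤ δ := by
    intro w hw
    obtain ⟨u, hu, hu'⟩ := bwd hδ hδ1 hA hB w (by simpa using hw)
    rw [hu, toC_coe, sub_zero]
    exact hu'.le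
  obtain ⟨γ, h1, h2⟩ := exists_contraction (S := Metric.closedBall 0 δ⁻¹)
    (Φ := fun w => toC (B.symm ((resc δ hδ A).symm w))) (v := 0) (r := δ) (R := 2 * δ)
    (by simpa using hδi) (by linarith) hcont hbd
  refine ⟨γ, fun y hy => h1 y (by rwa [sub_zero]), fun w hw => ?_⟩
  have := h2 w (by simpa using hw)
  simpa using this

theorem InvOn.mono {δ δ' : ℝ} {A : X ≃ₜ X} (h : InvOn δ A) (hle : δ' ≤ δ) : InvOn δ' A :=
  fun z hz => h z (hz.trans hle)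

theorem exists_invOn {A : X ≃ₜ X} (hA : ∀ᶠ z in 𝓝 ((0 : ℂ) : X), A z = inv z) :
    ∃ δ : ℝ, 0 < δ ∧ InvOn δ A := by
  have h1 := (nhds_coe_iff (P := fun z => A z = inv z) (a := 0)).1 hA
  obtain ⟨ε, hε, hε'⟩ := Metric.eventually_nhds_iff.1 h1
  refine ⟨ε / 2, by positivity, fun z hz => hε' ?_⟩
  rw [dist_zero_right]; linarith

theorem lemmaM_nf {A B : X ≃ₜ X} (hA : ∀ᶠ z in 𝓝 ((0 : ℂ) : X), A z = inv z)
    (hB : ∀ᶠ z in 𝓝 ((0 : ℂ) : X), B z = inv z)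
    (hcase : (∃ q : ℂ, q ≠ 0 ∧ B ∞ = q) ∨ (A * A = 1 ∧ B * B = 1)) :
    ∃ δ₀ : ℝ, 0 < δ₀ ∧ ∀ (δ : ℝ) (hδ : 0 < δ), δ ≤ δ₀ →
      ∃ h ψ : X ≃ₜ X, h * A * h⁻¹ * B = ψ * Lam δ hδ * ψ⁻¹ := by
  obtain ⟨δA, hδA, hA'⟩ := exists_invOn hA
  obtain ⟨δB, hδB, hB'⟩ := exists_invOn hB
  rcases hcase with ⟨q, hq, hBq⟩ | ⟨hAA, hBB⟩
  · set s := ‖q‖ with hs
    have hspos : 0 < s := norm_pos_iff.2 hq
    have hBc : ∀ᶠ x in 𝓝 (∞ : X), ∃ u : ℂ, B x = u ∧ ‖u - q‖ ≤ s / 4 := by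
      have hU : IsOpen (((↑) : ℂ → X) '' Metric.ball q (s / 4)) :=
        isOpenMap_coe _ Metric.isOpen_ball
      have : ∀ᶠ x in 𝓝 (∞ : X), B x ∈ (((↑) : ℂ → X) '' Metric.ball q (s / 4)) := by
        apply B.continuous.continuousAt.eventually_mem
        apply hU.mem_nhds
        rw [hBq]
        exact ⟨q, Metric.mem_ball_self (by positivity), rfl⟩
      filter_upwards [this] with x hx
      obtain ⟨u, hu, hu'⟩ := hx
      exact ⟨u, hu'.symm, by rw [mem_ball_iff_norm] at hu; exact hu.le⟩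
    obtain ⟨hBi, R, hR, hBR⟩ := exists_of_eventually_infty hBc
    refine ⟨min (min δA δB) (min (min (1 / 2) (s / 4)) (min (1 / (2 * s)) (1 / R))),
      by positivity, fun δ hδ hle => ?_⟩
    simp only [le_min_iff] at hle
    obtain ⟨⟨hdA, hdB⟩, ⟨hd2, hds⟩, hds2, hdR⟩ := hle
    have hδ1 : δ < 1 := by linarith
    have hA'' := hA'.mono hdA
    have hB'' := hB'.mono hdB
    have hinv1 : 2 * s ≤ δ⁻¹ := by
      rw [le_inv_comm₀ (by positivity) hδ]; rwa [one_div] at hds2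
    have hinv2 : R ≤ δ⁻¹ := by
      rw [le_inv_comm₀ hR hδ]; rwa [one_div] at hdR
    have hinv3 : 2 ≤ δ⁻¹ := by
      rw [le_inv_comm₀ (by norm_num) hδ]; rwa [one_div] at hd2
    have hcube := lt_inv_cube hδ hδ1
    have fwd : ∀ w : ℂ, ‖w‖ ≤ δ⁻¹ → ∃ u : ℂ, B (resc δ hδ A w) = u ∧ ‖u - q‖ ≤ s / 4 := by
      intro w hw
      have h1 : resc δ hδ A w ∈ D1 δ := (resc_mem_D1_iff hδ hA'' _).2 (coe_mem_EE.2 hw)
      generalize resc δ hδ A w = y at h1 ⊢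
      induction y using OnePoint.rec with
      | infty => exact hBi
      | coe z => exact hBR z (by rw [coe_mem_D1] at h1; linarith)
    obtain ⟨γ₁, h11, h12⟩ := exists_contraction (S := Metric.closedBall 0 δ⁻¹)
      (Φ := fun w => toC (B (resc δ hδ A w))) (v := q) (r := s / 4) (R := s / 2)
      (by rw [mem_closedBall_zero_iff]; linarith) (by linarith)
      (by
        apply ContinuousAt.continuousWithinAt
        obtain ⟨u, hu, -⟩ := fwd q (by linarith)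
        have hc : ContinuousAt (fun w : ℂ => B (resc δ hδ A (w : X))) q :=
          (B.continuous.comp ((resc δ hδ A).continuous.comp OnePoint.continuous_coe)).continuousAt
        refine ContinuousAt.comp (g := toC) ?_ hc
        apply continuousAt_toC
        rw [hu]; exact coe_ne_infty u)
      (by
        intro w hw
        obtain ⟨u, hu, hu'⟩ := fwd w (by simpa using hw)
        rw [hu, toC_coe]
        exact hu')
    obtain ⟨γ₂, h21, h22⟩ := exists_g2 hδ hδ1 hA'' hB''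
    apply core hδ hδ1 hA'' hB'' (γ₂.trans γ₁) q 0 (by linarith) (by rw [norm_zero]; linarith)
    · intro z hz
      rw [Homeomorph.trans_apply, h21 z (by linarith)]
      apply h11
      have := norm_sub_norm_le z q
      linarith
    · intro w hw
      obtain ⟨u, hu, hu'⟩ := fwd w hw
      have h3 := h12 w (by simpa using hw)
      beta_reduce at h3
      rw [hu, toC_coe] at h3 ⊢
      rw [Homeomorph.trans_apply, h21 u]
      · exact h3
      · have := norm_sub_norm_le q u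
        rw [norm_sub_rev] at this
        linarith
    · intro w hw
      have h3 := h22 w hw
      obtain ⟨u, hu, hu'⟩ := bwd hδ hδ1 hA'' hB'' w hw
      rw [hu, toC_coe] at h3 ⊢
      rw [Homeomorph.trans_apply]
      have h4 : ‖γ₂ u‖ < 2 * δ :=
        maps_of_eq_off (F := γ₂) (K := {y | ‖y‖ < 2 * δ}) (fun y hy => h21 y (not_lt.1 hy))
          (show ‖u‖ < 2 * δ by linarith)
      rw [h11]
      · simpa using h3
      · have := norm_sub_norm_le q (γ₂ u)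
        rw [norm_sub_rev] at this
        linarith
  · refine ⟨min (min δA δB) (1 / 2), by positivity, fun δ hδ hle => ?_⟩
    simp only [le_min_iff] at hle
    obtain ⟨⟨hdA, hdB⟩, hd2⟩ := hle
    have hδ1 : δ < 1 := by linarith
    have hA'' := hA'.mono hdA
    have hB'' := hB'.mono hdB
    have hinv3 : 2 ≤ δ⁻¹ := by
      rw [le_inv_comm₀ (by norm_num) hδ]; rwa [one_div] at hd2
    obtain ⟨γ₂, h21, h22⟩ := exists_g2 hδ hδ1 hA'' hB''
    have hBs : B.symm = B := by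
      have : B⁻¹ = B := inv_eq_of_mul_eq_one_left hBB
      exact this
    have hAs : (resc δ hδ A).symm = resc δ hδ A := by
      have h1 : resc δ hδ A * resc δ hδ A = 1 := by
        rw [resc, ← scal_inv (δ ^ 2) (by positivity)]
        have : (scal (δ ^ 2) (by positivity))⁻¹ * A * scal (δ ^ 2) (by positivity) *
            ((scal (δ ^ 2) (by positivity))⁻¹ * A * scal (δ ^ 2) (by positivity)) =
            (scal (δ ^ 2) (by positivity))⁻¹ * (A * A) * scal (δ ^ 2) (by positivity) := by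
          group
        rw [this, hAA]; group
      have : (resc δ hδ A)⁻¹ = resc δ hδ A := inv_eq_of_mul_eq_one_left h1
      exact this
    apply core hδ hδ1 hA'' hB'' γ₂ 0 0 (by rw [norm_zero]; linarith) (by rw [norm_zero]; linarith)
    · intro z hz
      exact h21 z (by linarith)
    · intro w hw
      have := h22 w hw
      rw [hBs, hAs] at this
      simpa using this
    · intro w hw
      have := h22 w hw
      simpa using this

/-- symmetric key lemma -/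
def KeyProp (A B : X ≃ₜ X) : Prop :=
  ∃ δ₀ : ℝ, 0 < δ₀ ∧ ∀ (δ : ℝ) (hδ : 0 < δ), δ ≤ δ₀ →
      ∃ h ψ : X ≃ₜ X, h * A * h⁻¹ * B = ψ * Lam δ hδ * ψ⁻¹

theorem KeyProp.of_conj {A B : X ≃ₜ X} (a b : X ≃ₜ X) (h : KeyProp (a * A * a⁻¹) (b * B * b⁻¹)) :
    KeyProp A B := by
  obtain ⟨δ₀, h0, h1⟩ := h
  refine ⟨δ₀, h0, fun δ hδ hle => ?_⟩
  obtain ⟨h, ψ, hh⟩ := h1 δ hδ hle
  refine ⟨b⁻¹ * h * a, b⁻¹ * ψ, ?_⟩
  have : b⁻¹ * (h * (a * A * a⁻¹) * h⁻¹ * (b * B * b⁻¹)) * b = b⁻¹ * (ψ * Lam δ hδ * ψ⁻¹) * b := by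
    rw [hh]
  calc b⁻¹ * h * a * A * (b⁻¹ * h * a)⁻¹ * B =
      b⁻¹ * (h * (a * A * a⁻¹) * h⁻¹ * (b * B * b⁻¹)) * b := by group
    _ = b⁻¹ * (ψ * Lam δ hδ * ψ⁻¹) * b := this
    _ = _ := by group

theorem KeyProp.symm {A B : X ≃ₜ X} (h : KeyProp A B) : KeyProp B A := by
  obtain ⟨δ₀, h0, h1⟩ := h
  refine ⟨δ₀, h0, fun δ hδ hle => ?_⟩
  obtain ⟨h, ψ, hh⟩ := h1 δ hδ hle
  refine ⟨h⁻¹, A⁻¹ * h⁻¹ * ψ, ?_⟩
  calc h⁻¹ * B * h⁻¹⁻¹ * A = A⁻¹ * h⁻¹ * (h * A * h⁻¹ * B) * (A⁻¹ * h⁻¹)⁻¹ := by group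
    _ = A⁻¹ * h⁻¹ * (ψ * Lam δ hδ * ψ⁻¹) * (A⁻¹ * h⁻¹)⁻¹ := by rw [hh]
    _ = _ := by group

theorem exists_ne {A : X ≃ₜ X} (hA : A ≠ 1) : ∃ p, A p ≠ p := by
  by_contra h
  push Not at h
  exact hA (by ext x; exact h x)

theorem keyProp_of_sq_ne {A B : X ≃ₜ X} (hA : A ∈ stab) (hB : B ∈ stab) (hA1 : A ≠ 1)
    (hB2 : B * B ≠ 1) : KeyProp A B := by
  obtain ⟨p, hp⟩ := exists_ne hA1
  obtain ⟨r, hr⟩ := exists_ne hB2
  rw [Homeomorph.mul_apply] at hr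
  have hBr : B r ≠ r := by
    intro h
    rw [h, h] at hr
    exact hr rfl
  obtain ⟨a, -, -, ha⟩ := normal_form hA hp
  obtain ⟨b, hb1, hb2, hb⟩ := normal_form hB hBr
  apply KeyProp.of_conj a b
  apply lemmaM_nf ha hb
  left
  have h1 : (b * B * b⁻¹) ∞ = b (B (B r)) := by
    simp only [Homeomorph.mul_apply, Homeomorph.inv_apply]
    rw [← hb2, b.symm_apply_apply]
  have h2 : b (B (B r)) ≠ ∞ := by
    intro h
    rw [← hb2] at h
    exact hBr (B.injective (b.injective h))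
  obtain ⟨q, hq⟩ := ne_infty_iff_exists.1 h2
  refine ⟨q, ?_, by rw [h1, hq]⟩
  rintro rfl
  rw [← hb1] at hq
  exact hr (b.injective hq).symm

theorem keyProp {A B : X ≃ₜ X} (hA : A ∈ stab) (hB : B ∈ stab) (hA1 : A ≠ 1) (hB1 : B ≠ 1) :
    KeyProp A B := by
  by_cases hB2 : B * B = 1
  · by_cases hA2 : A * A = 1
    · obtain ⟨p, hp⟩ := exists_ne hA1
      obtain ⟨r, hr⟩ := exists_ne hB1
      obtain ⟨a, -, -, ha⟩ := normal_form hA hp
      obtain ⟨b, -, -, hb⟩ := normal_form hB hr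
      apply KeyProp.of_conj a b
      apply lemmaM_nf ha hb
      right
      constructor
      · calc a * A * a⁻¹ * (a * A * a⁻¹) = a * (A * A) * a⁻¹ := by group
          _ = 1 := by rw [hA2]; group
      · calc b * B * b⁻¹ * (b * B * b⁻¹) = b * (B * B) * b⁻¹ := by group
          _ = 1 := by rw [hB2]; group
    · exact (keyProp_of_sq_ne hB hA hB1 hA2).symm
  · exact keyProp_of_sq_ne hA hB hA1 hB2

/-- Three conjugates suffice. -/
theorem three_conj {A B : X ≃ₜ X} (hA : A ∈ stab) (hB : B ∈ stab) (hA1 : A ≠ 1) (hB1 : B ≠ 1) :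
    ∃ H₁ H₂ H₃ : X ≃ₜ X, B = (H₁ * A * H₁⁻¹) * (H₂ * A * H₂⁻¹) * (H₃ * A * H₃⁻¹) := by
  obtain ⟨δ₁, h1, h1'⟩ := keyProp (stab.inv_mem hA) hB (inv_ne_one.2 hA1) hB1
  obtain ⟨δ₂, h2, h2'⟩ := keyProp hA hA hA1 hA1
  have hδ : 0 < min δ₁ δ₂ := lt_min h1 h2
  obtain ⟨k, n, hk⟩ := h1' _ hδ (min_le_left _ _)
  obtain ⟨h, m, hh⟩ := h2' _ hδ (min_le_right _ _)
  refine ⟨k, n * m⁻¹ * h, n * m⁻¹, ?_⟩
  have e1 : B = k * A * k⁻¹ * (n * Lam (min δ₁ δ₂) hδ * n⁻¹) := by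
    rw [← hk]; group
  have e2 : Lam (min δ₁ δ₂) hδ = m⁻¹ * (h * A * h⁻¹ * A) * m := by
    rw [hh]; group
  rw [e1, e2]
  group

end Pool.Agent.Lib.MP_c6d336_gt
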