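import Mathlib

/-!
# Basic tools: extension by the identity, push maps, radial homeomorphisms
-/

namespace Pool.Agent.Lib.MP_c6d336_gt

open Set Filter Topology NNReal

section Push

variable {X Y : Type*} [TopologicalSpace X] [TopologicalSpace Y]

open scoped Classical in
/-- The push-forward of a self-map of `Y` by a partial homeomorphism, extended by the identity. -/
noncomputable def pushFun (φ : OpenPartialHomeomorph Y X) (F : Y ≃ₜ Y) (x : X) : X :=
  if x ∈ φ.target then φ (F (φ.symm x)) else x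

theorem maps_of_eq_off {F : Y ≃ₜ Y} {K : Set Y} (hF : ∀ y, y ∉ K → F y = y) {y : Y} (hy : y ∈ K) :
    F y ∈ K := by
  by_contra h
  have h1 := hF _ h
  exact h ((F.injective h1).symm ▸ hy)

theorem symm_eq_off {F : Y ≃ₜ Y} {K : Set Y} (hF : ∀ y, y ∉ K → F y = y) :
    ∀ y, y ∉ K → F.symm y = y := by
  intro y hy
  rw [F.symm_apply_eq]
  exact (hF y hy).symm

theorem continuous_pushFun [T2Space X] {φ : OpenPartialHomeomorph Y X} {F : Y ≃ₜ Y} {K : Set Y}
    (hK : IsCompact K) (hKs : K ⊆ φ.source) (hF : ∀ y, y ∉ K → F y = y) :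
    Continuous (pushFun φ F) := by
  have hmem : ∀ y ∈ φ.source, F y ∈ φ.source := by
    intro y hy
    by_cases h : y ∈ K
    · exact hKs (maps_of_eq_off hF h)
    · rw [hF y h]; exact hy
  rw [continuous_iff_continuousAt]
  intro x
  by_cases hx : x ∈ φ.target
  · have h1 : ContinuousOn (fun x => φ (F (φ.symm x))) φ.target := by
      refine φ.continuousOn.comp (F.continuous.comp_continuousOn φ.continuousOn_symm) ?_
      intro z hz
      exact hmem _ (φ.map_target hz)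
    refine (h1.continuousAt (φ.open_target.mem_nhds hx)).congr ?_
    refine Filter.eventually_of_mem (φ.open_target.mem_nhds hx) fun z hz => ?_
    simp [pushFun, hz]
  · have hcl : IsClosed (φ '' K) :=
      (hK.image_of_continuousOn (φ.continuousOn.mono hKs)).isClosed
    have hx' : x ∉ φ '' K := by
      rintro ⟨y, hy, rfl⟩
      exact hx (φ.map_source (hKs hy))
    refine continuousAt_id.congr ?_
    refine Filter.eventually_of_mem (hcl.isOpen_compl.mem_nhds hx') fun z hz => ?_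
    by_cases hzt : z ∈ φ.target
    · have : φ.symm z ∉ K := fun h => hz ⟨_, h, φ.right_inv hzt⟩
      simp [pushFun, hzt, hF _ this, φ.right_inv hzt]
    · simp [pushFun, hzt]

theorem pushFun_apply {φ : OpenPartialHomeomorph Y X} {F : Y ≃ₜ Y} {y : Y} (hy : y ∈ φ.source) :
    pushFun φ F (φ y) = φ (F y) := by
  simp [pushFun, φ.map_source hy, φ.left_inv hy]

theorem pushFun_symm_pushFun {φ : OpenPartialHomeomorph Y X} {F : Y ≃ₜ Y} {K : Set Y}
    (hKs : K ⊆ φ.source) (hF : ∀ y, y ∉ K → F y = y) (x : X) :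
    pushFun φ F.symm (pushFun φ F x) = x := by
  have hmem : ∀ y ∈ φ.source, F y ∈ φ.source := by
    intro y hy
    by_cases h : y ∈ K
    · exact hKs (maps_of_eq_off hF h)
    · rw [hF y h]; exact hy
  by_cases hx : x ∈ φ.target
  · obtain ⟨y, hy, rfl⟩ : ∃ y ∈ φ.source, φ y = x := ⟨φ.symm x, φ.map_target hx, φ.right_inv hx⟩
    rw [pushFun_apply hy, pushFun_apply (hmem y hy), F.symm_apply_apply]
  · have : pushFun φ F x = x := by simp [pushFun, hx]
    rw [this]; simp [pushFun, hx]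

/-- Push-forward of a compactly supported homeomorphism by a partial homeomorphism. -/
theorem exists_pushforward [T2Space X] (φ : OpenPartialHomeomorph Y X) (F : Y ≃ₜ Y) {K : Set Y}
    (hK : IsCompact K) (hKs : K ⊆ φ.source) (hF : ∀ y, y ∉ K → F y = y) :
    ∃ F' : X ≃ₜ X, (∀ y ∈ φ.source, F' (φ y) = φ (F y)) ∧ ∀ x, x ∉ φ '' K → F' x = x := by
  refine ⟨⟨⟨pushFun φ F, pushFun φ F.symm, pushFun_symm_pushFun hKs hF, ?_⟩,
    continuous_pushFun hK hKs hF, continuous_pushFun hK hKs (symm_eq_off hF)⟩, ?_, ?_⟩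
  · intro x
    have := pushFun_symm_pushFun (φ := φ) (F := F.symm) hKs (symm_eq_off hF) x
    simpa using this
  · intro y hy
    exact pushFun_apply hy
  · intro x hx
    change pushFun φ F x = x
    by_cases hzt : x ∈ φ.target
    · have : φ.symm x ∉ K := fun h => hx ⟨_, h, φ.right_inv hzt⟩
      simp [pushFun, hzt, hF _ this, φ.right_inv hzt]
    · simp [pushFun, hzt]

end Push

section PushPoint

/-- A homeomorphism of the plane supported in a disc moving a point of the disc to its centre. -/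
theorem exists_push (v a : ℂ) (r : ℝ) (h : ‖a - v‖ < r) :
    ∃ f : ℂ ≃ₜ ℂ, f a = v ∧ ∀ x, r ≤ ‖x - v‖ → f x = x := by
  have hr : 0 < r := (norm_nonneg _).trans_lt h
  set b := a - v with hb
  set χ : ℂ → ℝ := fun x => max 0 (1 - ‖x - v‖ / r) with hχ
  have hlip : ∀ x y, |χ x - χ y| ≤ ‖x - y‖ / r := by
    intro x y
    have h1 : |χ x - χ y| ≤ |(1 - ‖x - v‖ / r) - (1 - ‖y - v‖ / r)| := by
      simp only [hχ]
      rw [max_comm 0, max_comm 0]
      exact abs_max_sub_max_le_abs _ _ _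
    refine h1.trans ?_
    have h2 : (1 - ‖x - v‖ / r) - (1 - ‖y - v‖ / r) = (‖y - v‖ - ‖x - v‖) / r := by ring
    rw [h2, abs_div, abs_of_pos hr]
    gcongr
    have := abs_norm_sub_norm_le (y - v) (x - v)
    rw [show y - v - (x - v) = -(x - y) by ring, norm_neg] at this
    exact this
  set φ : ℂ → ℂ := fun x => x + χ x • b with hφ
  have hbr : ((‖b‖ / r).toNNReal : ℝ) = ‖b‖ / r := Real.coe_toNNReal _ (by positivity)
  have happ : ApproximatesLinearOn φ (ContinuousLinearEquiv.refl ℝ ℂ : ℂ →L[ℝ] ℂ) univ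
      (‖b‖ / r).toNNReal := by
    intro x _ y _
    have : φ x - φ y - (ContinuousLinearEquiv.refl ℝ ℂ : ℂ →L[ℝ] ℂ) (x - y) = (χ x - χ y) • b := by
      simp [hφ, sub_smul]; ring
    rw [this, norm_smul, Real.norm_eq_abs, hbr]
    calc |χ x - χ y| * ‖b‖ ≤ (‖x - y‖ / r) * ‖b‖ := by gcongr; exact hlip x y
      _ = (‖b‖ / r) * ‖x - y‖ := by ring
  have hc : (Subsingleton ℂ) ∨ (‖b‖ / r).toNNReal <
      ‖((ContinuousLinearEquiv.refl ℝ ℂ).symm : ℂ →L[ℝ] ℂ)‖₊⁻¹ := by
    right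
    have h1 : ‖((ContinuousLinearEquiv.refl ℝ ℂ).symm : ℂ →L[ℝ] ℂ)‖₊ = 1 := by
      ext
      simp
    rw [h1, inv_one, ← NNReal.coe_lt_coe, hbr, NNReal.coe_one, div_lt_one hr]
    exact h
  set g := ApproximatesLinearOn.toHomeomorph φ happ hc with hg
  have hgφ : ∀ x, g x = φ x := fun x => rfl
  refine ⟨g.symm, ?_, ?_⟩
  · rw [g.symm_apply_eq, hgφ]
    simp [hφ, hχ, hb]
  · intro x hx
    rw [g.symm_apply_eq, hgφ]
    have : χ x = 0 := by
      simp only [hχ]
      apply max_eq_left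
      have : 1 ≤ ‖x - v‖ / r := by rwa [le_div_iff₀ hr, one_mul]
      linarith
    simp [hφ, this]

end PushPoint

section Radial

variable {E : Type*} [NormedAddCommGroup E] [NormedSpace ℝ E]

/-- Radial map. -/
noncomputable def radialFun (ρ : ℝ≥0 ≃o ℝ≥0) (x : E) : E := ((ρ ‖x‖₊ : ℝ) / ‖x‖) • x

theorem orderIso_zero (ρ : ℝ≥0 ≃o ℝ≥0) : ρ 0 = 0 := by
  have := ρ.map_bot
  simpa using this

theorem norm_radialFun (ρ : ℝ≥0 ≃o ℝ≥0) (x : E) : ‖radialFun ρ x‖ = ρ ‖x‖₊ := by
  unfold radialFun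
  by_cases hx : x = 0
  · subst hx
    simp [orderIso_zero]
  · have : ‖x‖ ≠ 0 := norm_ne_zero_iff.2 hx
    rw [norm_smul, norm_div, norm_norm, Real.norm_of_nonneg (NNReal.coe_nonneg _)]
    field_simp

theorem nnnorm_radialFun (ρ : ℝ≥0 ≃o ℝ≥0) (x : E) : ‖radialFun ρ x‖₊ = ρ ‖x‖₊ := by
  ext
  exact norm_radialFun ρ x

theorem radialFun_symm_radialFun (ρ : ℝ≥0 ≃o ℝ≥0) (x : E) :
    radialFun ρ.symm (radialFun ρ x) = x := by
  by_cases hx : x = 0
  · subst hx
    simp [radialFun]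
  · have h1 : ‖x‖ ≠ 0 := norm_ne_zero_iff.2 hx
    have h2 : (ρ ‖x‖₊ : ℝ) ≠ 0 := by
      intro h
      have h' : ρ ‖x‖₊ = 0 := by exact_mod_cast h
      rw [← orderIso_zero ρ] at h'
      have := ρ.injective h'
      exact hx (by simpa using this)
    rw [radialFun, nnnorm_radialFun, ρ.symm_apply_apply, norm_radialFun, radialFun, smul_smul]
    have : ((‖x‖₊ : ℝ) / (ρ ‖x‖₊ : ℝ)) * ((ρ ‖x‖₊ : ℝ) / ‖x‖) = 1 := by
      rw [coe_nnnorm]
      field_simp
    rw [this, one_smul]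

theorem continuous_radialFun (ρ : ℝ≥0 ≃o ℝ≥0) : Continuous (radialFun ρ : E → E) := by
  rw [continuous_iff_continuousAt]
  intro x
  have hρ : Continuous ρ := ρ.continuous
  by_cases hx : x = 0
  · subst hx
    have h0 : radialFun ρ (0 : E) = 0 := by simp [radialFun]
    rw [ContinuousAt, h0, tendsto_zero_iff_norm_tendsto_zero]
    simp_rw [norm_radialFun]
    have : Continuous fun x : E => ((ρ ‖x‖₊ : ℝ≥0) : ℝ) := by fun_prop
    have h := this.tendsto 0
    simpa [orderIso_zero] using h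
  · unfold radialFun
    have h1 : ‖x‖ ≠ 0 := norm_ne_zero_iff.2 hx
    refine ContinuousAt.smul (ContinuousAt.div ?_ continuous_norm.continuousAt h1) continuousAt_id
    fun_prop

/-- The radial homeomorphism of a normed space attached to an order isomorphism of `[0,∞)`. -/
noncomputable def radial (ρ : ℝ≥0 ≃o ℝ≥0) : E ≃ₜ E where
  toFun := radialFun ρ
  invFun := radialFun ρ.symm
  left_inv := radialFun_symm_radialFun ρ
  right_inv := by
    intro x
    have := radialFun_symm_radialFun ρ.symm x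
    simpa using this
  continuous_toFun := continuous_radialFun ρ
  continuous_invFun := continuous_radialFun ρ.symm

theorem radial_apply (ρ : ℝ≥0 ≃o ℝ≥0) (x : E) : radial ρ x = ((ρ ‖x‖₊ : ℝ) / ‖x‖) • x := rfl

theorem radial_symm (ρ : ℝ≥0 ≃o ℝ≥0) : (radial ρ : E ≃ₜ E).symm = radial ρ.symm := by
  ext x; rfl

theorem norm_radial (ρ : ℝ≥0 ≃o ℝ≥0) (x : E) : ‖radial ρ x‖ = ρ ‖x‖₊ := norm_radialFun ρ x

theorem nnnorm_radial (ρ : ℝ≥0 ≃o ℝ≥0) (x : E) : ‖radial ρ x‖₊ = ρ ‖x‖₊ := nnnorm_radialFun ρ x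

theorem radial_zero (ρ : ℝ≥0 ≃o ℝ≥0) : radial ρ (0 : E) = 0 := by simp [radial_apply]

theorem radial_eq_self {ρ : ℝ≥0 ≃o ℝ≥0} {x : E} (h : ρ ‖x‖₊ = ‖x‖₊) : radial ρ x = x := by
  by_cases hx : x = 0
  · subst hx; exact radial_zero ρ
  · rw [radial_apply, h, coe_nnnorm, div_self (norm_ne_zero_iff.2 hx), one_smul]

end Radial

end Pool.Agent.Lib.MP_c6d336_gt
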